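import Mathlib

/-!
# [H85 CPX AVG] Averaging

`∑_{p ∈ S} u p ∑_{ℓ ∈ F p} w ℓ ≥ c U`, `U = ∑_{p ∈ S} u p`; exchange: `= ∑_{ℓ ∈ L} w ℓ ∑_{p ∈ S, ℓ ∈ F p} u p`. If all inner sums were `< (c/2) U` (and `U > 0`), the total would be
`< W (c/2) U ≤ c U` (strict: some `w ℓ > 0`, since `c > 0` and `S` nonempty). If `U = 0` take any `ℓ ∈ F p`.
-/

set_option autoImplicit false

namespace Pool.Agent.H85.CPX

open scoped Classical in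
theorem avg {c : ℝ} (hc : 0 < c) (L : Finset ℕ) (w : ℕ → ℝ) (hw : ∀ ℓ ∈ L, 0 ≤ w ℓ)
    (hW : ∑ ℓ ∈ L, w ℓ ≤ 2) (S : Finset ℕ) (hS : S.Nonempty) (u : ℕ → ℝ) (hu : ∀ p ∈ S, 0 ≤ u p)
    (F : ℕ → Finset ℕ) (hF : ∀ p ∈ S, F p ⊆ L ∧ c ≤ ∑ ℓ ∈ F p, w ℓ) :
    ∃ ℓ ∈ L, c / 2 * ∑ p ∈ S, u p ≤ ∑ p ∈ S with ℓ ∈ F p, u p := by
  by_contra hcon
  push Not at hcon
  obtain ⟨U, hU⟩ : ∃ U, U = ∑ p ∈ S, u p := ⟨_, rfl⟩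
  rw [← hU] at hcon
  have hU0 : 0 ≤ U := by rw [hU]; exact Finset.sum_nonneg hu
  have h1 : c * U ≤ ∑ p ∈ S, u p * ∑ ℓ ∈ F p, w ℓ := by
    rw [hU, Finset.mul_sum]
    refine Finset.sum_le_sum fun p hp => ?_
    rw [mul_comm]
    exact mul_le_mul_of_nonneg_left (hF p hp).2 (hu p hp)
  have h2 : ∑ p ∈ S, u p * ∑ ℓ ∈ F p, w ℓ = ∑ ℓ ∈ L, w ℓ * ∑ p ∈ S with ℓ ∈ F p, u p := by
    have e1 : ∀ p ∈ S, u p * ∑ ℓ ∈ F p, w ℓ = ∑ ℓ ∈ L, if ℓ ∈ F p then u p * w ℓ else 0 := by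
      intro p hp
      rw [Finset.mul_sum, ← Finset.sum_filter]
      refine Finset.sum_congr ?_ fun _ _ => rfl
      ext ℓ
      rw [Finset.mem_filter]
      exact ⟨fun h => ⟨(hF p hp).1 h, h⟩, fun h => h.2⟩
    rw [Finset.sum_congr rfl e1, Finset.sum_comm]
    refine Finset.sum_congr rfl fun ℓ _ => ?_
    rw [Finset.mul_sum, Finset.sum_filter]
    refine Finset.sum_congr rfl fun p _ => ?_
    split_ifs <;> ring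
  obtain ⟨p0, hp0⟩ := hS
  obtain ⟨ℓ0, hℓ0, hpos⟩ : ∃ ℓ ∈ F p0, 0 < w ℓ := by
    by_contra h
    push Not at h
    have := (hF p0 hp0).2.trans (Finset.sum_nonpos h)
    linarith
  have h3 : ∑ ℓ ∈ L, w ℓ * ∑ p ∈ S with ℓ ∈ F p, u p < ∑ ℓ ∈ L, w ℓ * (c / 2 * U) := by
    apply Finset.sum_lt_sum
    · intro ℓ hℓ
      exact mul_le_mul_of_nonneg_left (hcon ℓ hℓ).le (hw ℓ hℓ)
    · have hm := (hF p0 hp0).1 hℓ0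
      exact ⟨ℓ0, hm, mul_lt_mul_of_pos_left (hcon ℓ0 hm) hpos⟩
  rw [← Finset.sum_mul] at h3
  have h4 : (∑ ℓ ∈ L, w ℓ) * (c / 2 * U) ≤ 2 * (c / 2 * U) :=
    mul_le_mul_of_nonneg_right hW (by positivity)
  rw [h2] at h1
  linarith

end Pool.Agent.H85.CPX
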