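import Pool.Agent.H85.CP.Cnt

/-!
# [H85 CPX CB] Counting degree one primes in the fixed fields

`G = Gal(M/ℚ)`. Choose `T P` for all `P ∈ Pr M ℓ` (`exists_Fr`), as in `H85/CP/Mob.lean`; `f = orderOf (T P₀)`. All `T P` are conjugate to `t` (`Pr_trans`, `Fr_conj`, `Fr_unique`).
* `card_Pr_f`: `f * card (Pr M ℓ) = card G` (`count_Pr` with `H = ⊤`: `aa (fixedField ⊤) ℓ = 1`: `fixedField ⊤ = ⊥`, `ℚ`, has exactly one prime above `ℓ`, of norm `ℓ`; or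
  directly orbit-stabiliser: `G` acts transitively on `Pr M ℓ` (`Pr_trans`), the stabiliser of `P₀` is `zpowers (T P₀)` (`stab_Fr`), see `cnt_orb` in `Cnt.lean`).
* `cnt_N`: `count_Pr` with `H = N`: all `T P ∈ N` as `N` is normal.
* `cnt_B`: `count_Pr` with `H_s = Z ⊔ zpowers s`: `∑_{s ∈ B} card H_s * aa (H_s) ℓ = f ∑_{P} #{s ∈ B : T P ∈ H_s}`. Fix `P`, `t' = T P` (conjugate to `t`, so
  `t' ∉ N`, `t' t' ∈ Z`). For `z ∈ Z` put `s = t' z`: `s ∉ N` (`Z ≤ N`), `s s = t' t' (t'⁻¹ z t') z ∈ Z`, so `s ∈ B`, and `t' = s z⁻¹ ∈ H_s`. So there are at least `card Z` such `s`.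
* `card_sup`: `Z ⊔ zpowers s = Z ∪ s Z` (`Subgroup.mem_sup` for a normal subgroup: every element is `z s^i`, and `s^i ∈ Z ∪ s Z` as `s s ∈ Z`), so at most `2 card Z` elements.
-/

set_option autoImplicit false

namespace Pool.Agent.H85.CPX

open NumberField Pool.Agent.H85.CP

theorem card_sup {G : Type} [Group G] [Finite G] (Z : Subgroup G) [Z.Normal] (s : G)
    (h : s * s ∈ Z) : Nat.card ↥(Z ⊔ Subgroup.zpowers s) ≤ 2 * Nat.card Z := by
  have hsub : ((Z ⊔ Subgroup.zpowers s : Subgroup G) : Set G) ⊆ (Z : Set G) ∪ (fun z => z * s) '' (Z : Set G) := by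
    intro x hx
    rw [Subgroup.normal_mul] at hx
    obtain ⟨z, hz, y, hy, rfl⟩ := hx
    obtain ⟨i, rfl⟩ := Subgroup.mem_zpowers_iff.1 hy
    have hz' : z ∈ Z := hz
    obtain ⟨j, hj | hj⟩ := Int.even_or_odd' i
    · left
      subst hj
      change z * s ^ (2 * j) ∈ Z
      rw [zpow_mul, zpow_two]
      exact Z.mul_mem hz' (Z.zpow_mem h j)
    · right
      subst hj
      refine ⟨z * (s * s) ^ j, Z.mul_mem hz' (Z.zpow_mem h j), ?_⟩
      change z * (s * s) ^ j * s = z * s ^ (2 * j + 1)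
      rw [zpow_add, zpow_mul, zpow_two, zpow_one, mul_assoc]
  have h1 := Set.ncard_le_ncard hsub (Set.toFinite _)
  have h2 := Set.ncard_union_le (Z : Set G) ((fun z => z * s) '' (Z : Set G))
  have h3 : ((fun z => z * s) '' (Z : Set G)).ncard ≤ (Z : Set G).ncard := Set.ncard_image_le (Set.toFinite _)
  have e1 : Nat.card ↥(Z ⊔ Subgroup.zpowers s) = ((Z ⊔ Subgroup.zpowers s : Subgroup G) : Set G).ncard := rfl
  have e2 : Nat.card Z = (Z : Set G).ncard := rfl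
  rw [e1, e2]
  omega

section

open scoped Pointwise

variable {M : Type} [Field M] [NumberField M] [IsGalois ℚ M]

private theorem cb_T {ℓ : ℕ} (hℓ : ℓ.Prime) :
    ∃ T : Ideal (𝓞 M) → Gal(M/ℚ), ∀ P ∈ Pr M ℓ, IsFr ℓ P (T P) := by
  classical
  choose T0 hT0 using fun (P : Ideal (𝓞 M)) (hP : P ∈ Pr M ℓ) => exists_Fr (M := M) hℓ hP
  refine ⟨fun P => if h : P ∈ Pr M ℓ then T0 P h else 1, fun P hP => ?_⟩
  show IsFr ℓ P (if h : P ∈ Pr M ℓ then T0 P h else 1)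
  rw [dif_pos hP]
  exact hT0 P hP

/-- orbit and stabilizer -/
private theorem cb_orb {ℓ : ℕ} (hℓ : ℓ.Prime) (hd : ¬ (ℓ : ℤ) ∣ discr M) {P : Ideal (𝓞 M)}
    (hP : P ∈ Pr M ℓ) {t : Gal(M/ℚ)} (ht : IsFr ℓ P t) :
    (Pr M ℓ).card * orderOf t = Nat.card Gal(M/ℚ) := by
  have hPp := ((mem_Pr hℓ).1 hP).1
  have hov : P.LiesOver (Ideal.span {(ℓ : ℤ)}) := ⟨(under_Pr hℓ hP).symm⟩
  have hprime : (Ideal.span {(ℓ : ℤ)}).IsPrime :=
    (Ideal.span_singleton_prime (by exact_mod_cast hℓ.ne_zero)).2 (Nat.prime_iff_prime_int.1 hℓ)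
  have hset : ((Pr M ℓ : Finset (Ideal (𝓞 M))) : Set (Ideal (𝓞 M))) = MulAction.orbit Gal(M/ℚ) P := by
    have horb : MulAction.orbit Gal(M/ℚ) P = (Ideal.span {(ℓ : ℤ)}).primesOver (𝓞 M) :=
      Algebra.IsInvariant.orbit_eq_primesOver ℤ (𝓞 M) Gal(M/ℚ) (Ideal.span {(ℓ : ℤ)}) P
    rw [horb]
    ext Q
    rw [Finset.mem_coe]
    constructor
    · intro h1
      exact ⟨((mem_Pr hℓ).1 h1).1, ⟨(under_Pr hℓ h1).symm⟩⟩
    · rintro ⟨h1, h2⟩
      refine (mem_Pr hℓ).2 ⟨h1, ?_⟩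
      have h3 : Ideal.span {(ℓ : ℤ)} = Q.under ℤ := h2.over
      have h4 : (ℓ : ℤ) ∈ Q.under ℤ := by
        rw [← h3]
        exact Ideal.mem_span_singleton_self _
      rw [Ideal.under_def, Ideal.mem_comap, map_natCast] at h4
      exact h4
  have hstab : MulAction.stabilizer Gal(M/ℚ) P = Subgroup.zpowers t := by
    ext g
    rw [MulAction.mem_stabilizer_iff, stab_Fr hℓ hd hP ht g]
  have h1 := Nat.card_congr (MulAction.orbitProdStabilizerEquivGroup Gal(M/ℚ) P)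
  rw [Nat.card_prod, hstab, Nat.card_zpowers, ← hset] at h1
  rw [← h1]
  congr 1
  rw [Nat.card_coe_set_eq, Set.ncard_coe_finset]

private theorem cb_conj {ℓ : ℕ} (hℓ : ℓ.Prime) (hd : ¬ (ℓ : ℤ) ∣ discr M) {P : Ideal (𝓞 M)}
    (hP : P ∈ Pr M ℓ) {t : Gal(M/ℚ)} (ht : IsFr ℓ P t) {P' : Ideal (𝓞 M)} (hP' : P' ∈ Pr M ℓ)
    {t' : Gal(M/ℚ)} (ht' : IsFr ℓ P' t') : ∃ g : Gal(M/ℚ), t' = g * t * g⁻¹ := by
  obtain ⟨g, hg⟩ := Pr_trans hℓ hP hP'
  have h1 := Fr_conj ht g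
  rw [hg] at h1
  exact ⟨g, Fr_unique hℓ hd hP' ht' h1⟩

end

theorem cnt_N {M : Type} [Field M] [NumberField M] [IsGalois ℚ M] (N : Subgroup Gal(M/ℚ))
    [N.Normal] {ℓ : ℕ} (hℓ : ℓ.Prime) (hd : ¬ (ℓ : ℤ) ∣ discr M) {P : Ideal (𝓞 M)}
    (hP : P ∈ Pr M ℓ) {t : Gal(M/ℚ)} (ht : IsFr ℓ P t) (h : t ∈ N) :
    aa (IntermediateField.fixedField N) ℓ * Nat.card N = Nat.card Gal(M/ℚ) := by
  classical
  obtain ⟨T, hT⟩ := cb_T (M := M) hℓ
  have h1 := count_Pr hℓ hd N T hT hP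
  have h2 : ((Pr M ℓ).filter fun P => T P ∈ N) = Pr M ℓ := by
    rw [Finset.filter_eq_self]
    intro P' hP'
    obtain ⟨g, hg⟩ := cb_conj hℓ hd hP ht hP' (hT P' hP')
    rw [hg]
    exact Subgroup.Normal.conj_mem inferInstance t h g
  have h3 : T P = t := Fr_unique hℓ hd hP (hT P hP) ht
  rw [h2, h3] at h1
  rw [h1, mul_comm]
  exact cb_orb hℓ hd hP ht

theorem cnt_B {M : Type} [Field M] [NumberField M] [IsGalois ℚ M] (N Z : Subgroup Gal(M/ℚ))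
    [N.Normal] [Z.Normal] (hZN : Z ≤ N) (B : Finset Gal(M/ℚ))
    (hB : ∀ s, s ∈ B ↔ s ∉ N ∧ s * s ∈ Z) {ℓ : ℕ} (hℓ : ℓ.Prime)
    (hd : ¬ (ℓ : ℤ) ∣ discr M) {P : Ideal (𝓞 M)} (hP : P ∈ Pr M ℓ) {t : Gal(M/ℚ)}
    (ht : IsFr ℓ P t) (h1 : t ∉ N) (h2 : t * t ∈ Z) :
    Nat.card Gal(M/ℚ) * Nat.card Z ≤
      ∑ s ∈ B, Nat.card ↥(Z ⊔ Subgroup.zpowers s) *
        aa (IntermediateField.fixedField (Z ⊔ Subgroup.zpowers s)) ℓ := by
  classical
  obtain ⟨T, hT⟩ := cb_T (M := M) hℓ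
  have hTP : T P = t := Fr_unique hℓ hd hP (hT P hP) ht
  have key : ∀ P' ∈ Pr M ℓ, Nat.card Z ≤ (B.filter fun s => T P' ∈ Z ⊔ Subgroup.zpowers s).card := by
    intro P' hP'
    obtain ⟨g, hg⟩ := cb_conj hℓ hd hP ht hP' (hT P' hP')
    have hN' : T P' ∉ N := by
      intro h3
      apply h1
      have h4 : t = g⁻¹ * T P' * g⁻¹⁻¹ := by
        rw [hg]
        group
      rw [h4]
      exact Subgroup.Normal.conj_mem inferInstance _ h3 g⁻¹
    have hZ' : T P' * T P' ∈ Z := by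
      have h4 : T P' * T P' = g * (t * t) * g⁻¹ := by
        rw [hg]
        group
      rw [h4]
      exact Subgroup.Normal.conj_mem inferInstance _ h2 g
    have hmem : ∀ z : Z, T P' * (z : Gal(M/ℚ)) ∈ B.filter fun s => T P' ∈ Z ⊔ Subgroup.zpowers s := by
      intro z
      rw [Finset.mem_filter, hB]
      refine ⟨⟨?_, ?_⟩, ?_⟩
      · intro h3
        apply hN'
        have h4 := N.mul_mem h3 (N.inv_mem (hZN z.2))
        rwa [mul_inv_cancel_right] at h4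
      · have h4 : T P' * (z : Gal(M/ℚ)) * (T P' * (z : Gal(M/ℚ))) =
            (T P' * T P') * ((T P')⁻¹ * (z : Gal(M/ℚ)) * ((T P')⁻¹)⁻¹) * (z : Gal(M/ℚ)) := by
          group
        rw [h4]
        exact Z.mul_mem (Z.mul_mem hZ' (Subgroup.Normal.conj_mem inferInstance _ z.2 _)) z.2
      · have h4 : T P' = (T P' * (z : Gal(M/ℚ))) * (z : Gal(M/ℚ))⁻¹ := by
          rw [mul_inv_cancel_right]
        have h5 : (T P' * (z : Gal(M/ℚ))) * (z : Gal(M/ℚ))⁻¹ ∈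
            Z ⊔ Subgroup.zpowers (T P' * (z : Gal(M/ℚ))) :=
          Subgroup.mul_mem _ ((le_sup_right : Subgroup.zpowers _ ≤ _) (Subgroup.mem_zpowers _))
            ((le_sup_left : Z ≤ _) (Z.inv_mem z.2))
        rwa [← h4] at h5
    have h3 := Nat.card_le_card_of_injective
      (fun z : Z => (⟨T P' * (z : Gal(M/ℚ)), hmem z⟩ : ↥(B.filter fun s => T P' ∈ Z ⊔ Subgroup.zpowers s)))
      (fun z z' h => Subtype.ext (mul_left_cancel (congrArg Subtype.val h)))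
    rwa [Nat.card_eq_fintype_card (α := ↥(B.filter fun s => T P' ∈ Z ⊔ Subgroup.zpowers s)),
      Fintype.card_coe] at h3
  have e1 : ∀ s ∈ B, Nat.card ↥(Z ⊔ Subgroup.zpowers s) *
      aa (IntermediateField.fixedField (Z ⊔ Subgroup.zpowers s)) ℓ =
      orderOf t * ∑ P' ∈ Pr M ℓ, if T P' ∈ Z ⊔ Subgroup.zpowers s then 1 else 0 := by
    intro s _
    have h3 := count_Pr hℓ hd (Z ⊔ Subgroup.zpowers s) T hT hP
    rw [mul_comm, h3, hTP, Finset.sum_boole]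
    rfl
  rw [Finset.sum_congr rfl e1, ← Finset.mul_sum, Finset.sum_comm, ← cb_orb hℓ hd hP ht]
  have e2 : (Pr M ℓ).card * Nat.card Z ≤
      ∑ P' ∈ Pr M ℓ, ∑ s ∈ B, if T P' ∈ Z ⊔ Subgroup.zpowers s then 1 else 0 := by
    rw [← smul_eq_mul, ← Finset.sum_const]
    refine Finset.sum_le_sum fun P' hP' => ?_
    rw [Finset.sum_boole]
    exact key P' hP'
  calc (Pr M ℓ).card * orderOf t * Nat.card Z = orderOf t * ((Pr M ℓ).card * Nat.card Z) := by ring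
    _ ≤ _ := Nat.mul_le_mul_left _ e2

end Pool.Agent.H85.CPX
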