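import Pool.Agent.H85.CP.MX
import Pool.Agent.H85.CP.GrA

/-!
# THEOREM CP++: definitions
-/

set_option autoImplicit false

namespace Pool.Agent.H85.CPX

open Pool.Agent.H27.SU Pool.Agent.H85.CP

/-- fewer than half of the elements of the image of `ρ_{E,r}` have a scalar square -/
def FewSq (E : WeierstrassCurve ℚ) (r : ℕ) : Prop :=
  2 * Nat.card {a : Au (TT E r) // (∃ σ : GQ, rhoQ E r σ = a) ∧
      ∃ n : ℤ, ∀ v : TT E r, a.1 (a.1 v) = n • v} <
    Nat.card {a : Au (TT E r) // ∃ σ : GQ, rhoQ E r σ = a}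

/-- the stabiliser of `y` -/
def NQ (y : QB) : Subgroup GQ where
  carrier := {σ | σ y = y}
  mul_mem' := by
    intro σ τ h1 h2
    show (σ * τ) y = y
    have e1 : σ y = y := h1
    have e2 : τ y = y := h2
    rw [AlgEquiv.mul_apply, e2, e1]
  one_mem' := rfl
  inv_mem' := by
    intro σ h1
    show (σ⁻¹) y = y
    have e1 : σ y = y := h1
    conv_lhs => rw [← e1]
    rw [← AlgEquiv.mul_apply, inv_mul_cancel, AlgEquiv.one_apply]

theorem mem_NQ {y : QB} {σ : GQ} : σ ∈ NQ y ↔ σ y = y := Iff.rfl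

open scoped Classical in
theorem tt_tors (E : WeierstrassCurve ℚ) (r : ℕ) (v : TT E r) : (r : ℤ) • v = 0 := by
  apply Subtype.ext
  exact v.2

/-- the inverse of a scalar is a scalar -/
theorem inv_scalar (E : WeierstrassCurve ℚ) (r : ℕ) [Fact r.Prime] (a : Au (TT E r)) {n : ℤ}
    (hn : ∀ v : TT E r, a.1 v = n • v) : ∃ k : ℤ, ∀ v : TT E r, (a⁻¹ : Au (TT E r)).1 v = k • v := by
  have hinv : ∀ v, (a⁻¹ : Au (TT E r)).1 (a.1 v) = v := fun v => by
    rw [← alb_mul_apply, inv_mul_cancel, alb_one_apply]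
  by_cases h : (r : ℤ) ∣ n
  · refine ⟨0, fun v => ?_⟩
    obtain ⟨c, rfl⟩ := h
    have h0 : ∀ w : TT E r, w = 0 := by
      intro w
      apply alb_inj a
      rw [map_zero, hn, mul_comm, mul_smul, tt_tors, smul_zero]
    rw [h0 v, map_zero, smul_zero]
  · have hr : r.Prime := Fact.out
    have hcop : IsCoprime (r : ℤ) n :=
      (Nat.prime_iff_prime_int.1 hr).irreducible.coprime_iff_not_dvd.2 h
    obtain ⟨u, k, huk⟩ := hcop
    refine ⟨k, fun v => ?_⟩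
    have h1 : v = k • (n • v) := by
      have h2 : (u * (r : ℤ) + k * n) • v = v := by rw [huk, one_smul]
      rw [add_smul, mul_smul, tt_tors, smul_zero, zero_add, mul_smul] at h2
      exact h2.symm
    conv_lhs => rw [h1]
    rw [map_zsmul, ← hn, hinv]

/-- the elements which fix `y` and act as scalars on `E[r]` -/
def ZQ (E : WeierstrassCurve ℚ) (r : ℕ) [Fact r.Prime] (y : QB) : Subgroup GQ where
  carrier := {σ | σ y = y ∧ ∃ n : ℤ, ∀ v : TT E r, (rhoQ E r σ).1 v = n • v}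
  mul_mem' := by
    rintro σ τ ⟨h1, n, hn⟩ ⟨h2, k, hk⟩
    refine ⟨(NQ y).mul_mem h1 h2, n * k, fun v => ?_⟩
    rw [map_mul, alb_mul_apply, hk, map_zsmul, hn, smul_smul, mul_comm]
  one_mem' := by
    refine ⟨rfl, 1, fun v => ?_⟩
    rw [map_one, one_smul]
    rfl
  inv_mem' := by
    rintro σ ⟨h1, n, hn⟩
    refine ⟨(NQ y).inv_mem h1, ?_⟩
    obtain ⟨k, hk⟩ := inv_scalar E r (rhoQ E r σ) hn
    refine ⟨k, fun v => ?_⟩
    rw [map_inv]
    exact hk v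

theorem mem_ZQ {E : WeierstrassCurve ℚ} {r : ℕ} [Fact r.Prime] {y : QB} {σ : GQ} :
    σ ∈ ZQ E r y ↔ σ y = y ∧ ∃ n : ℤ, ∀ v : TT E r, (rhoQ E r σ).1 v = n • v := Iff.rfl

theorem ZQ_le (E : WeierstrassCurve ℚ) (r : ℕ) [Fact r.Prime] (y : QB) : ZQ E r y ≤ NQ y :=
  fun _ h => h.1

theorem pm {m : ℤ} {y : QB} (hy : y ^ 2 = (m : QB)) (σ : GQ) : σ y = y ∨ σ y = -y := by
  have h1 : (σ y) ^ 2 = y ^ 2 := by rw [← map_pow, hy, map_intCast]
  exact sq_eq_sq_iff_eq_or_eq_neg.1 h1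

theorem conj_fix {m : ℤ} {y : QB} (hy : y ^ 2 = (m : QB)) (g : GQ) {σ : GQ} (h : σ y = y) :
    (g * σ * g⁻¹) y = y := by
  rw [AlgEquiv.mul_apply, AlgEquiv.mul_apply]
  have h3 : g ((g⁻¹ : GQ) y) = y := by rw [← AlgEquiv.mul_apply, mul_inv_cancel, AlgEquiv.one_apply]
  rcases pm hy (g⁻¹ : GQ) with h1 | h1
  · rw [h1] at h3 ⊢
    rw [h, h3]
  · rw [h1] at h3 ⊢
    rw [map_neg, h, h3]

theorem NQ_normal {m : ℤ} {y : QB} (hy : y ^ 2 = (m : QB)) : (NQ y).Normal :=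
  ⟨fun _ h g => conj_fix hy g h⟩

theorem ZQ_normal (E : WeierstrassCurve ℚ) (r : ℕ) [Fact r.Prime] {m : ℤ} {y : QB}
    (hy : y ^ 2 = (m : QB)) : (ZQ E r y).Normal := by
  refine ⟨fun σ h g => ⟨conj_fix hy g h.1, ?_⟩⟩
  obtain ⟨n, hn⟩ := h.2
  refine ⟨n, fun v => ?_⟩
  rw [map_mul, map_mul, map_inv, alb_mul_apply, alb_mul_apply, hn, map_zsmul, ← alb_mul_apply,
    mul_inv_cancel, alb_one_apply]

end Pool.Agent.H85.CPX
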