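import Pool.Agent.H85.CPX.Wt

/-!
# [H85 CPX WN] Elementary bounds for the weights

Let `x' = ℓ^(-(1+a))`, `x = ℓ^(-(1+2a))`, `ℓ ≥ 2`, `a > 0`: `0 < x ≤ x' ≤ 1/2`.
* `wt_nonneg`: `1 - x' ≤ 1 - x`, both positive.
* `wt_le`: `wt = log ((1-x)/(1-x')) ≤ (1-x)/(1-x') - 1 = (x'-x)/(1-x') ≤ 2 (x' - x)`, `x' - x = x' (1 - ℓ^(-a)) ≤ x' a log ℓ ≤ (1/2) a log ℓ`
  (`1 - exp (-u) ≤ u`).
* `ram_small`: the primes of `F` are distinct divisors of `N`, so their product divides `N` (`Finset.prod_primes_dvd`), `∑ log ℓ = log ∏ ℓ ≤ log N`.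
* `shift`: `ℓ^(a/2) wt ≤ log (1 - ℓ^(a/2) x) - log (1 - ℓ^(a/2) x')`. Let `c = ℓ^(a/2) ≥ 1`, `c x' = ℓ^(-(1+a/2)) < 1`. The function
  `h(c) = log (1 - c x) - log (1 - c x')` satisfies `c h(1) ≤ h(c)` for `c ≥ 1`, `c x' < 1`: `h(c) - c h(1)` is `0` at `c = 1` and has the derivative
  `x'/(1 - c x') - x/(1 - c x) - h(1)`, and `h(1) ≤ x'/(1-x') - x/(1-x) ≤ x'/(1-cx') - x/(1-cx)`; or by the power series
  `-log (1 - u) = ∑ u^j / j` (`Real.hasSum_pow_div_log_of_abs_lt_one`): `c (x'^j - x^j) ≤ c^j (x'^j - x^j)` for `j ≥ 1`.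
-/

set_option autoImplicit false

namespace Pool.Agent.H85.CPX

private theorem pw_le {L : ℝ} (hL : 2 ≤ L) {b : ℝ} (hb : 0 ≤ b) : L ^ (-(1 + b)) ≤ 1 / 2 := by
  have h1 : L ^ (-(1 + b)) ≤ L ^ (-1 : ℝ) :=
    Real.rpow_le_rpow_of_exponent_le (by linarith) (by linarith)
  rw [Real.rpow_neg_one] at h1
  have h2 : L⁻¹ ≤ 2⁻¹ := inv_anti₀ (by norm_num) hL
  linarith

private theorem pw_mono {L : ℝ} (hL : 2 ≤ L) {b b' : ℝ} (hb : b ≤ b') :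
    L ^ (-(1 + b')) ≤ L ^ (-(1 + b)) :=
  Real.rpow_le_rpow_of_exponent_le (by linarith) (by linarith)

private theorem pw_nn {L : ℝ} (hL : 2 ≤ L) (b : ℝ) : 0 ≤ L ^ (-(1 + b)) :=
  Real.rpow_nonneg (by linarith) _

theorem wt_nonneg {a : ℝ} (ha : 0 < a) {ℓ : ℕ} (hℓ : 2 ≤ ℓ) : 0 ≤ wt a ℓ := by
  have hL : (2 : ℝ) ≤ ℓ := by exact_mod_cast hℓ
  have h1 := pw_le hL ha.le
  have h2 := pw_mono hL (by linarith : a ≤ 2 * a)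
  have h3 := Real.log_le_log (by linarith : 0 < 1 - (ℓ : ℝ) ^ (-(1 + a)))
    (by linarith : 1 - (ℓ : ℝ) ^ (-(1 + a)) ≤ 1 - (ℓ : ℝ) ^ (-(1 + 2 * a)))
  unfold wt
  linarith

theorem wt_le {a : ℝ} (ha : 0 < a) {ℓ : ℕ} (hℓ : 2 ≤ ℓ) : wt a ℓ ≤ a * Real.log ℓ := by
  have hL : (2 : ℝ) ≤ ℓ := by exact_mod_cast hℓ
  have h1 := pw_le hL ha.le
  have h2 := pw_mono hL (by linarith : a ≤ 2 * a)
  have h0 := pw_nn hL (2 * a)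
  have hlog : 0 ≤ a * Real.log (ℓ : ℝ) := mul_nonneg ha.le (Real.log_nonneg (by linarith))
  have h3 : (ℓ : ℝ) ^ (-(1 + 2 * a)) = (ℓ : ℝ) ^ (-(1 + a)) * Real.exp (-(a * Real.log ℓ)) := by
    have h4 : Real.exp (-(a * Real.log ℓ)) = (ℓ : ℝ) ^ (-a) := by
      rw [Real.rpow_def_of_pos (by linarith)]
      congr 1
      ring
    rw [h4, ← Real.rpow_add (by linarith)]
    congr 1
    ring
  have h5 : 1 - a * Real.log ℓ ≤ Real.exp (-(a * Real.log ℓ)) := by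
    have := Real.add_one_le_exp (-(a * Real.log ℓ))
    linarith
  unfold wt
  obtain ⟨x', hx'⟩ : ∃ x', x' = (ℓ : ℝ) ^ (-(1 + a)) := ⟨_, rfl⟩
  obtain ⟨x, hx⟩ : ∃ x, x = (ℓ : ℝ) ^ (-(1 + 2 * a)) := ⟨_, rfl⟩
  obtain ⟨v, hv⟩ : ∃ v, v = a * Real.log (ℓ : ℝ) := ⟨_, rfl⟩
  rw [← hx, ← hx', ← hv] at h3
  rw [← hx] at h0 h2
  rw [← hx'] at h1 h2
  rw [← hv] at h5 hlog
  rw [← hx, ← hx', ← hv]
  have h6 : 0 < 1 - x' := by linarith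
  have h7 : 0 < 1 - x := by linarith
  rw [← Real.log_div h7.ne' h6.ne']
  have h8 := Real.log_le_sub_one_of_pos (div_pos h7 h6)
  have h9 : (1 - x) / (1 - x') - 1 ≤ v := by
    rw [sub_le_iff_le_add, div_le_iff₀ h6]
    have h10 : x' * (1 - v) ≤ x := by
      rw [h3]
      exact mul_le_mul_of_nonneg_left h5 (by linarith)
    nlinarith
  linarith

theorem ram_small {a : ℝ} (ha : 0 < a) {N : ℕ} (hN : 0 < N) (F : Finset ℕ)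
    (hF : ∀ ℓ ∈ F, ℓ.Prime ∧ ℓ ∣ N) : ∑ ℓ ∈ F, wt a ℓ ≤ a * Real.log N := by
  have h1 : ∏ ℓ ∈ F, ℓ ∣ N := Finset.prod_primes_dvd N (fun ℓ hℓ => (hF ℓ hℓ).1.prime) fun ℓ hℓ => (hF ℓ hℓ).2
  have h2 : ∏ ℓ ∈ F, ℓ ≤ N := Nat.le_of_dvd hN h1
  have h3 : 0 < ∏ ℓ ∈ F, ℓ := Finset.prod_pos fun ℓ hℓ => (hF ℓ hℓ).1.pos
  have h4 : ∑ ℓ ∈ F, Real.log ℓ = Real.log ((∏ ℓ ∈ F, ℓ : ℕ) : ℝ) := by
    rw [Nat.cast_prod, Real.log_prod]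
    intro ℓ hℓ
    exact_mod_cast (hF ℓ hℓ).1.ne_zero
  calc ∑ ℓ ∈ F, wt a ℓ ≤ ∑ ℓ ∈ F, a * Real.log ℓ :=
        Finset.sum_le_sum fun ℓ hℓ => wt_le ha (hF ℓ hℓ).1.two_le
    _ = a * ∑ ℓ ∈ F, Real.log ℓ := by rw [Finset.mul_sum]
    _ ≤ a * Real.log N := by
        rw [h4]
        exact mul_le_mul_of_nonneg_left (Real.log_le_log (by exact_mod_cast h3) (by exact_mod_cast h2)) ha.le

theorem shift {a : ℝ} (ha : 0 < a) {ℓ : ℕ} (hℓ : 2 ≤ ℓ) :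
    (ℓ : ℝ) ^ (a / 2) * wt a ℓ ≤
      Real.log (1 - (ℓ : ℝ) ^ (-(1 + 3 * a / 2))) - Real.log (1 - (ℓ : ℝ) ^ (-(1 + a / 2))) := by
  have hL : (2 : ℝ) ≤ ℓ := by exact_mod_cast hℓ
  have hL0 : (0 : ℝ) < ℓ := by linarith
  have h1 := pw_le hL ha.le
  have h2 := pw_mono hL (by linarith : a ≤ 2 * a)
  have h0 := pw_nn hL (2 * a)
  have h4 := pw_le hL (by linarith : 0 ≤ a / 2)
  have e1 : (ℓ : ℝ) ^ (-(1 + 3 * a / 2)) = (ℓ : ℝ) ^ (a / 2) * (ℓ : ℝ) ^ (-(1 + 2 * a)) := by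
    rw [← Real.rpow_add hL0]
    congr 1
    ring
  have e2 : (ℓ : ℝ) ^ (-(1 + a / 2)) = (ℓ : ℝ) ^ (a / 2) * (ℓ : ℝ) ^ (-(1 + a)) := by
    rw [← Real.rpow_add hL0]
    congr 1
    ring
  have hc : 1 ≤ (ℓ : ℝ) ^ (a / 2) := Real.one_le_rpow (by linarith) (by linarith)
  rw [e2] at h4
  rw [e1, e2]
  unfold wt
  obtain ⟨x', hx'⟩ : ∃ x', x' = (ℓ : ℝ) ^ (-(1 + a)) := ⟨_, rfl⟩
  obtain ⟨x, hx⟩ : ∃ x, x = (ℓ : ℝ) ^ (-(1 + 2 * a)) := ⟨_, rfl⟩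
  obtain ⟨c, hc'⟩ : ∃ c, c = (ℓ : ℝ) ^ (a / 2) := ⟨_, rfl⟩
  rw [← hx] at h0 h2
  rw [← hx'] at h1 h2 h4
  rw [← hc'] at h4 hc
  rw [← hx, ← hx', ← hc']
  have hx0 : 0 ≤ x' := h0.trans h2
  have hcx : c * x ≤ c * x' := mul_le_mul_of_nonneg_left h2 (by linarith)
  have hcx0 : 0 ≤ c * x := mul_nonneg (by linarith) h0
  have s1 := Real.hasSum_pow_div_log_of_abs_lt_one (by rw [abs_of_nonneg h0]; linarith : |x| < 1)
  have s2 := Real.hasSum_pow_div_log_of_abs_lt_one (by rw [abs_of_nonneg hx0]; linarith : |x'| < 1)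
  have s3 := Real.hasSum_pow_div_log_of_abs_lt_one (by rw [abs_of_nonneg hcx0]; linarith : |c * x| < 1)
  have s4 := Real.hasSum_pow_div_log_of_abs_lt_one
    (by rw [abs_of_nonneg (hcx0.trans hcx)]; linarith : |c * x'| < 1)
  have t1 := (s2.sub s1).mul_left c
  have t2 := s4.sub s3
  have h5 := hasSum_le (fun n => ?_) t1 t2
  · have e3 : c * (-Real.log (1 - x') - -Real.log (1 - x)) = c * (Real.log (1 - x) - Real.log (1 - x')) := by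
      ring
    rw [e3] at h5
    linarith
  · have hn : (0 : ℝ) < (n : ℝ) + 1 := by positivity
    have h6 : x ^ (n + 1) ≤ x' ^ (n + 1) := pow_le_pow_left₀ h0 h2 _
    have h7 : c ≤ c ^ (n + 1) := by
      calc c = c ^ 1 := (pow_one c).symm
        _ ≤ c ^ (n + 1) := pow_le_pow_right₀ hc (by omega)
    rw [← sub_div, ← sub_div, mul_pow, mul_pow, ← mul_sub, ← mul_div_assoc]
    refine div_le_div_of_nonneg_right ?_ hn.le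
    exact mul_le_mul_of_nonneg_right h7 (by linarith)

end Pool.Agent.H85.CPX
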