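import Pool.Agent.H85.CP.EfS
import Pool.Agent.H85.CP.Eul
import Pool.Agent.H85.CPX.Wn

/-!
# [H85 CPX EUP] The degree one primes and the quotient `ζ_k(1+a) / ζ_k(1+2a)`

Proof. For real `u > 1` the factor `EF k ℓ u = ∏_{v ∈ Pr k ℓ} (1 - N v^(-u))⁻¹` is the (complex number of the) real number `e ℓ u = ∏ (1 - (N v)^(-u))⁻¹ ≥ 1`
(`N v = ℓ^f ≥ 2`), and `e ℓ (1+a) / e ℓ (1+2a) = ∏_v (1 - N v^(-(1+2a)))/(1 - N v^(-(1+a)))`: every factor is `≥ 1`, and the factors with `N v = ℓ` (there are `aa k ℓ`) are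
`exp (wt a ℓ)`. So `e ℓ (1+a) ≥ exp (aa k ℓ * wt a ℓ) e ℓ (1+2a)` and `e ℓ (1+a) ≥ e ℓ (1+2a)`. For `Y' ≥ Y`:
`∏_{ℓ<Y'} e ℓ (1+a) ≥ exp (∑_{ℓ<Y} aa k ℓ * wt a ℓ) ∏_{ℓ<Y'} e ℓ (1+2a)`; let `Y' → ∞` (`euler`, norms).
-/

set_option autoImplicit false

namespace Pool.Agent.H85.CPX

open NumberField Pool.Agent.H85.CP Filter Topology

/-- the real Euler factor -/
private noncomputable def re' (k : Type) [Field k] [NumberField k] (ℓ : ℕ) (u : ℝ) : ℝ :=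
  ∏ v ∈ Pr k ℓ, (1 - (Ideal.absNorm v : ℝ) ^ (-u))⁻¹

private lemma two_le_norm {k : Type} [Field k] [NumberField k] {ℓ : ℕ} (hℓ : ℓ.Prime)
    {v : Ideal (𝓞 k)} (hv : v ∈ Pr k ℓ) : 2 ≤ Ideal.absNorm v := by
  obtain ⟨f, hf, h1⟩ := norm_Pr hℓ hv
  rw [h1]
  calc 2 ≤ ℓ := hℓ.two_le
    _ = ℓ ^ 1 := (pow_one ℓ).symm
    _ ≤ ℓ ^ f := Nat.pow_le_pow_right hℓ.pos hf

private lemma rp_lt {N : ℕ} (hN : 2 ≤ N) {u : ℝ} (hu : 0 < u) : (N : ℝ) ^ (-u) < 1 := by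
  have h1 : (1 : ℝ) < N := by exact_mod_cast (show 1 < N by omega)
  exact Real.rpow_lt_one_of_one_lt_of_neg h1 (by linarith)

private lemma norm_EF {k : Type} [Field k] [NumberField k] {ℓ : ℕ} (hℓ : ℓ.Prime) {u : ℝ}
    (hu : 0 < u) : ‖EF k ℓ (u : ℂ)‖ = re' k ℓ u := by
  unfold EF re'
  rw [norm_prod]
  refine Finset.prod_congr rfl fun v hv => ?_
  have h1 : (Ideal.absNorm v : ℂ) ^ (-(u : ℂ)) = (((Ideal.absNorm v : ℝ) ^ (-u) : ℝ) : ℂ) := by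
    rw [Complex.ofReal_cpow (Nat.cast_nonneg _)]
    push_cast
    rfl
  have h2 := rp_lt (two_le_norm hℓ hv) hu
  have h3 : (1 - (((Ideal.absNorm v : ℝ) ^ (-u) : ℝ) : ℂ))⁻¹ =
      (((1 - (Ideal.absNorm v : ℝ) ^ (-u))⁻¹ : ℝ) : ℂ) := by
    push_cast
    rfl
  rw [h1, h3, Complex.norm_real, Real.norm_eq_abs, abs_of_nonneg]
  exact inv_nonneg.2 (by linarith)

private lemma fac_le {N : ℕ} (hN : 2 ≤ N) {a : ℝ} (ha : 0 < a) :
    (1 - (N : ℝ) ^ (-(1 + 2 * a)))⁻¹ ≤ (1 - (N : ℝ) ^ (-(1 + a)))⁻¹ := by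
  have h1 : (1 : ℝ) ≤ N := by exact_mod_cast (show 1 ≤ N by omega)
  have h2 : (N : ℝ) ^ (-(1 + 2 * a)) ≤ (N : ℝ) ^ (-(1 + a)) :=
    Real.rpow_le_rpow_of_exponent_le h1 (by linarith)
  have h3 := rp_lt hN (u := 1 + a) (by linarith)
  exact inv_anti₀ (by linarith) (by linarith)

private lemma fac_eq {N : ℕ} (hN : 2 ≤ N) {a : ℝ} (ha : 0 < a) :
    Real.exp (wt a N) * (1 - (N : ℝ) ^ (-(1 + 2 * a)))⁻¹ = (1 - (N : ℝ) ^ (-(1 + a)))⁻¹ := by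
  have h3 := rp_lt hN (u := 1 + a) (by linarith)
  have h4 := rp_lt hN (u := 1 + 2 * a) (by linarith)
  have h5 : 0 < 1 - (N : ℝ) ^ (-(1 + a)) := by linarith
  have h6 : 0 < 1 - (N : ℝ) ^ (-(1 + 2 * a)) := by linarith
  unfold wt
  rw [Real.exp_sub, Real.exp_log h5, Real.exp_log h6]
  field_simp

private lemma re_step {k : Type} [Field k] [NumberField k] {ℓ : ℕ} (hℓ : ℓ.Prime) {a : ℝ}
    (ha : 0 < a) : Real.exp ((aa k ℓ : ℝ) * wt a ℓ) * re' k ℓ (1 + 2 * a) ≤ re' k ℓ (1 + a) := by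
  classical
  have h1 : Real.exp ((aa k ℓ : ℝ) * wt a ℓ) =
      ∏ v ∈ Pr k ℓ, if Ideal.absNorm v = ℓ then Real.exp (wt a ℓ) else 1 := by
    rw [Finset.prod_ite, Finset.prod_const, Finset.prod_const_one, mul_one, ← Real.exp_nat_mul]
    rfl
  unfold re'
  rw [h1, ← Finset.prod_mul_distrib]
  refine Finset.prod_le_prod (fun v hv => ?_) fun v hv => ?_
  · have h2 := rp_lt (two_le_norm hℓ hv) (u := 1 + 2 * a) (by linarith)
    refine mul_nonneg ?_ (inv_nonneg.2 (by linarith))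
    split_ifs
    · exact (Real.exp_pos _).le
    · exact zero_le_one
  · have h2 := two_le_norm hℓ hv
    by_cases h3 : Ideal.absNorm v = ℓ
    · rw [if_pos h3, h3]
      exact (fac_eq hℓ.two_le ha).le
    · rw [if_neg h3, one_mul]
      exact fac_le h2 ha

private lemma re_nonneg {k : Type} [Field k] [NumberField k] {ℓ : ℕ} (hℓ : ℓ.Prime) {u : ℝ}
    (hu : 0 < u) : 0 ≤ re' k ℓ u :=
  Finset.prod_nonneg fun v hv => inv_nonneg.2 (by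
    have := rp_lt (two_le_norm hℓ hv) hu
    linarith)

theorem eup (k : Type) [Field k] [NumberField k] {a : ℝ} (ha : 0 < a) (Y : ℕ) :
    Real.exp (∑ ℓ ∈ (Finset.range Y).filter Nat.Prime, (aa k ℓ : ℝ) * wt a ℓ) *
      ‖zk k ((1 + 2 * a : ℝ) : ℂ)‖ ≤ ‖zk k ((1 + a : ℝ) : ℂ)‖ := by
  have h1 := (euler k ((1 + 2 * a : ℝ) : ℂ) (by rw [Complex.ofReal_re]; linarith)).norm
  have h2 := (euler k ((1 + a : ℝ) : ℂ) (by rw [Complex.ofReal_re]; linarith)).norm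
  refine le_of_tendsto_of_tendsto (h1.const_mul _) h2 ?_
  refine Filter.eventually_atTop.2 ⟨Y, fun Y' hY => ?_⟩
  simp only
  rw [norm_prod, norm_prod]
  have h3 : ∀ ℓ ∈ (Finset.range Y').filter Nat.Prime, ‖EF k ℓ ((1 + 2 * a : ℝ) : ℂ)‖ =
      re' k ℓ (1 + 2 * a) := fun ℓ hℓ => norm_EF (Finset.mem_filter.1 hℓ).2 (by linarith)
  have h4 : ∀ ℓ ∈ (Finset.range Y').filter Nat.Prime, ‖EF k ℓ ((1 + a : ℝ) : ℂ)‖ =
      re' k ℓ (1 + a) := fun ℓ hℓ => norm_EF (Finset.mem_filter.1 hℓ).2 (by linarith)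
  rw [Finset.prod_congr rfl h3, Finset.prod_congr rfl h4]
  have h5 : ∑ ℓ ∈ (Finset.range Y).filter Nat.Prime, (aa k ℓ : ℝ) * wt a ℓ ≤
      ∑ ℓ ∈ (Finset.range Y').filter Nat.Prime, (aa k ℓ : ℝ) * wt a ℓ := by
    refine Finset.sum_le_sum_of_subset_of_nonneg ?_ fun ℓ hℓ _ => ?_
    · exact Finset.filter_subset_filter _ (Finset.range_mono hY)
    · exact mul_nonneg (Nat.cast_nonneg _) (wt_nonneg ha (Finset.mem_filter.1 hℓ).2.two_le)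
  calc Real.exp (∑ ℓ ∈ (Finset.range Y).filter Nat.Prime, (aa k ℓ : ℝ) * wt a ℓ) *
        ∏ ℓ ∈ (Finset.range Y').filter Nat.Prime, re' k ℓ (1 + 2 * a)
      ≤ Real.exp (∑ ℓ ∈ (Finset.range Y').filter Nat.Prime, (aa k ℓ : ℝ) * wt a ℓ) *
        ∏ ℓ ∈ (Finset.range Y').filter Nat.Prime, re' k ℓ (1 + 2 * a) := by
        refine mul_le_mul_of_nonneg_right (Real.exp_le_exp.2 h5) (Finset.prod_nonneg fun ℓ hℓ => ?_)
        exact re_nonneg (Finset.mem_filter.1 hℓ).2 (by linarith)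
    _ = ∏ ℓ ∈ (Finset.range Y').filter Nat.Prime,
          (Real.exp ((aa k ℓ : ℝ) * wt a ℓ) * re' k ℓ (1 + 2 * a)) := by
        rw [Finset.prod_mul_distrib, Real.exp_sum]
    _ ≤ ∏ ℓ ∈ (Finset.range Y').filter Nat.Prime, re' k ℓ (1 + a) := by
        refine Finset.prod_le_prod (fun ℓ hℓ => ?_) fun ℓ hℓ => ?_
        · exact mul_nonneg (Real.exp_pos _).le
            (re_nonneg (Finset.mem_filter.1 hℓ).2 (by linarith))
        · exact re_step (Finset.mem_filter.1 hℓ).2 ha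

end Pool.Agent.H85.CPX
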