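import Pool.Agent.H85.CPX.Dfx

/-!
# [H85 CPX EXI] An element moving `y` whose square is not a scalar

Suppose that all `σ` with `σ y ≠ y` are `SqSc`. `I` = image of `rhoQ` (a finite subgroup of `Au (TT E r)`; `finite_TT`), `J` = image of `NQ y`. For every `σ`: `σ ∈ NQ y` or `τ⁻¹ σ ∈ NQ y` (`pm`; `τ y = -y`), so
`I = J ∪ (rhoQ τ) J` and `card I ≤ 2 card J`. The set `(rhoQ τ) J` has `card J` elements and consists of elements of `I` with a scalar square (`σ = τ ν`, `ν y = y`, moves `y`). So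
`2 card {a ∈ I : a a scalar} ≥ 2 card J ≥ card I`, contradicting `FewSq`.
-/

set_option autoImplicit false

namespace Pool.Agent.H85.CPX

open Pool.Agent.H27.SU Pool.Agent.H85.CP

theorem exi (E : WeierstrassCurve ℚ) [E.IsElliptic] (r : ℕ) [Fact r.Prime] (hF : FewSq E r)
    {m : ℤ} {y : QB} (hy : y ^ 2 = (m : QB)) (h0 : ∃ τ : GQ, τ y ≠ y) :
    ∃ σ : GQ, σ y ≠ y ∧ ¬ SqSc E r σ := by
  have hne : NeZero r := ⟨(Fact.out : r.Prime).ne_zero⟩
  have hfin : Finite (TT E r) := Pool.Agent.H80.CP.finite_TT E r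
  have hfinA : Finite (Au (TT E r)) := by
    refine Finite.of_injective (fun (a : Au (TT E r)) (v : TT E r) => a.1 v) ?_
    intro a b hab
    apply Units.ext
    apply AddMonoidHom.ext
    intro v
    exact congrFun hab v
  by_contra hcon
  push Not at hcon
  obtain ⟨τ, hτ⟩ := h0
  have hτy : τ y = -y := (pm hy τ).resolve_left hτ
  have hτi : (τ⁻¹ : GQ) (-y) = y := by
    rw [← hτy, ← AlgEquiv.mul_apply, inv_mul_cancel, AlgEquiv.one_apply]
  set t : Au (TT E r) := rhoQ E r τ with ht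
  let I : Set (Au (TT E r)) := {a | ∃ σ : GQ, rhoQ E r σ = a}
  let J : Set (Au (TT E r)) := {a | ∃ σ : GQ, σ y = y ∧ rhoQ E r σ = a}
  let S : Set (Au (TT E r)) := {a | (∃ σ : GQ, rhoQ E r σ = a) ∧
      ∃ n : ℤ, ∀ v : TT E r, a.1 (a.1 v) = n • v}
  have h1 : I ⊆ J ∪ (fun a => t * a) '' J := by
    rintro a ⟨σ, rfl⟩
    rcases pm hy σ with h | h
    · exact Or.inl ⟨σ, h, rfl⟩
    · right
      refine ⟨rhoQ E r (τ⁻¹ * σ), ⟨τ⁻¹ * σ, ?_, rfl⟩, ?_⟩
      · rw [AlgEquiv.mul_apply, h]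
        exact hτi
      · show t * rhoQ E r (τ⁻¹ * σ) = rhoQ E r σ
        rw [ht, ← map_mul, mul_inv_cancel_left]
  have h2 : (fun a => t * a) '' J ⊆ S := by
    rintro _ ⟨_, ⟨ν, hν, rfl⟩, rfl⟩
    have h3 : (τ * ν) y ≠ y := by
      rw [AlgEquiv.mul_apply, hν]
      exact hτ
    have h4 : t * rhoQ E r ν = rhoQ E r (τ * ν) := by rw [map_mul]
    refine ⟨⟨τ * ν, h4.symm⟩, ?_⟩
    have h5 := hcon (τ * ν) h3
    show ∃ n : ℤ, ∀ v : TT E r, (t * rhoQ E r ν).1 ((t * rhoQ E r ν).1 v) = n • v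
    rw [h4]
    exact h5
  have h3 : ((fun a => t * a) '' J).ncard = J.ncard :=
    Set.ncard_image_of_injective J (mul_right_injective t)
  have h4 : I.ncard ≤ J.ncard + J.ncard := by
    calc I.ncard ≤ (J ∪ (fun a => t * a) '' J).ncard := Set.ncard_le_ncard h1 (Set.toFinite _)
      _ ≤ J.ncard + ((fun a => t * a) '' J).ncard := Set.ncard_union_le _ _
      _ = J.ncard + J.ncard := by rw [h3]
  have h5 : J.ncard ≤ S.ncard := by
    rw [← h3]
    exact Set.ncard_le_ncard h2 (Set.toFinite _)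
  have h6 : 2 * S.ncard < I.ncard := hF
  omega

end Pool.Agent.H85.CPX
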