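import Pool.Agent.H85.CPX.Dfx

/-!
# [H85 CPX FB] Counting in the group of `MX E r y`

`π : GQ → Gal(M/ℚ)`, `M = MX E r y`, the restriction (`AlgEquiv.restrictNormalHom`, surjective: `AlgEquiv.restrictNormalHom_surjective`; `((π σ) x : QB) = σ x`:
`AlgEquiv.restrictNormal_commutes`; instances `Normal ℚ QB` as in `H85/CP/Fin.lean`). `f σ = (rhoQ E r σ, π σ)`, `Γ = f.range ≤ Au (TT E r) × Gal(M/ℚ)`, finite (`TT E r` is finite: `finite_TT`). `I` = range of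
`rhoQ`, `G = Gal(M/ℚ)`. `p₁ : Γ → I`, `p₂ : Γ → G` surjective homomorphisms; for a surjective homomorphism `p : Γ → H` of finite groups and `S ⊆ H`: `card (p⁻¹ S) = card (ker p) card S`.
* `X = {γ ∈ Γ : γ.1 γ.1 scalar} = p₁⁻¹ (I₀)`, `I₀ = {a ∈ I : a a scalar}`: `card X = κ₁ card I₀`, `card Γ = κ₁ card I`; `FewSq`: `2 card X < card Γ`.
* `X⁻ = {γ ∈ X : γ.2 ∉ N}`, `X⁺ = {γ ∈ X : γ.2 ∈ N}`, `N = (NQ y).map π`. For `γ = f σ`: `γ.2 ∈ N` iff `σ y = y` (if `π σ = π τ`, `τ y = y`, then `σ y = τ y` as `y ∈ M`). Multiplication by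
  `γ₀ = f σ₀` (`σ₀` from `h0`: scalar and `σ₀ y ≠ y`, so `σ₀ y = - y`) is a bijection `X⁺ → X⁻` (`(a a₀)(a a₀) = a a a₀ a₀` as `a₀` is a scalar; signs). So `card X = 2 card X⁻`.
* `X⁻ = p₂⁻¹ (B)`: for `γ = f σ`: `γ.2 ∉ N` iff `σ y ≠ y`, and then (`σ σ y = y`, `pm`) `π σ * π σ ∈ Z = (ZQ E r y).map π` iff `rhoQ (σ σ)` is a scalar: `⇐` clear; `⇒`: `π (σ σ) = π τ` with
  `τ ∈ ZQ`, so `τ⁻¹ σ σ` fixes `LX E r ≤ M`, acts as `1` or `-1` (`fix_LX`), and `rhoQ (σ σ) = ± rhoQ τ` is a scalar.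
So `4 card B κ₂ = 4 card X⁻ = 2 card X < card Γ = κ₂ card G`.
(Instead of `Γ` with two projections one may also count fibres directly.)
-/

set_option autoImplicit false

namespace Pool.Agent.H85.CPX

open NumberField Pool.Agent.H27.SU Pool.Agent.H85.CP

private theorem card_pre {Γ H : Type} [Group Γ] [Group H] (p : Γ →* H) (S : Set H) :
    Nat.card {γ : Γ // p γ ∈ S} =
      Nat.card p.ker * Nat.card {h : H // h ∈ S ∧ ∃ γ, p γ = h} := by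
  classical
  have hch : ∀ h : {h : H // h ∈ S ∧ ∃ γ, p γ = h}, ∃ γ, p γ = h.1 := fun h => h.2.2
  choose s hs using hch
  rw [← Nat.card_prod]
  refine Nat.card_congr ⟨fun γ => (⟨γ.1 * (s ⟨p γ.1, γ.2, γ.1, rfl⟩)⁻¹, ?_⟩,
    ⟨p γ.1, γ.2, γ.1, rfl⟩), fun q => ⟨q.1.1 * s q.2, ?_⟩, ?_, ?_⟩
  · rw [MonoidHom.mem_ker, map_mul, map_inv, hs, mul_inv_cancel]
  · have h1 := q.1.2
    rw [MonoidHom.mem_ker] at h1
    rw [map_mul, h1, one_mul, hs]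
    exact q.2.2.1
  · intro γ
    apply Subtype.ext
    exact inv_mul_cancel_right _ _
  · rintro ⟨⟨k, hk⟩, ⟨h, hS, hh⟩⟩
    rw [MonoidHom.mem_ker] at hk
    have h1 : p (k * s ⟨h, hS, hh⟩) = h := by rw [map_mul, hk, one_mul, hs]
    apply Prod.ext
    · apply Subtype.ext
      show k * s ⟨h, hS, hh⟩ * (s ⟨p (k * s ⟨h, hS, hh⟩), _⟩)⁻¹ = k
      have h2 : (⟨p (k * s ⟨h, hS, hh⟩), by rw [h1]; exact ⟨hS, hh⟩⟩ :
          {h : H // h ∈ S ∧ ∃ γ, p γ = h}) = ⟨h, hS, hh⟩ := Subtype.ext h1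
      rw [h2, mul_inv_cancel_right]
    · exact Subtype.ext h1

private theorem abs_count {Ω A G : Type} [Group Ω] [Group A] [Group G] [Finite A] [Finite G]
    (ρ : Ω →* A) (π : Ω →* G) (hsur : Function.Surjective π) (Q : A → Prop) (N : Set G)
    (B : Finset G) (σ₀ : Ω)
    (hfew : 2 * Nat.card {a : A // (∃ σ, ρ σ = a) ∧ Q a} < Nat.card {a : A // ∃ σ, ρ σ = a})
    (h0 : ∀ σ, Q (ρ σ) → π σ ∉ N → Q (ρ (σ * σ₀)) ∧ π (σ * σ₀) ∈ N)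
    (hB : ∀ σ, π σ ∈ B → Q (ρ σ) ∧ π σ ∉ N) :
    4 * B.card < Nat.card G := by
  classical
  obtain ⟨Γ, hΓ⟩ : ∃ Γ : Subgroup (A × G), Γ = (ρ.prod π).range := ⟨_, rfl⟩
  have hmem : ∀ γ : A × G, γ ∈ Γ ↔ ∃ σ, γ = (ρ σ, π σ) := by
    intro γ
    rw [hΓ, MonoidHom.mem_range]
    exact ⟨fun ⟨σ, h⟩ => ⟨σ, h.symm⟩, fun ⟨σ, h⟩ => ⟨σ, h.symm⟩⟩
  let p₁ : Γ →* A := (MonoidHom.fst A G).comp Γ.subtype
  let p₂ : Γ →* G := (MonoidHom.snd A G).comp Γ.subtype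
  have hp₁ : ∀ γ : Γ, p₁ γ = γ.1.1 := fun _ => rfl
  have hp₂ : ∀ γ : Γ, p₂ γ = γ.1.2 := fun _ => rfl
  have hr₁ : ∀ a : A, (∃ γ, p₁ γ = a) ↔ ∃ σ, ρ σ = a := by
    intro a
    constructor
    · rintro ⟨γ, rfl⟩
      obtain ⟨σ, hσ⟩ := (hmem γ.1).1 γ.2
      exact ⟨σ, by rw [hp₁, hσ]⟩
    · rintro ⟨σ, rfl⟩
      exact ⟨⟨(ρ σ, π σ), (hmem _).2 ⟨σ, rfl⟩⟩, rfl⟩
  have hr₂ : ∀ g : G, ∃ γ, p₂ γ = g := by
    intro g
    obtain ⟨σ, rfl⟩ := hsur g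
    exact ⟨⟨(ρ σ, π σ), (hmem _).2 ⟨σ, rfl⟩⟩, rfl⟩
  -- the four cards
  have c1 := card_pre p₁ {a | Q a}
  have c2 := card_pre p₁ Set.univ
  have c3 := card_pre p₂ (↑B : Set G)
  have c4 := card_pre p₂ Set.univ
  have e1 : Nat.card {h : A // h ∈ {a | Q a} ∧ ∃ γ, p₁ γ = h} =
      Nat.card {a : A // (∃ σ, ρ σ = a) ∧ Q a} :=
    Nat.card_congr (Equiv.subtypeEquivRight fun a => by
      rw [hr₁]
      exact and_comm)
  have e2 : Nat.card {h : A // h ∈ (Set.univ : Set A) ∧ ∃ γ, p₁ γ = h} =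
      Nat.card {a : A // ∃ σ, ρ σ = a} :=
    Nat.card_congr (Equiv.subtypeEquivRight fun a => by
      rw [hr₁]
      exact ⟨fun h => h.2, fun h => ⟨trivial, h⟩⟩)
  have e3 : Nat.card {h : G // h ∈ (↑B : Set G) ∧ ∃ γ, p₂ γ = h} = B.card := by
    have : Nat.card {h : G // h ∈ (↑B : Set G) ∧ ∃ γ, p₂ γ = h} = Nat.card {h : G // h ∈ B} :=
      Nat.card_congr (Equiv.subtypeEquivRight fun a =>
        ⟨fun h => h.1, fun h => ⟨h, hr₂ a⟩⟩)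
    rw [this]
    rw [Nat.card_eq_fintype_card]
    exact Fintype.card_coe B
  have e4 : Nat.card {h : G // h ∈ (Set.univ : Set G) ∧ ∃ γ, p₂ γ = h} = Nat.card G := by
    refine Nat.card_congr (Equiv.subtypeUnivEquiv fun a => ⟨trivial, hr₂ a⟩)
  have e5 : Nat.card {γ : Γ // p₁ γ ∈ (Set.univ : Set A)} = Nat.card Γ :=
    Nat.card_congr (Equiv.subtypeUnivEquiv fun a => trivial)
  have e6 : Nat.card {γ : Γ // p₂ γ ∈ (Set.univ : Set G)} = Nat.card Γ :=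
    Nat.card_congr (Equiv.subtypeUnivEquiv fun a => trivial)
  rw [e1] at c1
  rw [e2, e5] at c2
  rw [e3] at c3
  rw [e4, e6] at c4
  have hk1 : 0 < Nat.card p₁.ker := Nat.card_pos
  have hk2 : 0 < Nat.card p₂.ker := Nat.card_pos
  -- twice the negative part
  have d1 : Nat.card {γ : Γ // Q (p₁ γ) ∧ p₂ γ ∉ N} ≤ Nat.card {γ : Γ // Q (p₁ γ) ∧ p₂ γ ∈ N} := by
    obtain ⟨γ₀, hγ₀⟩ : ∃ γ₀ : Γ, γ₀ = ⟨(ρ σ₀, π σ₀), (hmem _).2 ⟨σ₀, rfl⟩⟩ := ⟨_, rfl⟩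
    have key : ∀ γ : Γ, Q (p₁ γ) ∧ p₂ γ ∉ N → Q (p₁ (γ * γ₀)) ∧ p₂ (γ * γ₀) ∈ N := by
      rintro ⟨γ, hγ⟩ ⟨h1, h2⟩
      obtain ⟨σ, rfl⟩ := (hmem γ).1 hγ
      have h3 := h0 σ h1 h2
      rw [map_mul, map_mul] at h3
      rw [hγ₀]
      exact h3
    refine Nat.card_le_card_of_injective (fun γ => ⟨γ.1 * γ₀, key γ.1 γ.2⟩) ?_
    intro γ γ' h
    exact Subtype.ext (mul_right_cancel (congrArg Subtype.val h))
  have d2 : Nat.card {γ : Γ // p₁ γ ∈ {a | Q a}} =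
      Nat.card {γ : Γ // Q (p₁ γ) ∧ p₂ γ ∉ N} + Nat.card {γ : Γ // Q (p₁ γ) ∧ p₂ γ ∈ N} := by
    have h1 : {γ : Γ | Q (p₁ γ)} = {γ : Γ | Q (p₁ γ) ∧ p₂ γ ∉ N} ∪ {γ : Γ | Q (p₁ γ) ∧ p₂ γ ∈ N} := by
      ext γ
      by_cases h : p₂ γ ∈ N <;> simp [h]
    have h2 : Disjoint {γ : Γ | Q (p₁ γ) ∧ p₂ γ ∉ N} {γ : Γ | Q (p₁ γ) ∧ p₂ γ ∈ N} := by
      rw [Set.disjoint_left]
      rintro γ ⟨_, h⟩ ⟨_, h'⟩
      exact h h'
    have h3 := Set.ncard_union_eq h2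
    rw [← h1] at h3
    exact h3
  have d3 : Nat.card {γ : Γ // p₂ γ ∈ (↑B : Set G)} ≤
      Nat.card {γ : Γ // Q (p₁ γ) ∧ p₂ γ ∉ N} := by
    have key : ∀ γ : Γ, p₂ γ ∈ (↑B : Set G) → Q (p₁ γ) ∧ p₂ γ ∉ N := by
      rintro ⟨γ, hγ⟩ h1
      obtain ⟨σ, rfl⟩ := (hmem γ).1 hγ
      exact hB σ h1
    refine Nat.card_le_card_of_injective (fun γ => ⟨γ.1, key γ.1 γ.2⟩) ?_
    intro γ γ' h
    have := congrArg Subtype.val h
    exact Subtype.ext this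
  rw [c3] at d3
  have f1 : 2 * Nat.card {γ : Γ // p₁ γ ∈ {a | Q a}} < Nat.card Γ := by
    rw [c1, c2]
    calc 2 * (Nat.card p₁.ker * Nat.card {a : A // (∃ σ, ρ σ = a) ∧ Q a}) =
        Nat.card p₁.ker * (2 * Nat.card {a : A // (∃ σ, ρ σ = a) ∧ Q a}) := by ring
      _ < _ := Nat.mul_lt_mul_of_pos_left hfew hk1
  rw [c4] at f1
  have f2 : Nat.card p₂.ker * (4 * B.card) < Nat.card p₂.ker * Nat.card G := by
    calc Nat.card p₂.ker * (4 * B.card) = 4 * (Nat.card p₂.ker * B.card) := by ring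
      _ < _ := by omega
  exact Nat.lt_of_mul_lt_mul_left f2

theorem four_B (E : WeierstrassCurve ℚ) [E.IsElliptic] (r : ℕ) [Fact r.Prime] (hF : FewSq E r)
    {m : ℤ} {y : QB} (hy : y ^ 2 = (m : QB))
    (h0 : ∃ σ : GQ, σ y ≠ y ∧ ∃ n : ℤ, ∀ v : TT E r, (rhoQ E r σ).1 v = n • v)
    [NumberField (MX E r y)] [IsGalois ℚ (MX E r y)] (π : GQ →* Gal((MX E r y)/ℚ))
    (hπ : ∀ (σ : GQ) (x : MX E r y), ((π σ x : MX E r y) : QB) = σ (x : QB))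
    (hsur : Function.Surjective π) (B : Finset Gal((MX E r y)/ℚ))
    (hB : ∀ s, s ∈ B ↔ s ∉ (NQ y).map π ∧ s * s ∈ (ZQ E r y).map π) :
    4 * B.card < Nat.card Gal((MX E r y)/ℚ) := by
  have hne : NeZero r := ⟨(Fact.out : r.Prime).ne_zero⟩
  have hfin : Finite (TT E r) := Pool.Agent.H80.CP.finite_TT E r
  have hEnd : Finite (AddMonoid.End (TT E r)) :=
    Finite.of_injective (fun a : AddMonoid.End (TT E r) => (a : TT E r → TT E r))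
      DFunLike.coe_injective
  have hAu : Finite (Au (TT E r)) := inferInstance
  have hG : Finite Gal((MX E r y)/ℚ) := inferInstance
  have hyM : y ∈ MX E r y := by
    unfold MX
    exact (le_sup_right : _ ≤ LX E r ⊔ IntermediateField.adjoin ℚ {y})
      (IntermediateField.mem_adjoin_simple_self ℚ y)
  have hLM : LX E r ≤ MX E r y := le_sup_left
  -- equality of restrictions
  have hπeq : ∀ σ τ : GQ, π σ = π τ → ∀ x ∈ MX E r y, σ x = τ x := by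
    intro σ τ h x hx
    have h1 := hπ σ ⟨x, hx⟩
    have h2 := hπ τ ⟨x, hx⟩
    rw [h] at h1
    exact h1.symm.trans h2
  have hN : ∀ σ : GQ, π σ ∈ (NQ y).map π ↔ σ y = y := by
    intro σ
    constructor
    · rintro ⟨τ, hτ, h⟩
      have h1 := hπeq τ σ h y hyM
      have h2 : τ y = y := hτ
      rw [← h1, h2]
    · intro h
      exact ⟨σ, h, rfl⟩
  obtain ⟨σ₀, hσ₀, n₀, hn₀⟩ := h0
  have hs0 : σ₀ y = -y := (pm hy σ₀).resolve_left hσ₀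
  refine abs_count (rhoQ E r) π hsur (fun a => ∃ n : ℤ, ∀ v : TT E r, a.1 (a.1 v) = n • v)
    ((NQ y).map π : Subgroup Gal((MX E r y)/ℚ)) B σ₀ hF ?_ ?_
  · rintro σ ⟨n, hn⟩ h2
    have h3 : ¬ σ y = y := fun h => h2 ((hN σ).2 h)
    have h4 : σ y = -y := (pm hy σ).resolve_left h3
    constructor
    · refine ⟨n₀ * n₀ * n, fun v => ?_⟩
      rw [map_mul]
      have e : ∀ w : TT E r, (rhoQ E r σ * rhoQ E r σ₀).1 w = n₀ • (rhoQ E r σ).1 w := by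
        intro w
        rw [alb_mul_apply, hn₀, map_zsmul]
      rw [e, e, map_zsmul, hn, smul_smul, smul_smul, mul_assoc]
    · refine (hN _).2 ?_
      rw [AlgEquiv.mul_apply, hs0, map_neg, h4, neg_neg]
  · intro σ hσ
    obtain ⟨h1, h2⟩ := (hB _).1 hσ
    refine ⟨?_, h1⟩
    obtain ⟨τ, hτ, hτ2⟩ := h2
    obtain ⟨_, n, hn⟩ := hτ
    have h3 : π τ = π (σ * σ) := by rw [hτ2, map_mul]
    have hfix : ∀ x ∈ LX E r, (τ⁻¹ * (σ * σ)) x = x := by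
      intro x hx
      have h4 := hπeq τ (σ * σ) h3 x (hLM hx)
      rw [AlgEquiv.mul_apply, ← h4, ← AlgEquiv.mul_apply, inv_mul_cancel, AlgEquiv.one_apply]
    have h5 : rhoQ E r σ * rhoQ E r σ = rhoQ E r τ * rhoQ E r (τ⁻¹ * (σ * σ)) := by
      rw [← map_mul, ← map_mul, mul_inv_cancel_left]
    rcases fix_LX E r hfix with h6 | h6
    · refine ⟨n, fun v => ?_⟩
      rw [← alb_mul_apply, h5, alb_mul_apply, h6, hn]
    · refine ⟨-n, fun v => ?_⟩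
      rw [← alb_mul_apply, h5, alb_mul_apply, h6, map_neg, hn, neg_smul]

end Pool.Agent.H85.CPX
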