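import Pool.Agent.H85.CPX.Dfx

/-!
# [H85 CPX FEW] Fewer than half of the automorphisms of `F_r^2` have a scalar square (`r ≥ 3`)

`V` is killed by `r` and has `r^2` elements: a vector space of dimension 2 over `ZMod r` (`AddCommGroup.zmodModule`, see `H85/CP/GrB.lean`; `Module.card_eq_pow_finrank`), additive maps are linear
(`GrB.lean`: `hsm`). With a basis, `Au V` is in bijection with the invertible `2 × 2` matrices over `F = ZMod r` (`LinearMap.toMatrixAlgEquiv`, units), in number `(r^2 - 1)(r^2 - r)`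
(`Matrix.card_GL_field` or by hand). If `g^2` is scalar, then by Cayley-Hamilton `g^2 = tr(g) g - det(g)`, so `tr(g) g` is scalar: `tr(g) = 0` or `g` scalar. Matrices of trace 0 and
determinant `≠ 0`: `(a, b, c)` with `a^2 + b c ≠ 0`: `b ≠ 0`, `a` arbitrary: `r - 1` values of `c`; `b = 0`: `a ≠ 0`, `c` arbitrary: in all `r (r-1)^2 + r (r-1) = r^2 (r-1)`
(an upper bound is enough). Scalars: at most `r - 1`. And `2 (r^2 (r-1) + (r-1)) < (r^2-1)(r^2-r) = (r-1)(r+1) r (r-1)`, i.e. `2 (r^2 + 1) < r (r^2 - 1)`: true for `r ≥ 3` (`20 < 24` for `r = 3`).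
(Other counts are welcome: only the inequality matters. For instance: the map `(g)` with `g^2` scalar and not scalar is determined by `g v` for ... )
-/

set_option autoImplicit false

namespace Pool.Agent.H85.CPX

open Pool.Agent.H27.SU

section mat

open Matrix

variable {F : Type} [Field F] [Finite F]

private theorem cnt_zero : Nat.card F ^ 2 ≤ Nat.card {p : F × F × F // p.1 ^ 2 + p.2.1 * p.2.2 = 0} := by
  classical
  let f : F × F → {p : F × F × F // p.1 ^ 2 + p.2.1 * p.2.2 = 0} := fun x =>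
    if h : x.1 = 0 then ⟨(0, 0, x.2), by simp⟩ else ⟨(x.2, x.1, -(x.2 ^ 2 / x.1)), by
      show x.2 ^ 2 + x.1 * -(x.2 ^ 2 / x.1) = 0
      field_simp
      ring⟩
  have hf : Function.Injective f := by
    rintro ⟨s, t⟩ ⟨s', t'⟩ h
    simp only [f] at h
    split_ifs at h with h1 h2 h2
    · have h3 := congrArg (fun z => z.1.2.2) h
      exact Prod.ext (h1.trans h2.symm) h3
    · have h3 : (0 : F) = s' := congrArg (fun z => z.1.2.1) h
      exact absurd h3.symm h2
    · have h3 : s = (0 : F) := congrArg (fun z => z.1.2.1) h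
      exact absurd h3 h1
    · have h3 : s = s' := congrArg (fun z => z.1.2.1) h
      have h4 : t = t' := congrArg (fun z => z.1.1) h
      exact Prod.ext h3 h4
  have h1 := Nat.card_le_card_of_injective f hf
  rw [Nat.card_prod] at h1
  rw [sq]
  exact h1

private theorem cnt_tr : Nat.card {M : Matrix (Fin 2) (Fin 2) F // M 1 1 = -M 0 0 ∧ M.det ≠ 0} ≤
    Nat.card F ^ 3 - Nat.card F ^ 2 := by
  classical
  let f : {M : Matrix (Fin 2) (Fin 2) F // M 1 1 = -M 0 0 ∧ M.det ≠ 0} →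
      {p : F × F × F // ¬ p.1 ^ 2 + p.2.1 * p.2.2 = 0} := fun M => ⟨(M.1 0 0, M.1 0 1, M.1 1 0), by
    intro h
    apply M.2.2
    rw [det_fin_two, M.2.1]
    linear_combination -h⟩
  have hf : Function.Injective f := by
    rintro ⟨M, h1, h2⟩ ⟨M', h1', h2'⟩ h
    have e1 : M 0 0 = M' 0 0 := congrArg (fun z => z.1.1) h
    have e2 : M 0 1 = M' 0 1 := congrArg (fun z => z.1.2.1) h
    have e3 : M 1 0 = M' 1 0 := congrArg (fun z => z.1.2.2) h
    apply Subtype.ext
    ext i j
    fin_cases i <;> fin_cases j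
    · exact e1
    · exact e2
    · exact e3
    · show M 1 1 = M' 1 1
      rw [h1, h1', e1]
  have h1 := Nat.card_le_card_of_injective f hf
  have h2 : Nat.card {p : F × F × F // p.1 ^ 2 + p.2.1 * p.2.2 = 0} +
      Nat.card {p : F × F × F // ¬ p.1 ^ 2 + p.2.1 * p.2.2 = 0} = Nat.card F ^ 3 := by
    rw [← Nat.card_sum, Nat.card_congr (Equiv.sumCompl fun p : F × F × F => p.1 ^ 2 + p.2.1 * p.2.2 = 0),
      Nat.card_prod, Nat.card_prod]
    ring
  have h3 := cnt_zero (F := F)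
  omega

private theorem cnt_sc : Nat.card {M : Matrix (Fin 2) (Fin 2) F // ∃ c : F, c ≠ 0 ∧ M = c • (1 : Matrix (Fin 2) (Fin 2) F)} ≤
    Nat.card F - 1 := by
  classical
  have h1 : Nat.card {c : F // c = 0} + Nat.card {c : F // ¬ c = 0} = Nat.card F := by
    rw [← Nat.card_sum, Nat.card_congr (Equiv.sumCompl fun c : F => c = 0)]
  have h2 : Nat.card {c : F // c = 0} = 1 := by
    have : Unique {c : F // c = 0} := ⟨⟨⟨0, rfl⟩⟩, fun x => Subtype.ext x.2⟩
    exact Nat.card_unique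
  have h3 : Nat.card {M : Matrix (Fin 2) (Fin 2) F // ∃ c : F, c ≠ 0 ∧ M = c • (1 : Matrix (Fin 2) (Fin 2) F)} ≤
      Nat.card {c : F // ¬ c = 0} := by
    refine Nat.card_le_card_of_injective (fun M => ⟨M.1 0 0, ?_⟩) ?_
    · obtain ⟨c, hc, hM⟩ := M.2
      rw [hM]
      simpa using hc
    · rintro ⟨M, c, hc, hM⟩ ⟨M', c', hc', hM'⟩ h
      have e1 : M 0 0 = M' 0 0 := congrArg Subtype.val h
      rw [hM, hM'] at e1
      have e2 : c = c' := by simpa using e1
      apply Subtype.ext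
      show M = M'
      rw [hM, hM', e2]
  omega

private theorem cnt_all : Nat.card {M : Matrix (Fin 2) (Fin 2) F // M.det ≠ 0 ∧
    ∃ c : F, M * M = c • (1 : Matrix (Fin 2) (Fin 2) F)} ≤
      Nat.card F ^ 3 - Nat.card F ^ 2 + (Nat.card F - 1) := by
  classical
  refine le_trans ?_ (Nat.add_le_add cnt_tr cnt_sc)
  rw [← Nat.card_sum]
  have key : ∀ M : {M : Matrix (Fin 2) (Fin 2) F // M.det ≠ 0 ∧
      ∃ c : F, M * M = c • (1 : Matrix (Fin 2) (Fin 2) F)}, ¬ (M.1 1 1 = -M.1 0 0 ∧ M.1.det ≠ 0) →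
        ∃ c : F, c ≠ 0 ∧ M.1 = c • (1 : Matrix (Fin 2) (Fin 2) F) := by
    rintro ⟨M, hM, c, hc⟩ hn
    have ht : M 1 1 ≠ -M 0 0 := fun h => hn ⟨h, hM⟩
    have ht' : M 0 0 + M 1 1 ≠ 0 := fun h => ht (by linear_combination h)
    have e00 := congrFun (congrFun hc 0) 0
    have e01 := congrFun (congrFun hc 0) 1
    have e10 := congrFun (congrFun hc 1) 0
    have e11 := congrFun (congrFun hc 1) 1
    simp only [Matrix.mul_apply, Fin.sum_univ_two, Matrix.smul_apply, Matrix.one_apply, smul_eq_mul] at e00 e01 e10 e11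
    norm_num at e00 e01 e10 e11
    have h01 : M 0 1 = 0 := by
      have h : (M 0 0 + M 1 1) * M 0 1 = 0 := by linear_combination e01
      exact (mul_eq_zero.1 h).resolve_left ht'
    have h10 : M 1 0 = 0 := by
      have h : (M 0 0 + M 1 1) * M 1 0 = 0 := by linear_combination e10
      exact (mul_eq_zero.1 h).resolve_left ht'
    have h11 : M 1 1 = M 0 0 := by
      have h : (M 0 0 + M 1 1) * (M 1 1 - M 0 0) = 0 := by linear_combination e11 - e00
      exact sub_eq_zero.1 ((mul_eq_zero.1 h).resolve_left ht')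
    refine ⟨M 0 0, fun h => hM ?_, ?_⟩
    · rw [det_fin_two, h, h01]
      ring
    · ext i j
      fin_cases i <;> fin_cases j
      · simp
      · simpa using h01
      · simpa using h10
      · simpa using h11
  let f : {M : Matrix (Fin 2) (Fin 2) F // M.det ≠ 0 ∧ ∃ c : F, M * M = c • (1 : Matrix (Fin 2) (Fin 2) F)} →
      {M : Matrix (Fin 2) (Fin 2) F // M 1 1 = -M 0 0 ∧ M.det ≠ 0} ⊕
        {M : Matrix (Fin 2) (Fin 2) F // ∃ c : F, c ≠ 0 ∧ M = c • (1 : Matrix (Fin 2) (Fin 2) F)} := fun M =>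
    if h : M.1 1 1 = -M.1 0 0 ∧ M.1.det ≠ 0 then Sum.inl ⟨M.1, h⟩ else Sum.inr ⟨M.1, key M h⟩
  refine Nat.card_le_card_of_injective f ?_
  intro M M' h
  simp only [f] at h
  apply Subtype.ext
  split_ifs at h with h1 h2 h2
  · have h3 := congrArg Subtype.val (Sum.inl.inj h)
    exact h3
  · have h3 := congrArg Subtype.val (Sum.inr.inj h)
    exact h3

end mat

private theorem few_mod {V : Type} [AddCommGroup V] {r : ℕ} [Fact r.Prime] [Module (ZMod r) V] [Finite V]
    (hrp : r.Prime) (hr : 3 ≤ r) (hcard : Nat.card V = r ^ 2) :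
    2 * Nat.card {a : Au V // ∃ n : ℤ, ∀ v : V, a.1 (a.1 v) = n • v} < Nat.card (Au V) := by
  classical
  have hdim : Module.finrank (ZMod r) V = 2 := by
    have h1 := Module.natCard_eq_pow_finrank (K := ZMod r) (V := V)
    rw [hcard, Nat.card_zmod] at h1
    exact (Nat.pow_right_injective hrp.two_le h1).symm
  have hMf : Module.Finite (ZMod r) V := Module.Finite.of_finite
  let b : Module.Basis (Fin 2) (ZMod r) V := Module.finBasisOfFinrankEq (ZMod r) V hdim
  let e1 : AddMonoid.End V ≃* Module.End (ZMod r) V :=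
    { toFun := fun f => AddMonoidHom.toZModLinearMap r f
      invFun := fun g => g.toAddMonoidHom
      left_inv := fun f => rfl
      right_inv := fun g => rfl
      map_mul' := fun f g => LinearMap.ext fun v => rfl }
  let e2 : Module.End (ZMod r) V ≃* Matrix (Fin 2) (Fin 2) (ZMod r) :=
    (LinearMap.toMatrixAlgEquiv b).toMulEquiv
  let E : Au V ≃* Matrix.GeneralLinearGroup (Fin 2) (ZMod r) := Units.mapEquiv (e1.trans e2)
  have hE : ∀ a : Au V, (E a).1 = e2 (e1 a.1) := fun a => rfl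
  have hq : Nat.card (ZMod r) = r := Nat.card_zmod r
  have hall : Nat.card (Au V) = (r ^ 2 - 1) * (r ^ 2 - r) := by
    rw [Nat.card_congr E.toEquiv, Matrix.card_GL_field, Fin.prod_univ_two]
    have h1 : Fintype.card (ZMod r) = r := ZMod.card r
    rw [h1]
    simp
  have hle : Nat.card {a : Au V // ∃ n : ℤ, ∀ v : V, a.1 (a.1 v) = n • v} ≤
      Nat.card {M : Matrix (Fin 2) (Fin 2) (ZMod r) // M.det ≠ 0 ∧
        ∃ c : ZMod r, M * M = c • (1 : Matrix (Fin 2) (Fin 2) (ZMod r))} := by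
    refine Nat.card_le_card_of_injective (fun a => ⟨(E a.1).1, ?_, ?_⟩) ?_
    · exact ((Matrix.isUnit_iff_isUnit_det _).1 (E a.1).isUnit).ne_zero
    · obtain ⟨n, hn⟩ := a.2
      refine ⟨(n : ZMod r), ?_⟩
      rw [hE, ← map_mul]
      have h1 : e1 a.1.1 * e1 a.1.1 = (n : ZMod r) • (1 : Module.End (ZMod r) V) := by
        refine LinearMap.ext fun v => ?_
        show a.1.1 (a.1.1 v) = (n : ZMod r) • v
        rw [hn, Int.cast_smul_eq_zsmul]
      rw [h1]
      show LinearMap.toMatrixAlgEquiv b ((n : ZMod r) • 1) = _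
      rw [map_smul, map_one]
    · intro a a' h
      apply Subtype.ext
      apply E.injective
      exact Units.ext (congrArg Subtype.val h)
  have hcnt := hle.trans cnt_all
  rw [hq] at hcnt
  rw [hall]
  obtain ⟨s, rfl⟩ : ∃ s, r = s + 3 := ⟨r - 3, by omega⟩
  have h1 : (s + 3) ^ 2 - 1 = s ^ 2 + 6 * s + 8 := by
    have : (s + 3) ^ 2 = s ^ 2 + 6 * s + 8 + 1 := by ring
    omega
  have h2 : (s + 3) ^ 2 - (s + 3) = s ^ 2 + 5 * s + 6 := by
    have : (s + 3) ^ 2 = s ^ 2 + 5 * s + 6 + (s + 3) := by ring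
    omega
  have h3 : (s + 3) ^ 3 - (s + 3) ^ 2 = (s ^ 2 + 6 * s + 9) * (s + 2) := by
    have : (s + 3) ^ 3 = (s ^ 2 + 6 * s + 9) * (s + 2) + (s + 3) ^ 2 := by ring
    omega
  rw [h3] at hcnt
  rw [h1, h2]
  have h4 : s + 3 - 1 = s + 2 := by omega
  rw [h4] at hcnt
  have h5 : 2 * ((s ^ 2 + 6 * s + 9) * (s + 2) + (s + 2)) < (s ^ 2 + 6 * s + 8) * (s ^ 2 + 5 * s + 6) := by
    nlinarith [Nat.zero_le (s ^ 4), Nat.zero_le (s ^ 3), Nat.zero_le (s ^ 2)]
  omega

theorem few_abs {V : Type} [AddCommGroup V] {r : ℕ} (hrp : r.Prime) (hr : 3 ≤ r)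
    (htors : ∀ v : V, (r : ℤ) • v = 0) (hcard : Nat.card V = r ^ 2) :
    2 * Nat.card {a : Au V // ∃ n : ℤ, ∀ v : V, a.1 (a.1 v) = n • v} < Nat.card (Au V) := by
  have : Fact r.Prime := ⟨hrp⟩
  let inst : Module (ZMod r) V := AddCommGroup.zmodModule fun x => by
    have h1 := htors x
    rwa [natCast_zsmul] at h1
  have hfV : Finite V := Nat.finite_of_card_ne_zero (by
    rw [hcard]
    exact pow_ne_zero 2 hrp.ne_zero)
  exact few_mod hrp hr hcard

end Pool.Agent.H85.CPX
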