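import Pool.Agent.H80.CPP.Fin

/-!
# [H85 CPX LOC] One Frobenius for several nonsplit primes

Proof. `exists_restr ℓ` gives `ι, res`. For `p ∈ S`: instances (`MX_galois E r (hs p hp)`, `NumberField`: `⟨⟩`, as in `H80/CPP/Fin.lean`), `hgood`: `P, t`, and `frob_match (MX E r (s p)) _ ι` gives a finite set
`Y p`. `Y = ⋃_{p ∈ S} Y p` (choose; `Finset.biUnion`). `cp_local_set` for `S.erase ℓ` and `Y` gives one `φ`. For every `p ∈ S` the element `res φ` is, on `M = MX E r (s p)`, conjugate to `t`: there is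
`g' ∈ GQ` such that `σ = g'⁻¹ * res φ * g'` induces `t` (word for word as in `key_R` of `H80/CPP/Fin.lean`). By `hgood`: `σ (s p) ≠ s p`, `¬ SqSc E r σ`. So `res φ (s p) ≠ s p` (if `res φ` fixes
`s p`, so does the conjugate, as `g' (s p) = ± s p`; see `key_R`), hence `res φ (y p) ≠ y p`, and `¬ SqSc E r (res φ)` (`SqSc_conj`; `S` is nonempty). So in
`cp_local_set` the filtered product is the full product over `S.erase ℓ`, and it is `≤ 2 ℓ`. So `∏_{p ∈ S} p ≤ ℓ * (2 ℓ) ≤ (2 ℓ)^2` (as in `step` of `H80/CPP/Fin.lean`).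
-/

set_option autoImplicit false

namespace Pool.Agent.H85.CPX

open NumberField Pool.Agent.H27.SU Pool.Agent.H85.CP Pool.Agent.H80.CPP

private theorem one_p (E : WeierstrassCurve ℚ) [E.IsElliptic] (r ℓ : ℕ) [Fact r.Prime]
    [Fact ℓ.Prime] {m : ℤ} {s : QB} (hs : s ^ 2 = (m : QB)) [NumberField (MX E r s)]
    [IsGalois ℚ (MX E r s)] (hd : ¬ (ℓ : ℤ) ∣ discr (MX E r s)) {P : Ideal (𝓞 (MX E r s))}
    (hP : P ∈ Pr (MX E r s) ℓ) {t : Gal((MX E r s)/ℚ)} (ht : IsFr ℓ P t)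
    (hσ : ∀ σ : GQ, (∀ x : MX E r s, ((t x : MX E r s) : QB) = σ (x : QB)) →
      σ s ≠ s ∧ ¬ SqSc E r σ) (ι : QB →ₐ[ℚ] PadicAlgCl ℓ) :
    ∃ Y : Finset (PadicAlgCl ℓ), (∀ z ∈ Y, ‖z‖ ≤ 1) ∧ ∀ (φ : GG ℓ) (τ : GQ),
      (∀ x, ι (τ x) = φ (ι x)) → (∀ z ∈ Y, ‖φ z - z ^ ℓ‖ < 1) → τ s ≠ s ∧ ¬ SqSc E r τ := by
  obtain ⟨Y, hY1, hY⟩ := frob_match (MX E r s) hd ι
  refine ⟨Y, hY1, fun φ τ hτφ hφY => ?_⟩
  obtain ⟨g, hg⟩ := hY φ τ hτφ hφY P hP t ht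
  obtain ⟨g', hg'⟩ : ∃ g' : GQ, ∀ x : MX E r s, ((g x : MX E r s) : QB) = g' (x : QB) := by
    have hAlg : Algebra.IsAlgebraic ℚ QB := AlgebraicClosure.isAlgebraic ℚ
    have hClo : IsAlgClosure ℚ QB := ⟨inferInstance, hAlg⟩
    have hNor : Normal ℚ QB := IsAlgClosure.normal ℚ QB
    obtain ⟨g', hg'⟩ := AlgEquiv.restrictNormalHom_surjective (F := ℚ) (K₁ := MX E r s) (E := QB) g
    refine ⟨g', fun x => ?_⟩
    rw [← hg']
    exact AlgEquiv.restrictNormal_commutes g' (MX E r s) x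
  have hginv : ∀ x : MX E r s, (((g⁻¹ : Gal((MX E r s)/ℚ)) x : MX E r s) : QB) =
      (g'⁻¹ : GQ) (x : QB) := by
    intro x
    have h1 := hg' ((g⁻¹ : Gal((MX E r s)/ℚ)) x)
    have h2 : g ((g⁻¹ : Gal((MX E r s)/ℚ)) x) = x := by
      rw [← AlgEquiv.mul_apply, mul_inv_cancel, AlgEquiv.one_apply]
    rw [h2] at h1
    rw [h1, ← AlgEquiv.mul_apply, inv_mul_cancel, AlgEquiv.one_apply]
  have hτ : ∀ x : MX E r s, (g'⁻¹ * τ * g') (x : QB) = ((t x : MX E r s) : QB) := by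
    intro x
    rw [AlgEquiv.mul_apply, AlgEquiv.mul_apply, ← hg', hg, ← hginv]
    congr 1
    rw [← AlgEquiv.mul_apply, ← AlgEquiv.mul_apply]
    congr 1
    group
  obtain ⟨hs1, hs2⟩ := hσ (g'⁻¹ * τ * g') (fun x => (hτ x).symm)
  refine ⟨fun hfix => hs1 ?_, fun hsq => hs2 ?_⟩
  · have h2 : (g' s) ^ 2 = s ^ 2 := by rw [← map_pow, hs, map_intCast]
    rcases sq_eq_sq_iff_eq_or_eq_neg.1 h2 with h3 | h3
    · have h4 : (g'⁻¹ : GQ) s = s := by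
        conv_lhs => rw [← h3]
        rw [← AlgEquiv.mul_apply, inv_mul_cancel, AlgEquiv.one_apply]
      rw [AlgEquiv.mul_apply, AlgEquiv.mul_apply, h3, hfix, h4]
    · have h4 : (g'⁻¹ : GQ) s = -s := by
        have h5 : (g'⁻¹ : GQ) (g' s) = s := by
          rw [← AlgEquiv.mul_apply, inv_mul_cancel, AlgEquiv.one_apply]
        rw [h3, map_neg] at h5
        rw [← neg_eq_iff_eq_neg]
        exact h5
      rw [AlgEquiv.mul_apply, AlgEquiv.mul_apply, h3, map_neg, map_neg, hfix, h4, neg_neg]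
  · have h1 := SqSc_conj E r hsq g'⁻¹
    rwa [inv_inv] at h1

theorem loc_all (E : WeierstrassCurve ℚ) [E.IsElliptic] (hj0 : E.j ≠ 0) (hj1 : E.j ≠ 1728)
    (r ℓ : ℕ) [Fact r.Prime] [Fact ℓ.Prime] (hℓ5 : 5 ≤ ℓ) (hℓr : ℓ ≠ r) (S : Finset ℕ)
    (hne : S.Nonempty) (y : ℕ → QB) (hS : ∀ p ∈ S, 29 ≤ p ∧ NonsplitWith E p (y p))
    (s : ℕ → QB) (m : ℕ → ℤ) (hs : ∀ p ∈ S, s p ^ 2 = (m p : QB))
    (hys : ∀ p ∈ S, ∀ σ : GQ, σ (y p) = y p ↔ σ (s p) = s p)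
    (hgood : ∀ p ∈ S, ∀ [NumberField (MX E r (s p))] [IsGalois ℚ (MX E r (s p))],
      ¬ (ℓ : ℤ) ∣ discr (MX E r (s p)) ∧ ∃ P ∈ Pr (MX E r (s p)) ℓ,
        ∃ t : Gal((MX E r (s p))/ℚ), IsFr ℓ P t ∧ ∀ σ : GQ,
          (∀ x : MX E r (s p), ((t x : MX E r (s p)) : QB) = σ (x : QB)) →
          σ (s p) ≠ s p ∧ ¬ SqSc E r σ) :
    ∏ p ∈ S, p ≤ (2 * ℓ) ^ 2 := by
  classical
  have hℓ : ℓ.Prime := Fact.out
  obtain ⟨ι, res, hres⟩ := exists_restr ℓ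
  have hY : ∀ p ∈ S, ∃ Y : Finset (PadicAlgCl ℓ), (∀ z ∈ Y, ‖z‖ ≤ 1) ∧ ∀ (φ : GG ℓ) (τ : GQ),
      (∀ x, ι (τ x) = φ (ι x)) → (∀ z ∈ Y, ‖φ z - z ^ ℓ‖ < 1) →
        τ (s p) ≠ s p ∧ ¬ SqSc E r τ := by
    intro p hp
    obtain ⟨hMf, hMG, -⟩ := MX_galois E r (hs p hp)
    have hMN : NumberField (MX E r (s p)) := ⟨⟩
    obtain ⟨hd, P, hP, t, ht, hσ⟩ := hgood p hp
    exact one_p E r ℓ (hs p hp) hd hP ht hσ ι
  choose! Y hY1 hY2 using hY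
  obtain ⟨φ, hφ, hbig⟩ := cp_local_set E hj0 hj1 (S.erase ℓ) y
    (fun p hp => hS p (Finset.mem_of_mem_erase hp)) r ℓ hℓ5 hℓr (Finset.notMem_erase ℓ S)
    ι res hres (S.biUnion Y) (fun z hz => by
      obtain ⟨p, hp, hz⟩ := Finset.mem_biUnion.1 hz
      exact hY1 p hp z hz)
  have hp : ∀ p ∈ S, res φ (s p) ≠ s p ∧ ¬ SqSc E r (res φ) := fun p hp =>
    hY2 p hp φ (res φ) (hres φ) (fun z hz => hφ z (Finset.mem_biUnion.2 ⟨p, hp, hz⟩))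
  obtain ⟨p₀, hp₀⟩ := hne
  have h1 : ∏ p ∈ S.erase ℓ, p ≤ 2 * ℓ := by
    by_contra hcon
    refine (hp p₀ hp₀).2 (hbig ?_)
    have hall : ∀ p ∈ S.erase ℓ, res φ (y p) ≠ y p := fun p hpS h =>
      (hp p (Finset.mem_of_mem_erase hpS)).1
        ((hys p (Finset.mem_of_mem_erase hpS) (res φ)).1 h)
    rw [Finset.filter_true_of_mem hall]
    exact not_le.1 hcon
  have h2 : ∏ p ∈ S, p ≤ ℓ * ∏ p ∈ S.erase ℓ, p := by
    by_cases hmem : ℓ ∈ S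
    · rw [Finset.mul_prod_erase _ (fun p => p) hmem]
    · rw [Finset.erase_eq_of_notMem hmem]
      exact Nat.le_mul_of_pos_left _ hℓ.pos
  refine h2.trans ((Nat.mul_le_mul_left _ h1).trans ?_)
  nlinarith

end Pool.Agent.H85.CPX
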