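import Pool.Agent.H85.CPX.Mas
import Pool.Agent.H85.CPX.Avg
import Pool.Agent.H85.CPX.Fb
import Pool.Agent.H85.CPX.Exi
import Pool.Agent.H85.CPX.Loc

/-!
# THEOREM CP++: the product of all nonsplit primes
-/

set_option autoImplicit false

namespace Pool.Agent.H85.CPX

open NumberField Pool.Agent.H27.SU Pool.Agent.H85.CP Pool.Agent.H80.CPP Pool.Agent.H82.HW
  Pool.Agent.H82.SV Pool.Agent.H82.SW Pool.Agent.H82.SX Pool.Agent.H82.MU

theorem few_ne (E : WeierstrassCurve ℚ) (r : ℕ) (hF : FewSq E r) : ∃ σ : GQ, ¬ SqSc E r σ := by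
  by_contra hcon
  push Not at hcon
  have h1 : {a : Au (TT E r) | (∃ σ : GQ, rhoQ E r σ = a) ∧
      ∃ n : ℤ, ∀ v : TT E r, a.1 (a.1 v) = n • v} = {a : Au (TT E r) | ∃ σ : GQ, rhoQ E r σ = a} := by
    ext a
    constructor
    · rintro ⟨h, -⟩
      exact h
    · rintro ⟨σ, rfl⟩
      exact ⟨⟨σ, rfl⟩, hcon σ⟩
  have h2 : Nat.card {a : Au (TT E r) // (∃ σ : GQ, rhoQ E r σ = a) ∧
      ∃ n : ℤ, ∀ v : TT E r, a.1 (a.1 v) = n • v} =
      Nat.card {a : Au (TT E r) // ∃ σ : GQ, rhoQ E r σ = a} :=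
    congrArg (fun s : Set (Au (TT E r)) => Nat.card s) h1
  unfold FewSq at hF
  rw [h2] at hF
  omega

theorem cart_data (E : WeierstrassCurve ℚ) [E.IsElliptic] (hj0 : E.j ≠ 0) (hj1 : E.j ≠ 1728)
    (r : ℕ) [Fact r.Prime] [NumberField (LX E r)] {p : ℕ} (hp : 29 ≤ p) {y : QB}
    (h : NonsplitWith E p y) : ∃ (m : ℤ) (s : QB), m < 0 ∧ s ^ 2 = (m : QB) ∧
      m.natAbs ≤ 6 * r * (discr (LX E r)).natAbs ∧ ∀ σ : GQ, σ y = y ↔ σ s = s := by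
  have hr : r.Prime := Fact.out
  obtain ⟨-, hLG, -⟩ := LX_galois E r
  have hpp : p.Prime := by
    obtain ⟨h1, -⟩ := h
    exact h1.out
  have hfp : Fact p.Prime := ⟨hpp⟩
  obtain ⟨k, i1, i2, e, m, s, hk, hN, hmsq, hs, hms, hys⟩ := nonsplitWith_data E h
  obtain ⟨hm0, hmq⟩ := m_primes E hj0 hj1 hp e hk hN hmsq hs hms
  refine ⟨m, s, hm0, hs, ?_, hys⟩
  have hD : 0 < (discr (LX E r)).natAbs := Int.natAbs_pos.2 (discr_ne_zero _)
  have hr1 : 0 < r := hr.pos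
  have hprimes : ∀ q : ℕ, q.Prime → (q : ℤ) ∣ m → q ∣ 6 * r * (discr (LX E r)).natAbs := by
    intro q hq hqm
    have : Fact q.Prime := ⟨hq⟩
    by_cases h5 : 5 ≤ q
    · by_cases hqr : q = r
      · rw [hqr]
        exact ⟨6 * (discr (LX E r)).natAbs, by ring⟩
      · obtain ⟨h1, h2⟩ := hmq q hq h5 hqm
        have h3 := ram_dvd E hj1 r q h5 hqr h1 h2
        exact Dvd.dvd.mul_left (Int.natCast_dvd.1 h3) _
    · have h2 := hq.two_le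
      have hc : q = 2 ∨ q = 3 ∨ q = 4 := by omega
      rcases hc with rfl | rfl | rfl
      · exact ⟨3 * r * (discr (LX E r)).natAbs, by ring⟩
      · exact ⟨2 * r * (discr (LX E r)).natAbs, by ring⟩
      · exact absurd hq (by norm_num)
  exact abs_le_of_primes hmsq (by positivity) hprimes

/-- the good primes for one Cartan field -/
theorem good_one (E : WeierstrassCurve ℚ) [E.IsElliptic] (r : ℕ) [Fact r.Prime] (hF : FewSq E r)
    {m : ℤ} {s : QB} (hm : m < 0) (hs : s ^ 2 = (m : QB))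
    (h0 : ∃ σ : GQ, σ s ≠ s ∧ ∃ n : ℤ, ∀ v : TT E r, (rhoQ E r σ).1 v = n • v)
    {n Q X R : ℕ} {c : ℝ} {w : ℕ → ℝ} (hn : 2 * (r ^ 2) ^ (r ^ 2) ≤ n) (hR : 0 < R) (hRQ : R ≤ Q)
    (hQ : ∀ [NumberField (MX E r s)], (discr (MX E r s)).natAbs ≤ Q)
    (hmass : ∀ (M : Type) [Field M] [NumberField M] [IsGalois ℚ M], Module.finrank ℚ M ≤ n →
      (discr M).natAbs ≤ Q → ∀ (N Z : Subgroup Gal(M/ℚ)) [N.Normal] [Z.Normal], Z ≤ N →
      N.index = 2 → ∀ B : Finset Gal(M/ℚ), (∀ s, s ∈ B ↔ s ∉ N ∧ s * s ∈ Z) →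
      4 * B.card < Nat.card Gal(M/ℚ) → ∀ R : ℕ, 0 < R → R ≤ Q →
      ∃ F : Finset ℕ, c ≤ ∑ ℓ ∈ F, w ℓ ∧ ∀ ℓ ∈ F, ℓ.Prime ∧ ℓ < X ∧ ¬ ℓ ∣ R ∧
        ¬ (ℓ : ℤ) ∣ discr M ∧ ∀ P ∈ Pr M ℓ, ∀ t : Gal(M/ℚ), IsFr ℓ P t → t ∉ N ∧ t * t ∉ Z) :
    ∃ F : Finset ℕ, c ≤ ∑ ℓ ∈ F, w ℓ ∧ ∀ ℓ ∈ F, ℓ.Prime ∧ ℓ < X ∧ ¬ ℓ ∣ R ∧
      ∀ [NumberField (MX E r s)] [IsGalois ℚ (MX E r s)],
      ¬ (ℓ : ℤ) ∣ discr (MX E r s) ∧ ∃ P ∈ Pr (MX E r s) ℓ,
        ∃ t : Gal((MX E r s)/ℚ), IsFr ℓ P t ∧ ∀ σ : GQ,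
          (∀ x : MX E r s, ((t x : MX E r s) : QB) = σ (x : QB)) → σ s ≠ s ∧ ¬ SqSc E r σ := by
  classical
  obtain ⟨hMf, hMG, hMn⟩ := MX_galois E r hs
  have hMN : NumberField (MX E r s) := ⟨⟩
  have hAlg : Algebra.IsAlgebraic ℚ QB := AlgebraicClosure.isAlgebraic ℚ
  have hClo : IsAlgClosure ℚ QB := ⟨inferInstance, hAlg⟩
  have hNor : Normal ℚ QB := IsAlgClosure.normal ℚ QB
  obtain ⟨π, hπd⟩ : ∃ π : GQ →* Gal((MX E r s)/ℚ), π = AlgEquiv.restrictNormalHom (MX E r s) :=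
    ⟨_, rfl⟩
  have hπ : ∀ (σ : GQ) (x : MX E r s), ((π σ x : MX E r s) : QB) = σ (x : QB) := by
    intro σ x
    rw [hπd]
    exact AlgEquiv.restrictNormal_commutes σ (MX E r s) x
  have hsur : Function.Surjective π := by
    rw [hπd]
    exact AlgEquiv.restrictNormalHom_surjective (F := ℚ) (K₁ := MX E r s) (E := QB)
  have hsM : s ∈ MX E r s :=
    (le_sup_right : IntermediateField.adjoin ℚ {s} ≤ MX E r s)
      (IntermediateField.mem_adjoin_simple_self ℚ s)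
  have hmemN : ∀ σ : GQ, π σ ∈ (NQ s).map π ↔ σ s = s := by
    intro σ
    constructor
    · rintro ⟨τ, hτ, hστ⟩
      have h1 := hπ σ ⟨s, hsM⟩
      have h2 := hπ τ ⟨s, hsM⟩
      rw [← hστ, h2] at h1
      have h3 : τ s = s := hτ
      exact h1.symm.trans h3
    · intro h
      exact ⟨σ, h, rfl⟩
  have hNn : ((NQ s).map π).Normal := (NQ_normal hs).map π hsur
  have hZn : ((ZQ E r s).map π).Normal := (ZQ_normal E r hs).map π hsur
  have hZN : (ZQ E r s).map π ≤ (NQ s).map π := Subgroup.map_mono (ZQ_le E r s)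
  obtain ⟨τ, hτ⟩ := exists_moves hm hs
  have hs0 : s ≠ 0 := by
    rintro rfl
    apply hτ
    exact map_zero τ
  have hneg : -s ≠ s := by
    intro h
    have h1 : (2 : QB) * s = 0 := by linear_combination -h
    exact hs0 ((mul_eq_zero.1 h1).resolve_left two_ne_zero)
  have hτn : τ s = -s := (pm hs τ).resolve_left hτ
  have hidx : ((NQ s).map π).index = 2 := by
    rw [Subgroup.index_eq_two_iff]
    refine ⟨π τ, fun b => ?_⟩
    obtain ⟨σ, rfl⟩ := hsur b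
    rw [← map_mul, hmemN, hmemN, AlgEquiv.mul_apply, hτn, map_neg]
    rcases pm hs σ with h | h
    · rw [h]
      exact Or.inr ⟨rfl, hneg⟩
    · rw [h, neg_neg]
      exact Or.inl ⟨rfl, hneg⟩
  have hBfin : Fintype Gal((MX E r s)/ℚ) := Fintype.ofFinite _
  obtain ⟨B, hB⟩ : ∃ B : Finset Gal((MX E r s)/ℚ),
      ∀ g, g ∈ B ↔ g ∉ (NQ s).map π ∧ g * g ∈ (ZQ E r s).map π :=
    ⟨Finset.univ.filter fun g => g ∉ (NQ s).map π ∧ g * g ∈ (ZQ E r s).map π, fun g => by simp⟩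
  have hB4 := four_B E r hF hs h0 π hπ hsur B hB
  obtain ⟨F, hFc, hFg⟩ := hmass (MX E r s) (hMn.trans hn) hQ ((NQ s).map π) ((ZQ E r s).map π) hZN
    hidx B hB hB4 R hR hRQ
  refine ⟨F, hFc, fun ℓ hℓ => ?_⟩
  obtain ⟨h1, h2, h3, h4, h5⟩ := hFg ℓ hℓ
  refine ⟨h1, h2, h3, ?_⟩
  intro _ _
  refine ⟨h4, ?_⟩
  obtain ⟨P, hP⟩ := Pr_nonempty (k := MX E r s) h1
  obtain ⟨t, ht⟩ := exists_Fr (M := MX E r s) h1 hP
  refine ⟨P, hP, t, ht, fun σ hσ => ?_⟩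
  obtain ⟨h6, h7⟩ := h5 P hP t ht
  have htσ : t = π σ := by
    apply AlgEquiv.ext
    intro x
    apply Subtype.ext
    rw [hσ x, hπ]
  have h8 : σ s ≠ s := by
    intro h
    apply h6
    rw [htσ]
    exact (hmemN σ).2 h
  refine ⟨h8, ?_⟩
  rintro ⟨k, hk⟩
  apply h7
  rw [htσ, ← map_mul]
  refine ⟨σ * σ, ⟨?_, k, fun v => ?_⟩, rfl⟩
  · show (σ * σ) s = s
    have h9 : σ s = -s := (pm hs σ).resolve_left h8
    rw [AlgEquiv.mul_apply, h9, map_neg, h9, neg_neg]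
  · rw [map_mul]
    exact hk v

/-- the primes whose Cartan field is fixed by the scalars -/
theorem part_one (r : ℕ) [Fact r.Prime] : ∃ A : ℕ, ∀ (E : WeierstrassCurve ℚ) [E.IsElliptic],
    E.j ≠ 0 → E.j ≠ 1728 → FewSq E r → ∀ [NumberField (LX E r)] (S : Finset ℕ) (y : ℕ → QB),
    (∀ p ∈ S, 29 ≤ p ∧ NonsplitWith E p (y p) ∧
      ∀ σ : GQ, (∃ n : ℤ, ∀ v : TT E r, (rhoQ E r σ).1 v = n • v) → σ (y p) = y p) →
    ∏ p ∈ S, p ≤ (discr (LX E r)).natAbs ^ A := by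
  obtain ⟨A, hA⟩ := cpp_main r
  refine ⟨A * (r ^ 2) ^ (r ^ 2), ?_⟩
  intro E _ hj0 hj1 hF _ S y hS
  obtain ⟨hLf, hLG, hLn⟩ := LX_galois E r
  refine hA E hj0 hj1 S y _ (fun p hp => ?_) ?_
  · obtain ⟨h1, h2, h3⟩ := hS p hp
    refine ⟨h1, h2, ?_⟩
    obtain ⟨m, s, hm, hs, -, hys⟩ := cart_data E hj0 hj1 r h1 h2
    obtain ⟨σ, hσ1, hσ2⟩ := exi E r hF hs (exists_moves hm hs)
    exact ⟨σ, fun h => hσ1 ((hys σ).1 h), hσ2⟩
  · have h0 : IsAlgClosure ℚ QB := ⟨inferInstance, AlgebraicClosure.isAlgebraic ℚ⟩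
    have hgal : IsGalois ℚ QB := IsAlgClosure.isGalois ℚ QB
    have hle : IntermediateField.adjoin ℚ (y '' (S : Set ℕ)) ≤ LX E r := by
      rw [IntermediateField.adjoin_le_iff]
      rintro _ ⟨p, hp, rfl⟩
      have hp' : p ∈ S := hp
      rw [← InfiniteGalois.fixedField_fixingSubgroup (LX E r), SetLike.mem_coe,
        IntermediateField.mem_fixedField_iff]
      intro σ hσ
      apply (hS p hp').2.2 σ
      have h1 : ∀ x ∈ LX E r, σ x = x := by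
        intro x hx
        exact (IntermediateField.mem_fixingSubgroup_iff _ _).1 hσ x hx
      rcases fix_LX E r h1 with h2 | h2
      · exact ⟨1, fun v => by rw [h2, one_smul]⟩
      · exact ⟨-1, fun v => by rw [h2, neg_smul, one_smul]⟩
    have h1 : Module.finrank ℚ (IntermediateField.adjoin ℚ (y '' (S : Set ℕ))) ≤
        Module.finrank ℚ (LX E r) := IntermediateField.finrank_le_of_le_right hle
    exact h1.trans (hLn.trans Nat.lt_two_pow_self.le)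

theorem part_two (r : ℕ) [Fact r.Prime] : ∃ A : ℕ, ∀ (E : WeierstrassCurve ℚ) [E.IsElliptic],
    E.j ≠ 0 → E.j ≠ 1728 → FewSq E r → ∀ [NumberField (LX E r)] (S : Finset ℕ) (y : ℕ → QB),
    (∀ p ∈ S, 29 ≤ p ∧ NonsplitWith E p (y p) ∧
      ∃ σ : GQ, σ (y p) ≠ y p ∧ ∃ n : ℤ, ∀ v : TT E r, (rhoQ E r σ).1 v = n • v) →
    ∏ p ∈ S, p ≤ (discr (LX E r)).natAbs ^ A := by
  classical
  have hr : r.Prime := Fact.out
  have hr1 : 1 ≤ r := hr.one_lt.le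
  have hn0 : 0 < 2 * (r ^ 2) ^ (r ^ 2) := by positivity
  obtain ⟨n, hn⟩ : ∃ n, n = 2 * (r ^ 2) ^ (r ^ 2) := ⟨_, rfl⟩
  rw [← hn] at hn0
  obtain ⟨c, A₁, hc, hmass⟩ := mass n hn0
  obtain ⟨K, hK⟩ := exists_nat_ge (2 / c)
  refine ⟨(((24 * r + 1) * n + 2) * A₁ + 1) * 2 * K, ?_⟩
  intro E _ hj0 hj1 hF _ S y hS
  rcases S.eq_empty_or_nonempty with rfl | hne
  · rw [Finset.prod_empty]
    exact Nat.one_le_iff_ne_zero.2 (pow_ne_zero _ (Int.natAbs_ne_zero.2 (discr_ne_zero _)))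
  obtain ⟨σ₀, hσ₀⟩ := few_ne E r hF
  obtain ⟨D, hDd⟩ : ∃ D, D = (discr (LX E r)).natAbs := ⟨_, rfl⟩
  have hD : 3 ≤ D := by
    rw [hDd]
    exact LX_gt' E r hσ₀
  have hD1 : 1 ≤ D := by omega
  have hc24 : 24 * r ≤ D ^ (24 * r) := (Nat.lt_pow_self (by omega : 1 < D)).le
  obtain ⟨Q, hQd⟩ : ∃ Q, Q = D ^ ((24 * r + 1) * n + 2) := ⟨_, rfl⟩
  have hQ2 : 2 ≤ Q := by
    rw [hQd]
    calc 2 ≤ D := by omega
      _ = D ^ 1 := (pow_one D).symm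
      _ ≤ D ^ ((24 * r + 1) * n + 2) := Nat.pow_le_pow_right hD1 (by omega)
  have hRQ : 6 * r ≤ Q := by
    rw [hQd]
    calc 6 * r ≤ 24 * r := by omega
      _ ≤ D ^ (24 * r) := hc24
      _ ≤ D ^ ((24 * r + 1) * n + 2) := Nat.pow_le_pow_right hD1 (by nlinarith)
  obtain ⟨w, hw0, hw2, hwM⟩ := hmass Q hQ2
  -- the data of the primes
  have hdata : ∀ p : ℕ, ∃ (m : ℤ) (s : QB), p ∈ S → (m < 0 ∧ s ^ 2 = (m : QB) ∧
      m.natAbs ≤ 6 * r * D ∧ ∀ σ : GQ, σ (y p) = y p ↔ σ s = s) := by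
    intro p
    by_cases hp : p ∈ S
    · obtain ⟨m, s, h⟩ := cart_data E hj0 hj1 r (hS p hp).1 (hS p hp).2.1
      rw [← hDd] at h
      exact ⟨m, s, fun _ => h⟩
    · exact ⟨0, 0, fun h => absurd h hp⟩
  choose m s hms using hdata
  have hgood : ∀ p : ℕ, ∃ F : Finset ℕ, p ∈ S → (c ≤ ∑ ℓ ∈ F, w ℓ ∧ ∀ ℓ ∈ F, ℓ.Prime ∧
      ℓ < Q ^ A₁ ∧ ¬ ℓ ∣ 6 * r ∧ ∀ [NumberField (MX E r (s p))] [IsGalois ℚ (MX E r (s p))],
      ¬ (ℓ : ℤ) ∣ discr (MX E r (s p)) ∧ ∃ P ∈ Pr (MX E r (s p)) ℓ,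
        ∃ t : Gal((MX E r (s p))/ℚ), IsFr ℓ P t ∧ ∀ σ : GQ,
          (∀ x : MX E r (s p), ((t x : MX E r (s p)) : QB) = σ (x : QB)) →
          σ (s p) ≠ s p ∧ ¬ SqSc E r σ) := by
    intro p
    by_cases hp : p ∈ S
    · obtain ⟨h1, h2, h3, h4⟩ := hms p hp
      obtain ⟨-, -, σ, hσ1, hσ2⟩ := hS p hp
      have hdM : ∀ [NumberField (MX E r (s p))], (discr (MX E r (s p))).natAbs ≤ Q := by
        intro _
        obtain ⟨-, hLG, hLf⟩ := LX_galois E r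
        obtain ⟨-, hMG, -⟩ := MX_galois E r h2
        refine (MX_discr E r h1.ne h2).trans ?_
        rw [← hDd, hQd]
        have e1 : 4 * (m p).natAbs ≤ D ^ (24 * r + 1) := by
          calc 4 * (m p).natAbs ≤ 4 * (6 * r * D) := Nat.mul_le_mul_left _ h3
            _ = (24 * r) * D := by ring
            _ ≤ D ^ (24 * r) * D := Nat.mul_le_mul_right _ hc24
            _ = D ^ (24 * r + 1) := (pow_succ _ _).symm
        calc (4 * (m p).natAbs) ^ Module.finrank ℚ (LX E r) * D ^ 2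
            ≤ (D ^ (24 * r + 1)) ^ Module.finrank ℚ (LX E r) * D ^ 2 :=
              Nat.mul_le_mul_right _ (Nat.pow_le_pow_left e1 _)
          _ ≤ (D ^ (24 * r + 1)) ^ n * D ^ 2 := by
              refine Nat.mul_le_mul_right _ (Nat.pow_le_pow_right (Nat.one_le_pow _ _ hD1) ?_)
              rw [hn]
              exact hLf.trans (by omega)
          _ = D ^ ((24 * r + 1) * n + 2) := by rw [← pow_mul, ← pow_add]
      obtain ⟨F, hF1, hF2⟩ := good_one E r hF h1 h2 ⟨σ, fun h => hσ1 ((h4 σ).2 h), hσ2⟩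
        hn.ge (by positivity : 0 < 6 * r) hRQ hdM hwM
      exact ⟨F, fun _ => ⟨hF1, hF2⟩⟩
    · exact ⟨∅, fun h => absurd h hp⟩
  choose F hFF using hgood
  obtain ⟨ℓ, hℓL, hℓ⟩ := avg hc ((Finset.range (Q ^ A₁)).filter Nat.Prime) w
    (fun ℓ hℓ => hw0 ℓ (Finset.mem_filter.1 hℓ).2) hw2 S hne (fun p => Real.log p)
    (fun p hp => Real.log_natCast_nonneg p) F (fun p hp => ⟨fun ℓ hℓ => by
      obtain ⟨h1, h2, -⟩ := (hFF p hp).2 ℓ hℓ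
      exact Finset.mem_filter.2 ⟨Finset.mem_range.2 h2, h1⟩, (hFF p hp).1⟩)
  obtain ⟨hℓX, hℓp⟩ := Finset.mem_filter.1 hℓL
  rw [Finset.mem_range] at hℓX
  have hfl : Fact ℓ.Prime := ⟨hℓp⟩
  have hlogS : ∑ p ∈ S, Real.log p = Real.log ((∏ p ∈ S, p : ℕ) : ℝ) := by
    rw [Nat.cast_prod, Real.log_prod]
    intro p hp
    have h1 := (hS p hp).1
    have : p ≠ 0 := by omega
    exact_mod_cast this
  have hprodpos : (0 : ℝ) < ((∏ p ∈ S, p : ℕ) : ℝ) := by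
    have : 0 < ∏ p ∈ S, p := Finset.prod_pos fun p hp => by
      have h1 := (hS p hp).1
      omega
    exact_mod_cast this
  -- the bound for the good primes of `ℓ`
  have hS' : ∑ p ∈ S with ℓ ∈ F p, Real.log p ≤ Real.log (((2 * ℓ) ^ 2 : ℕ) : ℝ) := by
    rcases (S.filter fun p => ℓ ∈ F p).eq_empty_or_nonempty with he | hne'
    · rw [he, Finset.sum_empty]
      exact Real.log_natCast_nonneg _
    · obtain ⟨p₀, hp₀⟩ := hne'
      obtain ⟨hp₀S, hp₀F⟩ := Finset.mem_filter.1 hp₀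
      obtain ⟨-, -, hℓR, -⟩ := (hFF p₀ hp₀S).2 ℓ hp₀F
      have hℓ5 : 5 ≤ ℓ := by
        have h2 := hℓp.two_le
        by_contra hlt
        rw [not_le] at hlt
        have hc' : ℓ = 2 ∨ ℓ = 3 ∨ ℓ = 4 := by omega
        rcases hc' with h | h | h
        · exact hℓR ⟨3 * r, by rw [h]; ring⟩
        · exact hℓR ⟨2 * r, by rw [h]; ring⟩
        · rw [h] at hℓp
          exact absurd hℓp (by norm_num)
      have hℓr : ℓ ≠ r := fun h => hℓR (by rw [h]; exact Dvd.intro_left _ rfl)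
      have h1 := loc_all E hj0 hj1 r ℓ hℓ5 hℓr (S.filter fun p => ℓ ∈ F p) ⟨p₀, hp₀⟩ y
        (fun p hp => ⟨(hS p (Finset.mem_filter.1 hp).1).1, (hS p (Finset.mem_filter.1 hp).1).2.1⟩)
        s m (fun p hp => (hms p (Finset.mem_filter.1 hp).1).2.1)
        (fun p hp => (hms p (Finset.mem_filter.1 hp).1).2.2.2)
        (fun p hp => ((hFF p (Finset.mem_filter.1 hp).1).2 ℓ (Finset.mem_filter.1 hp).2).2.2.2)
      have h2 : ∑ p ∈ S with ℓ ∈ F p, Real.log p =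
          Real.log ((∏ p ∈ S with ℓ ∈ F p, p : ℕ) : ℝ) := by
        rw [Nat.cast_prod, Real.log_prod]
        intro p hp
        have h1 := (hS p (Finset.mem_filter.1 hp).1).1
        have : p ≠ 0 := by omega
        exact_mod_cast this
      rw [h2]
      apply Real.log_le_log
      · have : 0 < ∏ p ∈ S with ℓ ∈ F p, p := Finset.prod_pos fun p hp => by
          have h1 := (hS p (Finset.mem_filter.1 hp).1).1
          omega
        exact_mod_cast this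
      · exact_mod_cast h1
  have hlog0 : 0 ≤ Real.log (((2 * ℓ) ^ 2 : ℕ) : ℝ) := Real.log_natCast_nonneg _
  have hfin : Real.log ((∏ p ∈ S, p : ℕ) : ℝ) ≤ Real.log ((((2 * ℓ) ^ 2) ^ K : ℕ) : ℝ) := by
    have h1 : c / 2 * Real.log ((∏ p ∈ S, p : ℕ) : ℝ) ≤ Real.log (((2 * ℓ) ^ 2 : ℕ) : ℝ) := by
      rw [← hlogS]
      exact hℓ.trans hS'
    have h2 : Real.log ((∏ p ∈ S, p : ℕ) : ℝ) ≤ 2 / c * Real.log (((2 * ℓ) ^ 2 : ℕ) : ℝ) := by
      have h3 : 2 / c * (c / 2 * Real.log ((∏ p ∈ S, p : ℕ) : ℝ)) =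
          Real.log ((∏ p ∈ S, p : ℕ) : ℝ) := by
        field_simp
      rw [← h3]
      exact mul_le_mul_of_nonneg_left h1 (by positivity)
    have h3 : Real.log ((((2 * ℓ) ^ 2) ^ K : ℕ) : ℝ) =
        (K : ℝ) * Real.log (((2 * ℓ) ^ 2 : ℕ) : ℝ) := by
      rw [Nat.cast_pow ((2 * ℓ) ^ 2) K, Real.log_pow]
    rw [h3]
    exact h2.trans (mul_le_mul_of_nonneg_right hK hlog0)
  have hℓ0 : 0 < ℓ := hℓp.pos
  have hfin2 : ∏ p ∈ S, p ≤ ((2 * ℓ) ^ 2) ^ K := by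
    have h1 : (0 : ℝ) < ((((2 * ℓ) ^ 2) ^ K : ℕ) : ℝ) := by
      have : 0 < ((2 * ℓ) ^ 2) ^ K := by positivity
      exact_mod_cast this
    have h2 := (Real.log_le_log_iff hprodpos h1).1 hfin
    exact_mod_cast h2
  refine hfin2.trans ?_
  rw [← hDd, pow_mul, pow_mul]
  refine Nat.pow_le_pow_left (Nat.pow_le_pow_left ?_ 2) K
  calc 2 * ℓ ≤ D * Q ^ A₁ := Nat.mul_le_mul (by omega) hℓX.le
    _ = D ^ (((24 * r + 1) * n + 2) * A₁ + 1) := by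
        rw [hQd, ← pow_mul, pow_succ, mul_comm]

/-- THEOREM CP++: the product of all nonsplit primes -/
theorem cpx_main (r : ℕ) [Fact r.Prime] : ∃ A : ℕ, ∀ (E : WeierstrassCurve ℚ) [E.IsElliptic],
    E.j ≠ 0 → E.j ≠ 1728 → FewSq E r → ∀ [NumberField (LX E r)] (S : Finset ℕ) (y : ℕ → QB),
    (∀ p ∈ S, 29 ≤ p ∧ NonsplitWith E p (y p)) →
    ∏ p ∈ S, p ≤ (discr (LX E r)).natAbs ^ A := by
  classical
  obtain ⟨A₁, h₁⟩ := part_one r
  obtain ⟨A₂, h₂⟩ := part_two r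
  refine ⟨A₁ + A₂, ?_⟩
  intro E _ hj0 hj1 hF _ S y hS
  rw [pow_add, ← Finset.prod_filter_mul_prod_filter_not S (fun p =>
    ∀ σ : GQ, (∃ n : ℤ, ∀ v : TT E r, (rhoQ E r σ).1 v = n • v) → σ (y p) = y p)]
  refine Nat.mul_le_mul ?_ ?_
  · refine h₁ E hj0 hj1 hF _ y fun p hp => ?_
    obtain ⟨h3, h4⟩ := Finset.mem_filter.1 hp
    exact ⟨(hS p h3).1, (hS p h3).2, h4⟩
  · refine h₂ E hj0 hj1 hF _ y fun p hp => ?_
    obtain ⟨h3, h4⟩ := Finset.mem_filter.1 hp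
    push Not at h4
    obtain ⟨σ, h5, h6⟩ := h4
    exact ⟨(hS p h3).1, (hS p h3).2, σ, h6, h5⟩

end Pool.Agent.H85.CPX
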