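import Pool.Agent.H85.CP.Eul

/-!
# [H85 CPX ZNE] `ζ_k` has no zeros in `Re s > 1`, and `|ζ_k(u)| ≥ 1` for real `u > 1`

* `zk_one_le`: `zk k u = ∑' I ≠ ⊥, (N I)^(-u)`; for real `u` all terms are the complex numbers of the real numbers `(N I)^(-u) ≥ 0`, the term of `I = ⊤` is `1`; summable
  (`H63.MA.ideal_summable`, see `H85/CP/Eul.lean`). So the real part is `≥ 1`.
* `zk_ne`: let `u = Re s > 1`. For a prime `v` (`N v ≥ 2`): `‖(1 - N v^(-s))⁻¹‖ ≥ (1 + N v^(-u))⁻¹ ≥ 1 - N v^(-u) = ‖(1 - N v^(-u))⁻¹‖⁻¹`. So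
  `‖∏_{ℓ<Y} EF k ℓ s‖ ≥ ‖∏_{ℓ<Y} EF k ℓ u‖⁻¹` for all `Y`; both products converge (`euler`), the limit of the right side is `‖zk k u‖⁻¹ > 0` (`zk_one_le`), so
  `‖zk k s‖ ≥ ‖zk k u‖⁻¹ > 0`.
-/

set_option autoImplicit false

namespace Pool.Agent.H85.CPX

open NumberField Pool.Agent.H85.CP

theorem zk_one_le (k : Type) [Field k] [NumberField k] {u : ℝ} (hu : 1 < u) :
    1 ≤ ‖zk k ((u : ℝ) : ℂ)‖ := by
  have hterm : ∀ I : {I : Ideal (𝓞 k) // I ≠ ⊥},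
      (Ideal.absNorm (I : Ideal (𝓞 k)) : ℂ) ^ (-((u : ℝ) : ℂ)) =
        (((Ideal.absNorm (I : Ideal (𝓞 k)) : ℝ) ^ (-u) : ℝ) : ℂ) := by
    intro I
    rw [Complex.ofReal_cpow (Nat.cast_nonneg _)]
    push_cast
    rfl
  have hsum : Summable fun I : {I : Ideal (𝓞 k) // I ≠ ⊥} =>
      (Ideal.absNorm (I : Ideal (𝓞 k)) : ℝ) ^ (-u) := by
    refine ((H63.MA.ideal_summable k hu).subtype {I : Ideal (𝓞 k) | I ≠ ⊥}).congr fun I => ?_
    exact if_neg I.2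
  unfold zk
  simp only [hterm]
  rw [← Complex.ofReal_tsum, Complex.norm_real]
  refine le_trans ?_ (le_abs_self _)
  have h1 := hsum.le_tsum (⟨⊤, top_ne_bot⟩ : {I : Ideal (𝓞 k) // I ≠ ⊥})
    (fun I _ => Real.rpow_nonneg (Nat.cast_nonneg _) _)
  simpa using h1

private theorem one_le_fac {n : ℕ} (hn : 2 ≤ n) {s : ℂ} (hs : 1 < s.re) :
    1 ≤ ‖(1 - (n : ℂ) ^ (-s))⁻¹‖ * ‖(1 - (n : ℂ) ^ (-((s.re : ℝ) : ℂ)))⁻¹‖ := by
  have hn0 : 0 < n := by omega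
  have h1 : ‖(n : ℂ) ^ (-s)‖ = (n : ℝ) ^ (-s.re) := by
    rw [Complex.norm_natCast_cpow_of_pos hn0, Complex.neg_re]
  have h2 : (n : ℂ) ^ (-((s.re : ℝ) : ℂ)) = (((n : ℝ) ^ (-s.re) : ℝ) : ℂ) := by
    rw [Complex.ofReal_cpow (Nat.cast_nonneg _)]
    push_cast
    rfl
  set r : ℝ := (n : ℝ) ^ (-s.re) with hr
  have hr0 : 0 < r := Real.rpow_pos_of_pos (by exact_mod_cast hn0) _
  have hr1 : r < 1 := by
    rw [hr]
    apply Real.rpow_lt_one_of_one_lt_of_neg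
    · have : (2 : ℝ) ≤ n := by exact_mod_cast hn
      linarith
    · linarith
  have h3 : ‖(1 : ℂ) - (n : ℂ) ^ (-s)‖ ≤ 1 + r := by
    refine (norm_sub_le _ _).trans ?_
    rw [h1, norm_one]
  have h4 : 1 - r ≤ ‖(1 : ℂ) - (n : ℂ) ^ (-s)‖ := by
    have := norm_sub_norm_le (1 : ℂ) ((n : ℂ) ^ (-s))
    rw [h1, norm_one] at this
    exact this
  have h5 : ‖(1 : ℂ) - ((r : ℝ) : ℂ)‖ = 1 - r := by
    rw [← Complex.ofReal_one, ← Complex.ofReal_sub, Complex.norm_real, Real.norm_eq_abs,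
      abs_of_pos (by linarith)]
  rw [h2, norm_inv, norm_inv, h5, ← mul_inv]
  apply (one_le_inv₀ (mul_pos (by linarith) (by linarith))).2
  calc ‖(1 : ℂ) - (n : ℂ) ^ (-s)‖ * (1 - r) ≤ (1 + r) * (1 - r) :=
        mul_le_mul_of_nonneg_right h3 (by linarith)
    _ = 1 - r ^ 2 := by ring
    _ ≤ 1 := by nlinarith

theorem zk_ne (k : Type) [Field k] [NumberField k] {s : ℂ} (hs : 1 < s.re) : zk k s ≠ 0 := by
  have h1 := (euler k s hs).norm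
  have h2 := (euler k ((s.re : ℝ) : ℂ) (by rw [Complex.ofReal_re]; exact hs)).norm
  have h3 := h1.mul h2
  have h4 : 1 ≤ ‖zk k s‖ * ‖zk k ((s.re : ℝ) : ℂ)‖ := by
    refine ge_of_tendsto' h3 fun Y => ?_
    rw [norm_prod, norm_prod, ← Finset.prod_mul_distrib]
    refine Finset.one_le_prod fun ℓ hℓ => ?_
    have hp : ℓ.Prime := (Finset.mem_filter.1 hℓ).2
    unfold EF
    rw [norm_prod, norm_prod, ← Finset.prod_mul_distrib]
    refine Finset.one_le_prod fun v hv => ?_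
    obtain ⟨f, hf, hv1⟩ := norm_Pr hp hv
    refine one_le_fac ?_ hs
    rw [hv1]
    calc 2 ≤ ℓ := hp.two_le
      _ = ℓ ^ 1 := (pow_one _).symm
      _ ≤ ℓ ^ f := Nat.pow_le_pow_right hp.pos hf
  intro h0
  rw [h0, norm_zero, zero_mul] at h4
  linarith

end Pool.Agent.H85.CPX
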