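import Pool.Agent.H85.CP.ZC
import Pool.Agent.H85.CPX.Zne
import Pool.Agent.H43.LF.Lan

/-!
# [H85 CPX LAN] The quotient `ζ_k(1+a) / ζ_k(1+2a)`

Proof. `zeta_cont n` gives `A, C₀` and `Z` with `Z s = (s-1) zk k s` for `Re s > 1`, holomorphic for `Re s > 1 - 1/n`, `‖Z s‖ ≤ C₀ |d|^A` for `‖s-2‖ ≤ 1 + 1/(2n)`.
Enlarge `C₀ ≥ 1`; `|d| ≥ 1`. `zk_one_le`: `‖zk k u‖ ≥ 1` for real `u > 1`; `zk_ne`: `zk k s ≠ 0` for `Re s > 1`.
For real `u ∈ (1, 2]` apply `Pool.Agent.H43.LF.landau` to `f z = Z (u + z)`, `R = 1/(2n)`: the ball lies in the disc (`‖u + z - 2‖ ≤ (2 - u) + R`) and in `Re s > 1 - 1/n`,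
`‖f z‖ ≤ C₀ |d|^A ≤ exp M ‖f 0‖` with `M = log (C₀ |d|^A / (u-1)) ≥ 0` as `‖f 0‖ = (u-1) ‖zk k u‖ ≥ u - 1`; no zeros for `Re z > 0` since `Re (u+z) > 1`. So
`Re (Z'/Z)(u) ≥ -4 n log (C₀ |d|^A/(u-1)) ≥ -L` for `u ∈ [1+a, 1+2a]` (`≤ 2`), `L = 4 n log (C₀ Q^A / a)`. The function `u ↦ log ‖Z u‖ + L u` has derivative
`Re (Z'/Z)(u) + L ≥ 0` (for instance `log ‖Z u‖ = (1/2) log (normSq (Z u))`), so
`‖Z (1+a)‖ ≤ exp (L a) ‖Z (1+2a)‖`, i.e. `a ‖zk (1+a)‖ ≤ exp (L a) 2 a ‖zk (1+2a)‖`. Finally `L ≤ C log (Q/a)` for a `C` depending only on `n` (`Q ≥ 2`, `a ≤ 1/2`, so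
`log (Q/a) ≥ log Q`, `≥ log (1/a)`, `≥ log 4 > 1`; `|d| ≤ Q`).
-/

set_option autoImplicit false

namespace Pool.Agent.H85.CPX

open NumberField Pool.Agent.H85.CP

private theorem lan_mono {Z : ℂ → ℂ} {L x y : ℝ} (hxy : x ≤ y)
    (hd : ∀ u : ℝ, x ≤ u → u ≤ y → DifferentiableAt ℂ Z (u : ℂ))
    (hre : ∀ u : ℝ, x ≤ u → u ≤ y → -L ≤ (deriv Z (u : ℂ) / Z (u : ℂ)).re) :
    ‖Z (x : ℂ)‖ ≤ Real.exp (L * (y - x)) * ‖Z (y : ℂ)‖ := by
  set h : ℝ → ℝ := fun u => ‖Z (u : ℂ)‖ ^ 2 * Real.exp (2 * L * u) with hh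
  have hD : ∀ u : ℝ, x ≤ u → u ≤ y → HasDerivAt h
      (2 * inner ℝ (Z (u : ℂ)) (deriv Z (u : ℂ)) * Real.exp (2 * L * u) +
        ‖Z (u : ℂ)‖ ^ 2 * (Real.exp (2 * L * u) * (2 * L))) u := by
    intro u h1 h2
    have h3 : HasDerivAt (fun v : ℝ => Z (v : ℂ)) (deriv Z (u : ℂ)) u := (hd u h1 h2).hasDerivAt.comp_ofReal
    have h4 := h3.norm_sq
    have h5 : HasDerivAt (fun v : ℝ => Real.exp (2 * L * v)) (Real.exp (2 * L * u) * (2 * L)) u := by
      have h6 : HasDerivAt (fun v : ℝ => 2 * L * v) (2 * L) u := by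
        simpa using (hasDerivAt_id u).const_mul (2 * L)
      exact h6.exp
    exact h4.mul h5
  have hmono : MonotoneOn h (Set.Icc x y) := by
    refine monotoneOn_of_deriv_nonneg (convex_Icc x y) ?_ ?_ ?_
    · intro u hu
      exact (hD u hu.1 hu.2).continuousAt.continuousWithinAt
    · intro u hu
      rw [interior_Icc] at hu
      exact (hD u hu.1.le hu.2.le).differentiableAt.differentiableWithinAt
    · intro u hu
      rw [interior_Icc] at hu
      rw [(hD u hu.1.le hu.2.le).deriv]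
      have h1 := hre u hu.1.le hu.2.le
      have h2 : inner ℝ (Z (u : ℂ)) (deriv Z (u : ℂ)) = ‖Z (u : ℂ)‖ ^ 2 * (deriv Z (u : ℂ) / Z (u : ℂ)).re := by
        by_cases h0 : Z (u : ℂ) = 0
        · rw [h0]
          simp
        · have h3 : (deriv Z (u : ℂ) / Z (u : ℂ)).re =
              (deriv Z (u : ℂ) * (starRingEnd ℂ) (Z (u : ℂ))).re / ‖Z (u : ℂ)‖ ^ 2 := by
            rw [div_eq_mul_inv, Complex.inv_def, ← mul_assoc, ← Complex.normSq_eq_norm_sq,
              Complex.re_mul_ofReal, div_eq_mul_inv]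
          have h4 : ‖Z (u : ℂ)‖ ^ 2 ≠ 0 := pow_ne_zero _ (norm_ne_zero_iff.2 h0)
          rw [h3, mul_div_cancel₀ _ h4, Complex.inner]
      rw [h2]
      have h5 : 0 ≤ ‖Z (u : ℂ)‖ ^ 2 := sq_nonneg _
      have h6 : 0 < Real.exp (2 * L * u) := Real.exp_pos _
      have h7 : 2 * (‖Z (u : ℂ)‖ ^ 2 * (deriv Z (u : ℂ) / Z (u : ℂ)).re) * Real.exp (2 * L * u) +
          ‖Z (u : ℂ)‖ ^ 2 * (Real.exp (2 * L * u) * (2 * L)) =
          2 * ‖Z (u : ℂ)‖ ^ 2 * Real.exp (2 * L * u) * ((deriv Z (u : ℂ) / Z (u : ℂ)).re + L) := by ring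
      rw [h7]
      exact mul_nonneg (mul_nonneg (mul_nonneg (by norm_num) h5) h6.le) (by linarith)
  have h1 : h x ≤ h y := hmono ⟨le_rfl, hxy⟩ ⟨hxy, le_rfl⟩ hxy
  simp only [hh] at h1
  have h2 : ‖Z (x : ℂ)‖ ^ 2 ≤ (Real.exp (L * (y - x)) * ‖Z (y : ℂ)‖) ^ 2 := by
    have h3 : 0 < Real.exp (2 * L * x) := Real.exp_pos _
    have h4 : (Real.exp (L * (y - x)) * ‖Z (y : ℂ)‖) ^ 2 * Real.exp (2 * L * x) =
        ‖Z (y : ℂ)‖ ^ 2 * Real.exp (2 * L * y) := by
      have e : Real.exp (2 * L * y) = Real.exp (L * (y - x)) ^ 2 * Real.exp (2 * L * x) := by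
        rw [← Real.exp_nat_mul, ← Real.exp_add]
        congr 1
        push_cast
        ring
      rw [e]
      ring
    rw [← h4] at h1
    exact le_of_mul_le_mul_right h1 h3
  exact abs_le_of_sq_le_sq' h2 (mul_nonneg (Real.exp_pos _).le (norm_nonneg _)) |>.2

theorem zk_ratio (n : ℕ) (hn : 0 < n) : ∃ C : ℝ, 0 < C ∧ ∀ (k : Type) [Field k] [NumberField k],
    Module.finrank ℚ k ≤ n → ∀ Q a : ℝ, 2 ≤ Q → |(discr k : ℝ)| ≤ Q → 0 < a → a ≤ 1 / 2 →
    ‖zk k ((1 + a : ℝ) : ℂ)‖ ≤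
      2 * Real.exp (C * a * Real.log (Q / a)) * ‖zk k ((1 + 2 * a : ℝ) : ℂ)‖ := by
  obtain ⟨A, C₀, hC₀, hZ⟩ := zeta_cont n hn
  have hn' : (1 : ℝ) ≤ n := by exact_mod_cast hn
  set C₁ : ℝ := max C₀ 1 with hC₁
  have hC₁1 : 1 ≤ C₁ := le_max_right _ _
  have hlC₁ : 0 ≤ Real.log C₁ := Real.log_nonneg hC₁1
  refine ⟨4 * n * (Real.log C₁ + A + 1), by positivity, ?_⟩
  intro k _ _ hk Q a hQ hdQ ha ha2
  obtain ⟨Z, hZd, hZe, hZb, -⟩ := hZ k hk
  set D : ℝ := |(discr k : ℝ)| with hD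
  have hD1 : 1 ≤ D := by
    have h1 : discr k ≠ 0 := discr_ne_zero k
    have h2 : 1 ≤ |discr k| := Int.one_le_abs h1
    rw [hD]
    exact_mod_cast h2
  set B : ℝ := C₁ * D ^ A with hB
  have hB1 : 1 ≤ B := one_le_mul_of_one_le_of_one_le hC₁1 (one_le_pow₀ hD1)
  have hB0 : 0 < B := by linarith
  have hopen : IsOpen {s : ℂ | 1 - 1 / (n : ℝ) < s.re} := isOpen_lt continuous_const Complex.continuous_re
  have hn0 : (0 : ℝ) < n := by linarith
  have hR0 : (0 : ℝ) < 1 / (2 * n) := by positivity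
  have hRn : 1 / (2 * (n : ℝ)) < 1 / n := by
    rw [div_lt_div_iff₀ (by positivity) hn0]
    linarith
  -- lower bound for the logarithmic derivative
  have hlog : ∀ u : ℝ, 1 + a ≤ u → u ≤ 1 + 2 * a →
      -(4 * n * Real.log (B / a)) ≤ (deriv Z (u : ℂ) / Z (u : ℂ)).re := by
    intro u h1 h2
    have hu1 : 0 < u - 1 := by linarith
    have hu2 : u ≤ 2 := by linarith
    have hnorm : ‖Z (u : ℂ)‖ = (u - 1) * ‖zk k (u : ℂ)‖ := by
      rw [hZe (u : ℂ) (by rw [Complex.ofReal_re]; linarith), norm_mul]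
      congr 1
      rw [← Complex.ofReal_one, ← Complex.ofReal_sub, Complex.norm_real, Real.norm_eq_abs, abs_of_pos hu1]
    have hge : u - 1 ≤ ‖Z (u : ℂ)‖ := by
      rw [hnorm]
      exact le_mul_of_one_le_right hu1.le (zk_one_le k (by linarith))
    have hM : 0 ≤ Real.log (B / (u - 1)) := by
      apply Real.log_nonneg
      rw [le_div_iff₀ hu1]
      linarith
    have hsub : ∀ z ∈ Metric.closedBall (0 : ℂ) (1 / (2 * n)), ((u : ℂ) + z) ∈ {s : ℂ | 1 - 1 / (n : ℝ) < s.re} := by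
      intro z hz
      rw [mem_closedBall_zero_iff] at hz
      have h3 := (Complex.abs_re_le_norm z).trans hz
      rw [abs_le] at h3
      change 1 - 1 / (n : ℝ) < ((u : ℂ) + z).re
      rw [Complex.add_re, Complex.ofReal_re]
      linarith [h3.1]
    have hla := (Pool.Agent.H43.LF.landau (f := fun z => Z ((u : ℂ) + z)) (R := 1 / (2 * n))
      (M := Real.log (B / (u - 1))) hR0 hM ?_ ?_ ?_ ?_).1
    · have hder : deriv (fun z => Z ((u : ℂ) + z)) 0 = deriv Z (u : ℂ) := by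
        rw [deriv_comp_const_add, add_zero]
      rw [hder, add_zero] at hla
      refine le_trans ?_ hla
      have h3 : 2 * Real.log (B / (u - 1)) / (1 / (2 * n)) = 4 * n * Real.log (B / (u - 1)) := by
        field_simp
        ring
      rw [h3]
      apply neg_le_neg
      apply mul_le_mul_of_nonneg_left _ (by positivity)
      apply Real.log_le_log (by positivity)
      apply div_le_div_of_nonneg_left hB0.le ha
      linarith
    · intro z hz
      have h3 : DifferentiableOn ℂ (fun z => Z ((u : ℂ) + z)) ((fun z => (u : ℂ) + z) ⁻¹' {s : ℂ | 1 - 1 / (n : ℝ) < s.re}) :=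
        hZd.comp (by fun_prop) (fun z hz => hz)
      exact h3.analyticAt ((hopen.preimage (by fun_prop)).mem_nhds (hsub z hz))
    · rw [add_zero, ← norm_pos_iff]
      linarith
    · intro z hz
      have h3 : Real.exp (Real.log (B / (u - 1))) = B / (u - 1) := Real.exp_log (by positivity)
      rw [h3, add_zero]
      have h4 : B ≤ B / (u - 1) * ‖Z (u : ℂ)‖ := by
        calc B = B / (u - 1) * (u - 1) := by field_simp
          _ ≤ B / (u - 1) * ‖Z (u : ℂ)‖ := mul_le_mul_of_nonneg_left hge (by positivity)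
      refine le_trans ?_ h4
      rw [mem_closedBall_zero_iff] at hz
      have h5 : ‖((u : ℂ) + z) - 2‖ ≤ 1 + 1 / (2 * n) := by
        have h6 : ((u : ℂ) + z) - 2 = ((u - 2 : ℝ) : ℂ) + z := by
          push_cast
          ring
        rw [h6]
        refine (norm_add_le _ _).trans ?_
        rw [Complex.norm_real, Real.norm_eq_abs, abs_of_nonpos (by linarith)]
        linarith
      refine (hZb _ h5).trans ?_
      exact mul_le_mul_of_nonneg_right (le_max_left _ _) (by positivity)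
    · intro z _ hz
      have h3 : 1 < ((u : ℂ) + z).re := by
        rw [Complex.add_re, Complex.ofReal_re]
        linarith
      rw [hZe _ h3]
      refine mul_ne_zero ?_ (zk_ne k h3)
      intro h4
      rw [sub_eq_zero] at h4
      rw [h4, Complex.one_re] at h3
      exact lt_irrefl _ h3
  have hmain := lan_mono (Z := Z) (L := 4 * n * Real.log (B / a)) (x := 1 + a) (y := 1 + 2 * a) (by linarith)
    (fun u h1 h2 => by
      have h3 : (u : ℂ) ∈ {s : ℂ | 1 - 1 / (n : ℝ) < s.re} := by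
        change 1 - 1 / (n : ℝ) < (u : ℂ).re
        rw [Complex.ofReal_re]
        have : 0 < 1 / (n : ℝ) := by positivity
        linarith
      exact (hZd _ h3).differentiableAt (hopen.mem_nhds h3)) hlog
  have hv : ∀ x : ℝ, 0 < x → ‖Z ((1 + x : ℝ) : ℂ)‖ = x * ‖zk k ((1 + x : ℝ) : ℂ)‖ := by
    intro x hx
    rw [hZe _ (by rw [Complex.ofReal_re]; linarith), norm_mul]
    congr 1
    rw [← Complex.ofReal_one, ← Complex.ofReal_sub, Complex.norm_real, Real.norm_eq_abs, add_sub_cancel_left,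
      abs_of_pos hx]
  rw [hv a ha, hv (2 * a) (by linarith)] at hmain
  have e1 : (1 + 2 * a) - (1 + a) = a := by ring
  rw [e1] at hmain
  have h3 : ‖zk k ((1 + a : ℝ) : ℂ)‖ ≤ 2 * Real.exp (4 * n * Real.log (B / a) * a) * ‖zk k ((1 + 2 * a : ℝ) : ℂ)‖ := by
    have h4 : a * ‖zk k ((1 + a : ℝ) : ℂ)‖ ≤
        a * (2 * Real.exp (4 * n * Real.log (B / a) * a) * ‖zk k ((1 + 2 * a : ℝ) : ℂ)‖) := by
      refine hmain.trans (le_of_eq ?_)
      ring
    exact le_of_mul_le_mul_left h4 ha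
  refine h3.trans ?_
  apply mul_le_mul_of_nonneg_right _ (norm_nonneg _)
  apply mul_le_mul_of_nonneg_left _ (by norm_num)
  rw [Real.exp_le_exp]
  have hQ0 : 0 < Q := by linarith
  have hlQa : Real.log (Q / a) = Real.log Q + Real.log (1 / a) := by
    rw [← Real.log_mul hQ0.ne' (by positivity)]
    congr 1
    ring
  have hlQ : 0 ≤ Real.log Q := Real.log_nonneg (by linarith)
  have hla : 0 ≤ Real.log (1 / a) := by
    apply Real.log_nonneg
    rw [le_div_iff₀ ha]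
    linarith
  have h1Q : 1 ≤ Real.log (Q / a) := by
    have h4 : Real.log 4 ≤ Real.log (Q / a) := by
      apply Real.log_le_log (by norm_num)
      rw [le_div_iff₀ ha]
      linarith
    have h5 : Real.log 4 = 2 * Real.log 2 := by
      rw [show (4 : ℝ) = 2 ^ 2 by norm_num, Real.log_pow]
      norm_num
    have h6 := Real.log_two_gt_d9
    linarith
  have hBa : Real.log (B / a) ≤ (Real.log C₁ + A + 1) * Real.log (Q / a) := by
    have h4 : Real.log (B / a) = Real.log C₁ + A * Real.log D + Real.log (1 / a) := by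
      rw [← Real.log_pow, ← Real.log_mul (by positivity) (by positivity), ← Real.log_mul (by positivity) (by positivity)]
      congr 1
      ring
    have h5 : Real.log D ≤ Real.log Q := Real.log_le_log (by linarith) hdQ
    have h6 : (A : ℝ) * Real.log D ≤ A * Real.log (Q / a) :=
      mul_le_mul_of_nonneg_left (by linarith) (Nat.cast_nonneg A)
    have h7 : Real.log C₁ ≤ Real.log C₁ * Real.log (Q / a) := le_mul_of_one_le_right hlC₁ h1Q
    rw [h4]
    linarith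
  calc 4 * n * Real.log (B / a) * a ≤ 4 * n * ((Real.log C₁ + A + 1) * Real.log (Q / a)) * a := by
        apply mul_le_mul_of_nonneg_right _ ha.le
        exact mul_le_mul_of_nonneg_left hBa (by positivity)
    _ = 4 * n * (Real.log C₁ + A + 1) * a * Real.log (Q / a) := by ring

end Pool.Agent.H85.CPX
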