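import Pool.Agent.H85.CPX.Wn

/-!
# [H85 CPX TOT] The total weight

For real `s > 1` let `L s Y = ∑_{ℓ < Y} -log (1 - ℓ^(-s))` (primes). It increases with `Y` to `log ζ(s)` (Euler product, `riemannZeta_eulerProduct` for a real argument,
or `riemannZeta_eulerProduct_exp_log`; real and positive), and `1/(s-1) ≤ ζ(s) ≤ s/(s-1)` for real `s > 1` (comparison with the integral; look in Mathlib / the library
for such bounds before proving them: `tsum` of `n^(-s)`).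
* `tot_upper`: `∑_{ℓ < X} wt a ℓ = L (1+a) X - L (1+2a) X ≤ log ζ(1+a) - log ζ(1+2a)` (all terms `wt ≥ 0`: the differences increase to the limit)
  `≤ log ((1+a)/a · 2a) = log (2 (1+a)) ≤ log 3 ≤ 2`.
* `tot_lower`: the full sum (limit) is `log ζ(1+a) - log ζ(1+2a) ≥ log (1/a · 2a/(1+2a)) = log 2 - log (1+2a) ≥ log 2 - 2a`. The tail over `X ≤ ℓ < Y`:
  by `shift` and `ℓ^(a/2) ≥ X^(a/2)`: `X^(a/2) ∑_{X ≤ ℓ < Y} wt a ℓ ≤ L (1+a/2) Y - L (1+3a/2) Y ≤ log ζ(1+a/2) - log ζ(1+3a/2)` (again increasing)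
  `≤ log ((1+a/2)/(a/2) · 3a/2) = log (3 (1+a/2)) ≤ log 4 ≤ 2`.
-/

set_option autoImplicit false

namespace Pool.Agent.H85.CPX

open Filter Topology

private noncomputable def tz (s : ℝ) : ℝ := ∑' n : ℕ, (n : ℝ) ^ (-s)

private theorem t_summ {s : ℝ} (hs : 1 < s) : Summable fun n : ℕ => (n : ℝ) ^ (-s) :=
  Real.summable_nat_rpow.2 (by linarith)

private theorem t_tele {t : ℝ} (ht : 0 < t) (n : ℕ) :
    t * ((n : ℝ) + 2) ^ (-(1 + t)) ≤ ((n : ℝ) + 1) ^ (-t) - ((n : ℝ) + 2) ^ (-t) ∧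
      ((n : ℝ) + 1) ^ (-t) - ((n : ℝ) + 2) ^ (-t) ≤ t * ((n : ℝ) + 1) ^ (-(1 + t)) := by
  have hn : (0 : ℝ) ≤ n := Nat.cast_nonneg n
  have h1 : (0 : ℝ) < (n : ℝ) + 1 := by linarith
  have h2 : (0 : ℝ) < (n : ℝ) + 2 := by linarith
  have e1 : ((n : ℝ) + 1) ^ (-t) = Real.exp (-t * Real.log ((n : ℝ) + 1)) := by
    rw [Real.rpow_def_of_pos h1, mul_comm]
  have e2 : ((n : ℝ) + 2) ^ (-t) = Real.exp (-t * Real.log ((n : ℝ) + 2)) := by
    rw [Real.rpow_def_of_pos h2, mul_comm]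
  have f1 : ((n : ℝ) + 1) ^ (-(1 + t)) = ((n : ℝ) + 1) ^ (-t) / ((n : ℝ) + 1) := by
    rw [show -(1 + t) = -t - 1 by ring, Real.rpow_sub_one h1.ne']
  have f2 : ((n : ℝ) + 2) ^ (-(1 + t)) = ((n : ℝ) + 2) ^ (-t) / ((n : ℝ) + 2) := by
    rw [show -(1 + t) = -t - 1 by ring, Real.rpow_sub_one h2.ne']
  have p1 : 0 < ((n : ℝ) + 1) ^ (-t) := Real.rpow_pos_of_pos h1 _
  have p2 : 0 < ((n : ℝ) + 2) ^ (-t) := Real.rpow_pos_of_pos h2 _
  constructor
  · rw [f2]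
    have h3 : ((n : ℝ) + 1) ^ (-t) = ((n : ℝ) + 2) ^ (-t) *
        Real.exp (t * (Real.log ((n : ℝ) + 2) - Real.log ((n : ℝ) + 1))) := by
      rw [e1, e2, ← Real.exp_add]
      congr 1
      ring
    have h4 := Real.add_one_le_exp (t * (Real.log ((n : ℝ) + 2) - Real.log ((n : ℝ) + 1)))
    have h5 : 1 / ((n : ℝ) + 2) ≤ Real.log ((n : ℝ) + 2) - Real.log ((n : ℝ) + 1) := by
      have h6 := Real.log_le_sub_one_of_pos (div_pos h1 h2)
      rw [Real.log_div h1.ne' h2.ne'] at h6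
      have h7 : ((n : ℝ) + 1) / ((n : ℝ) + 2) - 1 = -(1 / ((n : ℝ) + 2)) := by
        field_simp
        ring
      rw [h7] at h6
      linarith
    rw [h3]
    have h8 : t * (1 / ((n : ℝ) + 2)) + 1 ≤
        Real.exp (t * (Real.log ((n : ℝ) + 2) - Real.log ((n : ℝ) + 1))) := by
      refine le_trans ?_ h4
      have := mul_le_mul_of_nonneg_left h5 ht.le
      linarith
    have h9 := mul_le_mul_of_nonneg_left h8 p2.le
    have h10 : t * (((n : ℝ) + 2) ^ (-t) / ((n : ℝ) + 2)) + ((n : ℝ) + 2) ^ (-t) =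
        ((n : ℝ) + 2) ^ (-t) * (t * (1 / ((n : ℝ) + 2)) + 1) := by ring
    linarith
  · rw [f1]
    have h3 : ((n : ℝ) + 2) ^ (-t) = ((n : ℝ) + 1) ^ (-t) *
        Real.exp (-t * (Real.log ((n : ℝ) + 2) - Real.log ((n : ℝ) + 1))) := by
      rw [e1, e2, ← Real.exp_add]
      congr 1
      ring
    have h4 := Real.add_one_le_exp (-t * (Real.log ((n : ℝ) + 2) - Real.log ((n : ℝ) + 1)))
    have h5 : Real.log ((n : ℝ) + 2) - Real.log ((n : ℝ) + 1) ≤ 1 / ((n : ℝ) + 1) := by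
      have h6 := Real.log_le_sub_one_of_pos (div_pos h2 h1)
      rw [Real.log_div h2.ne' h1.ne'] at h6
      have h7 : ((n : ℝ) + 2) / ((n : ℝ) + 1) - 1 = 1 / ((n : ℝ) + 1) := by
        field_simp
        ring
      rw [h7] at h6
      linarith
    rw [h3]
    have h8 : -t * (1 / ((n : ℝ) + 1)) + 1 ≤
        Real.exp (-t * (Real.log ((n : ℝ) + 2) - Real.log ((n : ℝ) + 1))) := by
      refine le_trans ?_ h4
      have := mul_le_mul_of_nonneg_left h5 ht.le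
      linarith
    have h9 := mul_le_mul_of_nonneg_left h8 p1.le
    have h10 : ((n : ℝ) + 1) ^ (-t) * (-t * (1 / ((n : ℝ) + 1)) + 1) =
        ((n : ℝ) + 1) ^ (-t) - t * (((n : ℝ) + 1) ^ (-t) / ((n : ℝ) + 1)) := by ring
    linarith

private theorem tz_le {t : ℝ} (ht : 0 < t) : tz (1 + t) ≤ (1 + t) / t := by
  unfold tz
  have key : ∀ N : ℕ, ∑ i ∈ Finset.range (N + 2), (i : ℝ) ^ (-(1 + t)) ≤
      1 + (1 - ((N : ℝ) + 1) ^ (-t)) / t := by
    intro N
    induction N with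
    | zero =>
      rw [Finset.sum_range_succ, Finset.sum_range_one]
      rw [Nat.cast_zero, Real.zero_rpow (by linarith), Nat.cast_one, Real.one_rpow, zero_add,
        Real.one_rpow, sub_self, zero_div, add_zero]
    | succ N ih =>
      rw [Finset.sum_range_succ]
      have h1 := (t_tele ht N).1
      have h2 : ((N : ℝ) + 2) ^ (-(1 + t)) ≤
          (((N : ℝ) + 1) ^ (-t) - ((N : ℝ) + 2) ^ (-t)) / t := by
        rw [le_div_iff₀ ht]
        linarith
      have h3 : (((N + 2 : ℕ)) : ℝ) = (N : ℝ) + 2 := by push_cast; ring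
      have h4 : (((N + 1 : ℕ)) : ℝ) + 1 = (N : ℝ) + 2 := by push_cast; ring
      rw [h3, h4]
      have h5 : (1 - ((N : ℝ) + 1) ^ (-t)) / t + (((N : ℝ) + 1) ^ (-t) - ((N : ℝ) + 2) ^ (-t)) / t
          = (1 - ((N : ℝ) + 2) ^ (-t)) / t := by
        rw [← add_div]
        congr 1
        ring
      linarith
  apply Real.tsum_le_of_sum_range_le (fun n => Real.rpow_nonneg (Nat.cast_nonneg n) _)
  intro n
  have h1 : ∑ i ∈ Finset.range n, (i : ℝ) ^ (-(1 + t)) ≤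
      ∑ i ∈ Finset.range (n + 2), (i : ℝ) ^ (-(1 + t)) :=
    Finset.sum_le_sum_of_subset_of_nonneg (Finset.range_mono (by omega))
      fun i _ _ => Real.rpow_nonneg (Nat.cast_nonneg i) _
  refine h1.trans ((key n).trans ?_)
  have h2 : 0 ≤ ((n : ℝ) + 1) ^ (-t) := Real.rpow_nonneg (by positivity) _
  have h3 : (1 - ((n : ℝ) + 1) ^ (-t)) / t ≤ 1 / t :=
    div_le_div_of_nonneg_right (by linarith) ht.le
  have h4 : (1 + t) / t = 1 + 1 / t := by
    field_simp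
    ring
  linarith

private theorem le_tz {t : ℝ} (ht : 0 < t) : 1 / t ≤ tz (1 + t) := by
  unfold tz
  have key : ∀ N : ℕ, (1 - ((N : ℝ) + 1) ^ (-t)) / t ≤
      ∑ i ∈ Finset.range (N + 1), (i : ℝ) ^ (-(1 + t)) := by
    intro N
    induction N with
    | zero =>
      rw [Finset.sum_range_one]
      rw [Nat.cast_zero, Real.zero_rpow (by linarith), zero_add, Real.one_rpow, sub_self, zero_div]
    | succ N ih =>
      rw [Finset.sum_range_succ]
      have h1 := (t_tele ht N).2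
      have h2 : (((N : ℝ) + 1) ^ (-t) - ((N : ℝ) + 2) ^ (-t)) / t ≤
          ((N : ℝ) + 1) ^ (-(1 + t)) := by
        rw [div_le_iff₀ ht]
        linarith
      have h3 : (((N + 1 : ℕ)) : ℝ) = (N : ℝ) + 1 := by push_cast; ring
      have h4 : (N : ℝ) + 1 + 1 = (N : ℝ) + 2 := by ring
      rw [h3, h4]
      have h5 : (1 - ((N : ℝ) + 1) ^ (-t)) / t + (((N : ℝ) + 1) ^ (-t) - ((N : ℝ) + 2) ^ (-t)) / t
          = (1 - ((N : ℝ) + 2) ^ (-t)) / t := by
        rw [← add_div]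
        congr 1
        ring
      linarith
  have h1 : Tendsto (fun N : ℕ => (1 - ((N : ℝ) + 1) ^ (-t)) / t) atTop (𝓝 ((1 - 0) / t)) := by
    refine Tendsto.div_const (Tendsto.const_sub 1 ?_) t
    exact (tendsto_rpow_neg_atTop ht).comp
      (tendsto_atTop_add_const_right atTop 1 tendsto_natCast_atTop_atTop)
  rw [sub_zero] at h1
  refine le_of_tendsto' h1 fun N => (key N).trans ?_
  exact (t_summ (by linarith)).sum_le_tsum _ fun i _ => Real.rpow_nonneg (Nat.cast_nonneg i) _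

private theorem tz_pos {t : ℝ} (ht : 0 < t) : 0 < tz (1 + t) :=
  lt_of_lt_of_le (by positivity) (le_tz ht)

private noncomputable def tf (s : ℝ) (hs : s ≠ 0) : ℕ →*₀ ℝ where
  toFun n := (n : ℝ) ^ (-s)
  map_zero' := by rw [Nat.cast_zero, Real.zero_rpow (neg_ne_zero.2 hs)]
  map_one' := by rw [Nat.cast_one, Real.one_rpow]
  map_mul' m n := by
    rw [Nat.cast_mul, Real.mul_rpow (Nat.cast_nonneg _) (Nat.cast_nonneg _)]

private theorem t_lt {s : ℝ} (hs : 0 < s) {ℓ : ℕ} (hℓ : 2 ≤ ℓ) :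
    0 < (ℓ : ℝ) ^ (-s) ∧ (ℓ : ℝ) ^ (-s) < 1 := by
  have h1 : (2 : ℝ) ≤ ℓ := by exact_mod_cast hℓ
  exact ⟨Real.rpow_pos_of_pos (by linarith) _,
    Real.rpow_lt_one_of_one_lt_of_neg (by linarith) (by linarith)⟩

private noncomputable def tl (s : ℝ) (Y : ℕ) : ℝ :=
  ∑ ℓ ∈ (Finset.range Y).filter Nat.Prime, -Real.log (1 - (ℓ : ℝ) ^ (-s))

private theorem tl_lim {s : ℝ} (hs : 1 < s) : Tendsto (tl s) atTop (𝓝 (Real.log (tz s))) := by
  have h0 : s ≠ 0 := by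
    intro h
    rw [h] at hs
    linarith
  have hsum : Summable (fun n => ‖tf s h0 n‖) := (t_summ hs).norm
  have h1 := EulerProduct.eulerProduct_completely_multiplicative hsum
  have hz : tz s ≠ 0 := by
    have h2 := tz_pos (t := s - 1) (by linarith)
    rw [add_sub_cancel] at h2
    exact h2.ne'
  have h2 : Tendsto (fun n : ℕ => Real.log (∏ p ∈ Nat.primesBelow n, (1 - tf s h0 p)⁻¹)) atTop
      (𝓝 (Real.log (tz s))) := h1.log hz
  refine h2.congr fun Y => ?_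
  rw [Real.log_prod]
  · unfold tl
    refine Finset.sum_congr rfl fun ℓ _ => ?_
    rw [Real.log_inv]
    rfl
  · intro ℓ hℓ
    have h3 := (t_lt (s := s) (by linarith) (Nat.prime_of_mem_primesBelow hℓ).two_le).2
    have h4 : 0 < 1 - tf s h0 ℓ := by
      show 0 < 1 - (ℓ : ℝ) ^ (-s)
      linarith
    exact (inv_pos.2 h4).ne'

private noncomputable def td (s₁ s₂ : ℝ) (ℓ : ℕ) : ℝ :=
  Real.log (1 - (ℓ : ℝ) ^ (-s₂)) - Real.log (1 - (ℓ : ℝ) ^ (-s₁))

private theorem td_nonneg {s₁ s₂ : ℝ} (h1 : 0 < s₁) (h2 : s₁ ≤ s₂) {ℓ : ℕ} (hℓ : 2 ≤ ℓ) :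
    0 ≤ td s₁ s₂ ℓ := by
  unfold td
  have h3 := t_lt h1 hℓ
  have hl : (2 : ℝ) ≤ ℓ := by exact_mod_cast hℓ
  have h4 : (ℓ : ℝ) ^ (-s₂) ≤ (ℓ : ℝ) ^ (-s₁) :=
    Real.rpow_le_rpow_of_exponent_le (by linarith) (by linarith)
  have h5 := Real.log_le_log (show 0 < 1 - (ℓ : ℝ) ^ (-s₁) by linarith)
    (show 1 - (ℓ : ℝ) ^ (-s₁) ≤ 1 - (ℓ : ℝ) ^ (-s₂) by linarith)
  linarith

private theorem td_lim {s₁ s₂ : ℝ} (h1 : 1 < s₁) (h2 : 1 < s₂) :
    Tendsto (fun Y : ℕ => ∑ ℓ ∈ (Finset.range Y).filter Nat.Prime, td s₁ s₂ ℓ) atTop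
      (𝓝 (Real.log (tz s₁) - Real.log (tz s₂))) := by
  refine ((tl_lim h1).sub (tl_lim h2)).congr fun Y => ?_
  unfold tl td
  rw [← Finset.sum_sub_distrib]
  refine Finset.sum_congr rfl fun ℓ _ => ?_
  ring

private theorem td_mono {s₁ s₂ : ℝ} (h1 : 0 < s₁) (h2 : s₁ ≤ s₂) :
    Monotone (fun Y : ℕ => ∑ ℓ ∈ (Finset.range Y).filter Nat.Prime, td s₁ s₂ ℓ) := by
  intro X Y hXY
  refine Finset.sum_le_sum_of_subset_of_nonneg
    (Finset.filter_subset_filter _ (Finset.range_mono hXY)) fun ℓ hℓ _ => ?_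
  exact td_nonneg h1 h2 (Finset.mem_filter.1 hℓ).2.two_le

private theorem td_le {s₁ s₂ : ℝ} (h1 : 1 < s₁) (h2 : s₁ ≤ s₂) (X : ℕ) :
    ∑ ℓ ∈ (Finset.range X).filter Nat.Prime, td s₁ s₂ ℓ ≤
      Real.log (tz s₁) - Real.log (tz s₂) :=
  (td_mono (by linarith) h2).ge_of_tendsto (td_lim h1 (by linarith)) X

private theorem log_tz_le {t : ℝ} (ht : 0 < t) : Real.log (tz (1 + t)) ≤ Real.log ((1 + t) / t) :=
  Real.log_le_log (tz_pos ht) (tz_le ht)

private theorem le_log_tz {t : ℝ} (ht : 0 < t) : Real.log (1 / t) ≤ Real.log (tz (1 + t)) :=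
  Real.log_le_log (by positivity) (le_tz ht)

theorem tot_upper {a : ℝ} (ha : 0 < a) (ha2 : a ≤ 1 / 2) (X : ℕ) :
    ∑ ℓ ∈ (Finset.range X).filter Nat.Prime, wt a ℓ ≤ 2 := by
  have h1 : ∑ ℓ ∈ (Finset.range X).filter Nat.Prime, wt a ℓ ≤
      Real.log (tz (1 + a)) - Real.log (tz (1 + 2 * a)) :=
    td_le (s₁ := 1 + a) (s₂ := 1 + 2 * a) (by linarith) (by linarith) X
  have h2 := log_tz_le ha
  have h3 := le_log_tz (t := 2 * a) (by linarith)
  have h4 : Real.log ((1 + a) / a) - Real.log (1 / (2 * a)) = Real.log (2 * (1 + a)) := by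
    rw [← Real.log_div (by positivity) (by positivity)]
    congr 1
    field_simp
  have h5 := Real.log_le_sub_one_of_pos (show 0 < 2 * (1 + a) by linarith)
  linarith

theorem tot_lower {a : ℝ} (ha : 0 < a) (ha2 : a ≤ 1 / 2) {X : ℕ} (hX : 0 < X) :
    Real.log 2 - 2 * a - 2 * (X : ℝ) ^ (-(a / 2)) ≤
      ∑ ℓ ∈ (Finset.range X).filter Nat.Prime, wt a ℓ := by
  have hX' : (0 : ℝ) < X := by exact_mod_cast hX
  have hT : Real.log 2 - 2 * a ≤ Real.log (tz (1 + a)) - Real.log (tz (1 + 2 * a)) := by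
    have h2 := le_log_tz ha
    have h3 := log_tz_le (t := 2 * a) (by linarith)
    have h4 : Real.log (1 / a) - Real.log ((1 + 2 * a) / (2 * a)) =
        Real.log 2 - Real.log (1 + 2 * a) := by
      rw [← Real.log_div (by positivity) (by positivity), ← Real.log_div (by positivity)
        (by positivity)]
      congr 1
      field_simp
    have h5 := Real.log_le_sub_one_of_pos (show 0 < 1 + 2 * a by linarith)
    linarith
  have hS : ∀ Y : ℕ, ∑ ℓ ∈ (Finset.range Y).filter Nat.Prime, td (1 + a / 2) (1 + 3 * a / 2) ℓ ≤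
      2 := by
    intro Y
    have h1 := td_le (s₁ := 1 + a / 2) (s₂ := 1 + 3 * a / 2) (by linarith) (by linarith) Y
    have h2 := log_tz_le (t := a / 2) (by linarith)
    have h3 := le_log_tz (t := 3 * a / 2) (by linarith)
    have h4 : Real.log ((1 + a / 2) / (a / 2)) - Real.log (1 / (3 * a / 2)) =
        Real.log (3 * (1 + a / 2)) := by
      rw [← Real.log_div (by positivity) (by positivity)]
      congr 1
      field_simp
    have h5 : Real.log (3 * (1 + a / 2)) ≤ Real.log (2 * 2) :=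
      Real.log_le_log (by positivity) (by linarith)
    have h7 : Real.log ((2 : ℝ) * 2) = Real.log 2 + Real.log 2 :=
      Real.log_mul (by norm_num) (by norm_num)
    have h6 := Real.log_le_sub_one_of_pos (show (0 : ℝ) < 2 by norm_num)
    have h8 : Real.log ((2 : ℝ) * 2) ≤ 2 := by
      rw [h7]
      linarith
    have h9 := sub_le_sub h2 h3
    exact h1.trans (h9.trans (h4.le.trans (h5.trans h8)))
  have htail : ∀ Y : ℕ, ∑ ℓ ∈ (Finset.range Y).filter Nat.Prime, wt a ℓ ≤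
      ∑ ℓ ∈ (Finset.range X).filter Nat.Prime, wt a ℓ + 2 * (X : ℝ) ^ (-(a / 2)) := by
    intro Y
    have h1 : ∀ ℓ ∈ (Finset.range Y).filter Nat.Prime, wt a ℓ ≤
        (if ℓ < X then wt a ℓ else 0) +
          (X : ℝ) ^ (-(a / 2)) * td (1 + a / 2) (1 + 3 * a / 2) ℓ := by
      intro ℓ hℓ
      have hp := (Finset.mem_filter.1 hℓ).2.two_le
      have h2 : 0 ≤ (X : ℝ) ^ (-(a / 2)) := Real.rpow_nonneg hX'.le _
      have h3 := td_nonneg (s₁ := 1 + a / 2) (s₂ := 1 + 3 * a / 2) (by linarith) (by linarith) hp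
      by_cases h : ℓ < X
      · rw [if_pos h]
        have := mul_nonneg h2 h3
        linarith
      · rw [if_neg h, zero_add]
        have h4 : (ℓ : ℝ) ^ (a / 2) * wt a ℓ ≤ td (1 + a / 2) (1 + 3 * a / 2) ℓ := shift ha hp
        have h5 : (X : ℝ) ≤ ℓ := by exact_mod_cast not_lt.1 h
        have h6 : 1 ≤ (X : ℝ) ^ (-(a / 2)) * (ℓ : ℝ) ^ (a / 2) := by
          have h7 : (X : ℝ) ^ (a / 2) ≤ (ℓ : ℝ) ^ (a / 2) :=
            Real.rpow_le_rpow hX'.le h5 (by linarith)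
          have h8 : (X : ℝ) ^ (-(a / 2)) * (X : ℝ) ^ (a / 2) = 1 := by
            rw [← Real.rpow_add hX', neg_add_cancel, Real.rpow_zero]
          rw [← h8]
          exact mul_le_mul_of_nonneg_left h7 h2
        calc wt a ℓ ≤ (X : ℝ) ^ (-(a / 2)) * (ℓ : ℝ) ^ (a / 2) * wt a ℓ :=
              le_mul_of_one_le_left (wt_nonneg ha hp) h6
          _ = (X : ℝ) ^ (-(a / 2)) * ((ℓ : ℝ) ^ (a / 2) * wt a ℓ) := by ring
          _ ≤ _ := mul_le_mul_of_nonneg_left h4 h2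
    refine (Finset.sum_le_sum h1).trans ?_
    rw [Finset.sum_add_distrib, ← Finset.mul_sum, ← Finset.sum_filter]
    have h2 : ∑ ℓ ∈ ((Finset.range Y).filter Nat.Prime).filter (fun ℓ => ℓ < X), wt a ℓ ≤
        ∑ ℓ ∈ (Finset.range X).filter Nat.Prime, wt a ℓ := by
      refine Finset.sum_le_sum_of_subset_of_nonneg ?_ fun ℓ hℓ _ =>
        wt_nonneg ha (Finset.mem_filter.1 hℓ).2.two_le
      intro ℓ hℓ
      obtain ⟨h3, h4⟩ := Finset.mem_filter.1 hℓ
      exact Finset.mem_filter.2 ⟨Finset.mem_range.2 h4, (Finset.mem_filter.1 h3).2⟩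
    have h3 : (X : ℝ) ^ (-(a / 2)) * ∑ ℓ ∈ (Finset.range Y).filter Nat.Prime,
        td (1 + a / 2) (1 + 3 * a / 2) ℓ ≤ 2 * (X : ℝ) ^ (-(a / 2)) := by
      rw [mul_comm 2]
      exact mul_le_mul_of_nonneg_left (hS Y) (Real.rpow_nonneg hX'.le _)
    linarith
  have hlim : Tendsto (fun Y : ℕ => ∑ ℓ ∈ (Finset.range Y).filter Nat.Prime, wt a ℓ) atTop
      (𝓝 (Real.log (tz (1 + a)) - Real.log (tz (1 + 2 * a)))) :=
    td_lim (s₁ := 1 + a) (s₂ := 1 + 2 * a) (by linarith) (by linarith)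
  have h1 := le_of_tendsto' hlim htail
  linarith

end Pool.Agent.H85.CPX
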