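import Pool.Agent.H85.CPX.Upp
import Pool.Agent.H85.CPX.Tot
import Pool.Agent.H85.CPX.Cb

/-!
# [H85 CPX MAS] A positive proportion of the primes is good

Constants: `C` from `upp n`. For `η ∈ (0, 1/4]` and `Q ≥ 2` let `a = η / log Q` (`≤ 1/2` as `log Q ≥ log 2 > 1/2`), `X = Q^A`, `w = wt a`. Then
`a log Q = η`, `a ≤ 2 η`, `C a log (Q/a) = C (η + η (log log Q + log (1/η)) / log Q) ≤ C η (2 + 2 log (1/η)) =: Λ` (`log log Q ≤ log Q`, `log Q ≥ 1/2`), `X^(-a/2) = exp (-A η/2)`.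
Let `M, N, Z, B, R` be as in the statement, `g = card G ≤ n`, `g = 2 card N`. For a prime `ℓ < X` exactly one of: (1) `ℓ ∣ R * |discr M|`; (2) `ℓ` unramified and the Frobenius `t` of
some `P` is in `N` (then of all `P`: `N` normal, `Fr_conj`, `Pr_trans`, `Fr_unique`); (3) `t ∉ N`, `t t ∈ Z` (again for all `P`, `Z` normal); (4) good: `F`.
* (1): `ram_small`: at most `a log (Q^2) = 2 η`.
* (2): `aa (fixedField N) ℓ = 2` (`cnt_N`), so twice the weight of (2) is at most `∑ aa wt ≤ log 2 + Λ` (`upp`, degree of the fixed field `≤ n`, its discriminant divides `discr M`, as in `LP.lean`).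
* (3): `g card Z · (weight of (3)) ≤ ∑_{s ∈ B} card H_s ∑_ℓ aa wt ≤ card B · 2 card Z · (log 2 + Λ)` (`cnt_B`, `card_sup`), so weight `≤ (2 card B / g) (log 2 + Λ) ≤ (1/2 - 1/(2n)) (log 2 + Λ)` as
  `4 card B + 1 ≤ g ≤ n`.
* total `≥ log 2 - 4 η - 2 exp (-A η / 2)` (`tot_lower`).
So the weight of `F` is `≥ (log 2)/(2n) - 6 η - Λ - 2 exp (-A η/2) ≥ (log 2)/(4 n) =: c` for `η` small (`η log (1/η) → 0`), then `A` large. `∑ w ≤ 2`: `tot_upper`.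
-/

set_option autoImplicit false

namespace Pool.Agent.H85.CPX

open NumberField Pool.Agent.H85.CP

private theorem mas_consts (n : ℕ) (hn : 0 < n) (C : ℝ) (hC : 0 < C) :
    ∃ (η : ℝ) (A : ℕ), 0 < η ∧ η ≤ 1 / 4 ∧
      6 * η + C * (2 * η + 2 * η * Real.log (1 / η)) + 2 * Real.exp (-(A * η / 2)) ≤
        Real.log 2 / (4 * n) := by
  have hn0 : (0 : ℝ) < n := by exact_mod_cast hn
  have hl2 : 0 < Real.log 2 := Real.log_pos (by norm_num)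
  obtain ⟨θ, hθ⟩ : ∃ θ : ℝ, θ = min (1 / 2) (Real.log 2 / (8 * n * (3 + 5 * C))) := ⟨_, rfl⟩
  have hθ0 : 0 < θ := by
    rw [hθ]
    exact lt_min (by norm_num) (by positivity)
  have hθ1 : θ ≤ 1 / 2 := by
    rw [hθ]
    exact min_le_left _ _
  have hθ2 : (3 + 5 * C) * θ ≤ Real.log 2 / (8 * n) := by
    have h1 : θ ≤ Real.log 2 / (8 * n * (3 + 5 * C)) := by
      rw [hθ]
      exact min_le_right _ _
    calc (3 + 5 * C) * θ ≤ (3 + 5 * C) * (Real.log 2 / (8 * n * (3 + 5 * C))) :=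
          mul_le_mul_of_nonneg_left h1 (by positivity)
      _ = Real.log 2 / (8 * n) := by
          field_simp
  obtain ⟨A, hA⟩ := exists_nat_ge (2 / θ ^ 2 * Real.log (16 * n / Real.log 2))
  refine ⟨θ ^ 2, A, by positivity, ?_, ?_⟩
  · nlinarith
  · have h1 : Real.log (1 / θ ^ 2) ≤ 2 / θ := by
      have h2 : Real.log (1 / θ ^ 2) = 2 * Real.log (1 / θ) := by
        have h3 : 1 / θ ^ 2 = (1 / θ) ^ 2 := by
          rw [div_pow, one_pow]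
        rw [h3, Real.log_pow]
        norm_num
      have h3 : Real.log (1 / θ) ≤ 1 / θ := by
        have := Real.log_le_sub_one_of_pos (by positivity : 0 < 1 / θ)
        linarith
      rw [h2]
      have h4 : 2 / θ = 2 * (1 / θ) := by ring
      rw [h4]
      linarith
    have h5 : 2 * θ ^ 2 * Real.log (1 / θ ^ 2) ≤ 4 * θ := by
      calc 2 * θ ^ 2 * Real.log (1 / θ ^ 2) ≤ 2 * θ ^ 2 * (2 / θ) :=
            mul_le_mul_of_nonneg_left h1 (by positivity)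
        _ = 4 * θ := by
            field_simp
            ring
    have h6 : 2 * θ ^ 2 ≤ θ := by nlinarith
    have h7 : C * (2 * θ ^ 2 + 2 * θ ^ 2 * Real.log (1 / θ ^ 2)) ≤ C * (5 * θ) :=
      mul_le_mul_of_nonneg_left (by linarith) hC.le
    have h8 : Real.exp (-(A * θ ^ 2 / 2)) ≤ Real.log 2 / (16 * n) := by
      have h9 : Real.log (16 * n / Real.log 2) ≤ A * θ ^ 2 / 2 := by
        have h10 := mul_le_mul_of_nonneg_right hA (by positivity : 0 ≤ θ ^ 2 / 2)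
        have h11 : 2 / θ ^ 2 * Real.log (16 * n / Real.log 2) * (θ ^ 2 / 2) = Real.log (16 * n / Real.log 2) := by
          field_simp
        rw [h11] at h10
        linarith
      have h12 : Real.exp (-(A * θ ^ 2 / 2)) ≤ Real.exp (-Real.log (16 * n / Real.log 2)) :=
        Real.exp_le_exp.2 (by linarith)
      refine h12.trans (le_of_eq ?_)
      rw [← Real.log_inv, Real.exp_log (by positivity), inv_div]
    have h13 : Real.log 2 / (4 * n) = Real.log 2 / (8 * n) + 2 * (Real.log 2 / (16 * n)) := by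
      field_simp
      ring
    rw [h13]
    linarith

private theorem mas_a {η Q : ℝ} (hη : 0 < η) (hη4 : η ≤ 1 / 4) (hQ : 2 ≤ Q) :
    0 < η / Real.log Q ∧ η / Real.log Q ≤ 2 * η ∧
    η / Real.log Q * Real.log (Q / (η / Real.log Q)) ≤ 2 * η + 2 * η * Real.log (1 / η) := by
  have hQ0 : 0 < Q := by linarith
  have h1 : 1 / 2 < Real.log Q := by
    have h2 := Real.log_two_gt_d9
    have h3 := Real.log_le_log (by norm_num) hQ
    linarith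
  have h0 : 0 < Real.log Q := by linarith
  have hle : η / Real.log Q ≤ 2 * η := by
    rw [div_le_iff₀ h0]
    nlinarith
  have hpos : 0 < η / Real.log Q := div_pos hη h0
  refine ⟨hpos, hle, ?_⟩
  have e1 : Q / (η / Real.log Q) = Q * (Real.log Q * (1 / η)) := by
    field_simp
  rw [e1, Real.log_mul hQ0.ne' (by positivity), Real.log_mul h0.ne' (by positivity)]
  have h2 : Real.log (Real.log Q) ≤ Real.log Q := by
    have := Real.log_le_sub_one_of_pos h0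
    linarith
  have h3 : 0 ≤ Real.log (1 / η) := by
    apply Real.log_nonneg
    rw [le_div_iff₀ hη]
    linarith
  have h4 : η / Real.log Q * Real.log Q = η := div_mul_cancel₀ _ h0.ne'
  have h5 : η / Real.log Q * Real.log (Real.log Q) ≤ η := by
    calc η / Real.log Q * Real.log (Real.log Q) ≤ η / Real.log Q * Real.log Q :=
          mul_le_mul_of_nonneg_left h2 hpos.le
      _ = η := h4
  have h6 : η / Real.log Q * Real.log (1 / η) ≤ 2 * η * Real.log (1 / η) :=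
    mul_le_mul_of_nonneg_right hle h3
  rw [mul_add, mul_add, h4]
  linarith

private theorem mas_num {n g b : ℕ} {l2 η Λ E a W S1 S2 S3 SF : ℝ} (hg : 4 * b + 1 ≤ g) (hgn : g ≤ n)
    (hl2 : 0 < l2) (hΛ : 0 ≤ Λ) (ha : a ≤ 2 * η)
    (hW : l2 - 2 * a - 2 * E ≤ W) (h1 : S1 ≤ 2 * η) (h2 : 2 * S2 ≤ l2 + Λ)
    (h3 : g * S3 ≤ 2 * b * (l2 + Λ)) (hs : W ≤ S1 + S2 + S3 + SF)
    (hc : 6 * η + Λ + 2 * E ≤ l2 / (4 * n)) : l2 / (4 * n) ≤ SF := by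
  have hg' : (4 : ℝ) * b + 1 ≤ g := by exact_mod_cast hg
  have hgn' : (g : ℝ) ≤ n := by exact_mod_cast hgn
  have hb0 : (0 : ℝ) ≤ b := Nat.cast_nonneg b
  have hg0 : (0 : ℝ) < g := by linarith
  have hn0 : (0 : ℝ) < n := by linarith
  have hT : 0 ≤ l2 + Λ := by linarith
  have h4 : g * S3 ≤ g * ((l2 + Λ) / 2) - (l2 + Λ) / 2 := by
    have h5 : 2 * (b : ℝ) * (l2 + Λ) ≤ (g - 1) / 2 * (l2 + Λ) := mul_le_mul_of_nonneg_right (by linarith) hT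
    linarith
  have h5 : S3 ≤ (l2 + Λ) / 2 - (l2 + Λ) / 2 / g := by
    have h6 : (l2 + Λ) / 2 - (l2 + Λ) / 2 / g = (g * ((l2 + Λ) / 2) - (l2 + Λ) / 2) / g := by
      field_simp
    rw [h6, le_div_iff₀ hg0]
    linarith
  have h6 : (l2 + Λ) / 2 / n ≤ (l2 + Λ) / 2 / g := div_le_div_of_nonneg_left (by linarith) hg0 hgn'
  have h7 : l2 / (4 * n) + l2 / (4 * n) = l2 / 2 / n := by
    field_simp
    ring
  have h8 : l2 / 2 / n ≤ (l2 + Λ) / 2 / n := div_le_div_of_nonneg_right (by linarith) hn0.le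
  linarith

section

variable {M : Type} [Field M] [NumberField M]

private theorem mas_deg {n : ℕ} (hM : Module.finrank ℚ M ≤ n) (L : IntermediateField ℚ M) :
    Module.finrank ℚ L ≤ n := by
  have h1 : Module.finrank ℚ L ≤ Module.finrank ℚ M :=
    Submodule.finrank_le (Subalgebra.toSubmodule L.toSubalgebra)
  exact h1.trans hM

private theorem mas_dis {Q : ℕ} (hM : (discr M).natAbs ≤ Q) (L : IntermediateField ℚ M) :
    |(discr L : ℝ)| ≤ (Q : ℝ) := by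
  have hD0 : discr M ≠ 0 := discr_ne_zero M
  have hD : 1 ≤ (discr M).natAbs := Nat.one_le_iff_ne_zero.2 (Int.natAbs_ne_zero.2 hD0)
  have h1 : discr L ∣ discr M := NumberField.discr_dvd_discr L M
  have h2 : (discr L).natAbs ≤ (discr M).natAbs :=
    Nat.le_of_dvd hD (Int.natAbs_dvd_natAbs.2 h1)
  rw [← Int.cast_abs, ← Nat.cast_natAbs]
  exact_mod_cast h2.trans hM

end

theorem mass (n : ℕ) (hn : 0 < n) : ∃ (c : ℝ) (A : ℕ), 0 < c ∧ ∀ Q : ℕ, 2 ≤ Q → ∃ w : ℕ → ℝ,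
    (∀ ℓ : ℕ, ℓ.Prime → 0 ≤ w ℓ) ∧ ∑ ℓ ∈ (Finset.range (Q ^ A)).filter Nat.Prime, w ℓ ≤ 2 ∧
    ∀ (M : Type) [Field M] [NumberField M] [IsGalois ℚ M], Module.finrank ℚ M ≤ n →
      (discr M).natAbs ≤ Q → ∀ (N Z : Subgroup Gal(M/ℚ)) [N.Normal] [Z.Normal], Z ≤ N →
      N.index = 2 → ∀ B : Finset Gal(M/ℚ), (∀ s, s ∈ B ↔ s ∉ N ∧ s * s ∈ Z) →
      4 * B.card < Nat.card Gal(M/ℚ) → ∀ R : ℕ, 0 < R → R ≤ Q →
      ∃ F : Finset ℕ, c ≤ ∑ ℓ ∈ F, w ℓ ∧ ∀ ℓ ∈ F, ℓ.Prime ∧ ℓ < Q ^ A ∧ ¬ ℓ ∣ R ∧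
        ¬ (ℓ : ℤ) ∣ discr M ∧ ∀ P ∈ Pr M ℓ, ∀ t : Gal(M/ℚ), IsFr ℓ P t → t ∉ N ∧ t * t ∉ Z := by
  obtain ⟨C, hC, hupp⟩ := upp n hn
  obtain ⟨η, A, hη, hη4, hcon⟩ := mas_consts n hn C hC
  have hn0 : (0 : ℝ) < n := by exact_mod_cast hn
  have hl2 : 0 < Real.log 2 := Real.log_pos (by norm_num)
  refine ⟨Real.log 2 / (4 * n), A, by positivity, ?_⟩
  intro Q hQ
  have hQr : (2 : ℝ) ≤ Q := by exact_mod_cast hQ
  have hQ0 : (0 : ℝ) < Q := by linarith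
  have hlQ : 0 < Real.log Q := Real.log_pos (by linarith)
  obtain ⟨ha0, ha2, haL⟩ := mas_a hη hη4 hQr
  obtain ⟨a, ha⟩ : ∃ a : ℝ, a = η / Real.log Q := ⟨_, rfl⟩
  rw [← ha] at ha0 ha2 haL
  have hah : a ≤ 1 / 2 := by linarith
  have halog : a * Real.log Q = η := by
    rw [ha]
    exact div_mul_cancel₀ _ hlQ.ne'
  obtain ⟨Λ, hΛ⟩ : ∃ Λ : ℝ, Λ = C * (2 * η + 2 * η * Real.log (1 / η)) := ⟨_, rfl⟩
  rw [← hΛ] at hcon
  have hΛ0 : 0 ≤ Λ := by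
    have h3 : 0 ≤ Real.log (1 / η) := by
      apply Real.log_nonneg
      rw [le_div_iff₀ hη]
      linarith
    rw [hΛ]
    positivity
  have hCa : C * a * Real.log (Q / a) ≤ Λ := by
    rw [hΛ, mul_assoc]
    exact mul_le_mul_of_nonneg_left haL hC.le
  refine ⟨wt a, fun ℓ hℓ => wt_nonneg ha0 hℓ.two_le, tot_upper ha0 hah _, ?_⟩
  intro M _ _ _ hMn hMQ N Z _ _ hZN hN B hB hBc R hR hRQ
  classical
  obtain ⟨L, hL⟩ : ∃ L : Finset ℕ, L = (Finset.range (Q ^ A)).filter Nat.Prime := ⟨_, rfl⟩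
  have hLp : ∀ ℓ ∈ L, ℓ.Prime := by
    intro ℓ hℓ
    rw [hL] at hℓ
    exact (Finset.mem_filter.1 hℓ).2
  have hw0 : ∀ ℓ ∈ L, 0 ≤ wt a ℓ := fun ℓ hℓ => wt_nonneg ha0 (hLp ℓ hℓ).two_le
  let L1 := L.filter fun ℓ => ℓ ∣ R * (discr M).natAbs
  let L2 := L.filter fun ℓ => ¬ ℓ ∣ R * (discr M).natAbs ∧ ∃ P ∈ Pr M ℓ, ∃ t, IsFr ℓ P t ∧ t ∈ N
  let L3 := L.filter fun ℓ => ¬ ℓ ∣ R * (discr M).natAbs ∧ ∃ P ∈ Pr M ℓ, ∃ t, IsFr ℓ P t ∧ t ∉ N ∧ t * t ∈ Z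
  let F := L.filter fun ℓ => ¬ ℓ ∣ R * (discr M).natAbs ∧
    ∀ P ∈ Pr M ℓ, ∀ t : Gal(M/ℚ), IsFr ℓ P t → t ∉ N ∧ t * t ∉ Z
  have hsum : ∑ ℓ ∈ L, wt a ℓ ≤ ∑ ℓ ∈ L1, wt a ℓ + ∑ ℓ ∈ L2, wt a ℓ + ∑ ℓ ∈ L3, wt a ℓ + ∑ ℓ ∈ F, wt a ℓ := by
    rw [Finset.sum_filter, Finset.sum_filter, Finset.sum_filter, Finset.sum_filter,
      ← Finset.sum_add_distrib, ← Finset.sum_add_distrib, ← Finset.sum_add_distrib]
    refine Finset.sum_le_sum fun ℓ hℓ => ?_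
    have h0 := hw0 ℓ hℓ
    by_cases h1 : ℓ ∣ R * (discr M).natAbs
    · rw [if_pos h1]
      have h2 : ∀ (p : Prop) [Decidable p], 0 ≤ (if p then wt a ℓ else 0) := by
        intro p _
        split_ifs
        · exact h0
        · exact le_rfl
      linarith [h2 (¬ ℓ ∣ R * (discr M).natAbs ∧ ∃ P ∈ Pr M ℓ, ∃ t, IsFr ℓ P t ∧ t ∈ N),
        h2 (¬ ℓ ∣ R * (discr M).natAbs ∧ ∃ P ∈ Pr M ℓ, ∃ t, IsFr ℓ P t ∧ t ∉ N ∧ t * t ∈ Z),
        h2 (¬ ℓ ∣ R * (discr M).natAbs ∧ ∀ P ∈ Pr M ℓ, ∀ t : Gal(M/ℚ), IsFr ℓ P t → t ∉ N ∧ t * t ∉ Z)]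
    · have h2 : ∀ (p : Prop) [Decidable p], 0 ≤ (if p then wt a ℓ else 0) := by
        intro p _
        split_ifs
        · exact h0
        · exact le_rfl
      rw [if_neg h1]
      by_cases h3 : ∃ P ∈ Pr M ℓ, ∃ t, IsFr ℓ P t ∧ t ∈ N
      · rw [if_pos (⟨h1, h3⟩ : ¬ ℓ ∣ R * (discr M).natAbs ∧ ∃ P ∈ Pr M ℓ, ∃ t, IsFr ℓ P t ∧ t ∈ N)]
        linarith [h2 (¬ ℓ ∣ R * (discr M).natAbs ∧ ∃ P ∈ Pr M ℓ, ∃ t, IsFr ℓ P t ∧ t ∉ N ∧ t * t ∈ Z),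
          h2 (¬ ℓ ∣ R * (discr M).natAbs ∧ ∀ P ∈ Pr M ℓ, ∀ t : Gal(M/ℚ), IsFr ℓ P t → t ∉ N ∧ t * t ∉ Z)]
      · by_cases h4 : ∃ P ∈ Pr M ℓ, ∃ t, IsFr ℓ P t ∧ t ∉ N ∧ t * t ∈ Z
        · rw [if_pos (⟨h1, h4⟩ : ¬ ℓ ∣ R * (discr M).natAbs ∧ ∃ P ∈ Pr M ℓ, ∃ t, IsFr ℓ P t ∧ t ∉ N ∧ t * t ∈ Z)]
          linarith [h2 (¬ ℓ ∣ R * (discr M).natAbs ∧ ∃ P ∈ Pr M ℓ, ∃ t, IsFr ℓ P t ∧ t ∈ N),
            h2 (¬ ℓ ∣ R * (discr M).natAbs ∧ ∀ P ∈ Pr M ℓ, ∀ t : Gal(M/ℚ), IsFr ℓ P t → t ∉ N ∧ t * t ∉ Z)]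
        · have h5 : ∀ P ∈ Pr M ℓ, ∀ t : Gal(M/ℚ), IsFr ℓ P t → t ∉ N ∧ t * t ∉ Z := by
            intro P hP t ht
            have h6 : t ∉ N := fun h7 => h3 ⟨P, hP, t, ht, h7⟩
            exact ⟨h6, fun h7 => h4 ⟨P, hP, t, ht, h6, h7⟩⟩
          rw [if_pos (⟨h1, h5⟩ : ¬ ℓ ∣ R * (discr M).natAbs ∧
            ∀ P ∈ Pr M ℓ, ∀ t : Gal(M/ℚ), IsFr ℓ P t → t ∉ N ∧ t * t ∉ Z)]
          linarith [h2 (¬ ℓ ∣ R * (discr M).natAbs ∧ ∃ P ∈ Pr M ℓ, ∃ t, IsFr ℓ P t ∧ t ∈ N),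
            h2 (¬ ℓ ∣ R * (discr M).natAbs ∧ ∃ P ∈ Pr M ℓ, ∃ t, IsFr ℓ P t ∧ t ∉ N ∧ t * t ∈ Z)]
  have hD0 : discr M ≠ 0 := discr_ne_zero M
  have hD : 1 ≤ (discr M).natAbs := Nat.one_le_iff_ne_zero.2 (Int.natAbs_ne_zero.2 hD0)
  have hnd : ∀ ℓ : ℕ, ¬ ℓ ∣ R * (discr M).natAbs → ¬ (ℓ : ℤ) ∣ discr M :=
    fun ℓ h h' => h ((Int.natCast_dvd.1 h').mul_left _)
  have hS1 : ∑ ℓ ∈ L1, wt a ℓ ≤ 2 * η := by
    have h1 := ram_small ha0 (Nat.mul_pos hR hD) L1 (fun ℓ hℓ =>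
      ⟨hLp ℓ (Finset.mem_filter.1 hℓ).1, (Finset.mem_filter.1 hℓ).2⟩)
    refine h1.trans ?_
    have h2 : Real.log ((R * (discr M).natAbs : ℕ) : ℝ) ≤ 2 * Real.log Q := by
      have h3 : ((R * (discr M).natAbs : ℕ) : ℝ) ≤ (Q : ℝ) ^ 2 := by
        rw [sq]
        exact_mod_cast Nat.mul_le_mul hRQ hMQ
      have h4 : (0 : ℝ) < ((R * (discr M).natAbs : ℕ) : ℝ) := by exact_mod_cast Nat.mul_pos hR hD
      have h5 := Real.log_le_log h4 h3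
      rw [Real.log_pow] at h5
      exact_mod_cast h5
    calc a * Real.log ((R * (discr M).natAbs : ℕ) : ℝ) ≤ a * (2 * Real.log Q) :=
          mul_le_mul_of_nonneg_left h2 ha0.le
      _ = 2 * (a * Real.log Q) := by ring
      _ = 2 * η := by rw [halog]
  have hub : ∀ K : IntermediateField ℚ M, ∑ ℓ ∈ L, (aa K ℓ : ℝ) * wt a ℓ ≤ Real.log 2 + Λ := by
    intro K
    have h1 := hupp K (mas_deg hMn K) Q a hQr (mas_dis hMQ K) ha0 hah (Q ^ A)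
    rw [← hL] at h1
    linarith
  have hgn : Nat.card Gal(M/ℚ) ≤ n := by
    rw [IsGalois.card_aut_eq_finrank]
    exact hMn
  have hS2 : 2 * ∑ ℓ ∈ L2, wt a ℓ ≤ Real.log 2 + Λ := by
    refine le_trans ?_ (hub (IntermediateField.fixedField N))
    rw [Finset.mul_sum]
    refine le_trans (Finset.sum_le_sum (g := fun ℓ => (aa (IntermediateField.fixedField N) ℓ : ℝ) * wt a ℓ) ?_)
      (Finset.sum_le_sum_of_subset_of_nonneg (Finset.filter_subset _ _)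
        fun ℓ hℓ _ => mul_nonneg (Nat.cast_nonneg _) (hw0 ℓ hℓ))
    intro ℓ hℓ
    obtain ⟨h1, h2, P, hP, t, ht, htN⟩ := Finset.mem_filter.1 hℓ
    have h3 := cnt_N N (hLp ℓ h1) (hnd ℓ h2) hP ht htN
    have h4 := Subgroup.card_mul_index N
    rw [hN, ← h3, mul_comm] at h4
    have h5 : 0 < Nat.card N := Nat.card_pos
    have h6 : aa (IntermediateField.fixedField N) ℓ = 2 := (Nat.eq_of_mul_eq_mul_right h5 h4).symm
    change 2 * wt a ℓ ≤ (aa (IntermediateField.fixedField N) ℓ : ℝ) * wt a ℓ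
    rw [h6]
    norm_num
  have hS3 : (Nat.card Gal(M/ℚ) : ℝ) * ∑ ℓ ∈ L3, wt a ℓ ≤ 2 * (B.card : ℝ) * (Real.log 2 + Λ) := by
    have h1 : (Nat.card Gal(M/ℚ) : ℝ) * ∑ ℓ ∈ L3, wt a ℓ ≤
        ∑ ℓ ∈ L, 2 * ∑ s ∈ B, (aa (IntermediateField.fixedField (Z ⊔ Subgroup.zpowers s)) ℓ : ℝ) * wt a ℓ := by
      rw [Finset.mul_sum]
      refine le_trans (Finset.sum_le_sum (g := fun ℓ =>
        2 * ∑ s ∈ B, (aa (IntermediateField.fixedField (Z ⊔ Subgroup.zpowers s)) ℓ : ℝ) * wt a ℓ) ?_)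
        (Finset.sum_le_sum_of_subset_of_nonneg (Finset.filter_subset _ _) fun ℓ hℓ _ => ?_)
      · intro ℓ hℓ
        obtain ⟨h1, h2, P, hP, t, ht, htN, htZ⟩ := Finset.mem_filter.1 hℓ
        have h3 := cnt_B N Z hZN B hB (hLp ℓ h1) (hnd ℓ h2) hP ht htN htZ
        have h4 : ∑ s ∈ B, Nat.card ↥(Z ⊔ Subgroup.zpowers s) *
            aa (IntermediateField.fixedField (Z ⊔ Subgroup.zpowers s)) ℓ ≤
            ∑ s ∈ B, 2 * Nat.card Z * aa (IntermediateField.fixedField (Z ⊔ Subgroup.zpowers s)) ℓ :=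
          Finset.sum_le_sum fun s hs => Nat.mul_le_mul_right _ (card_sup Z s ((hB s).1 hs).2)
        have h5 : Nat.card Z * Nat.card Gal(M/ℚ) ≤
            Nat.card Z * (2 * ∑ s ∈ B, aa (IntermediateField.fixedField (Z ⊔ Subgroup.zpowers s)) ℓ) := by
          calc Nat.card Z * Nat.card Gal(M/ℚ) = Nat.card Gal(M/ℚ) * Nat.card Z := mul_comm _ _
            _ ≤ _ := h3.trans h4
            _ = _ := by
              rw [← Finset.mul_sum]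
              ring
        have h6 := Nat.le_of_mul_le_mul_left h5 Nat.card_pos
        have h7 : (Nat.card Gal(M/ℚ) : ℝ) ≤
            2 * ∑ s ∈ B, (aa (IntermediateField.fixedField (Z ⊔ Subgroup.zpowers s)) ℓ : ℝ) := by
          exact_mod_cast h6
        change (Nat.card Gal(M/ℚ) : ℝ) * wt a ℓ ≤
          2 * ∑ s ∈ B, (aa (IntermediateField.fixedField (Z ⊔ Subgroup.zpowers s)) ℓ : ℝ) * wt a ℓ
        rw [← Finset.sum_mul, ← mul_assoc]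
        exact mul_le_mul_of_nonneg_right h7 (hw0 ℓ h1)
      · exact mul_nonneg (by norm_num) (Finset.sum_nonneg fun s _ =>
          mul_nonneg (Nat.cast_nonneg _) (hw0 ℓ hℓ))
    refine h1.trans ?_
    rw [← Finset.mul_sum, Finset.sum_comm, mul_assoc]
    refine mul_le_mul_of_nonneg_left ?_ (by norm_num)
    rw [← nsmul_eq_mul]
    exact Finset.sum_le_card_nsmul _ _ _ fun s _ => hub _
  have hW := tot_lower ha0 hah (X := Q ^ A) (pow_pos (by omega) A)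
  rw [← hL] at hW
  have hE : ((Q ^ A : ℕ) : ℝ) ^ (-(a / 2)) = Real.exp (-(A * η / 2)) := by
    rw [Nat.cast_pow, ← Real.rpow_natCast, ← Real.rpow_mul hQ0.le, Real.rpow_def_of_pos hQ0]
    congr 1
    rw [← halog]
    ring
  rw [hE] at hW
  have hfin := mas_num (n := n) (g := Nat.card Gal(M/ℚ)) (b := B.card) (by omega) hgn hl2 hΛ0 ha2 hW hS1 hS2
    hS3 hsum hcon
  refine ⟨F, hfin, ?_⟩
  intro ℓ hℓ
  obtain ⟨h1, h2, h3⟩ := Finset.mem_filter.1 hℓ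
  refine ⟨hLp ℓ h1, ?_, fun h => h2 (h.mul_right _), hnd ℓ h2, h3⟩
  rw [hL] at h1
  exact Finset.mem_range.1 (Finset.mem_filter.1 h1).1

end Pool.Agent.H85.CPX
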