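import Pool.Agent.H85.CPX.Res
import Pool.Agent.H80.CPP.End

/-!
# THEOREM CP++ (MP_cda23d_nt): one statement
-/

set_option autoImplicit false

namespace Pool.Agent.H85.CPX

open WeierstrassCurve NumberField Pool.Agent.H27.SU Pool.Agent.H85.CP Pool.Agent.H80.CPP

theorem cp_one (r : ℕ) (hr : r.Prime) : ∃ A : ℕ, ∀ (E : WeierstrassCurve ℚ) [E.IsElliptic],
    E.j ≠ 0 → E.j ≠ 1728 → ∃ _ : NumberField (XField E r), ∀ S : Finset ℕ,
      ((∀ p ∈ S, ∃ _ : Fact p.Prime, InNonsplitNormaliser E p) ∧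
        ((3 ≤ r ∧ Nfed6cde5.HasFullTorsionAction E r) ∨ FewScalarSquares E r)) ∨
      (∃ K : IntermediateField ℚ (AlgebraicClosure ℚ), (∀ p ∈ S, CartanField E p K) ∧
        ((∃ σ : AlgebraicClosure ℚ ≃ₐ[ℚ] AlgebraicClosure ℚ,
            (∃ x ∈ K, σ x ≠ x) ∧ ¬ SquareScalar E r σ) ∨
          (r = 2 ∧ (∀ x : ℚ, 4 * x ^ 3 + E.b₂ * x ^ 2 + 2 * E.b₄ * x + E.b₆ ≠ 0) ∧
            (0 < E.Δ ∨ ∃ q : ℕ, q.Prime ∧ q % 4 = 1 ∧ Odd (padicValRat q E.Δ))))) →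
      ∏ p ∈ S, p ≤ (discr (XField E r)).natAbs ^ A := by
  have : Fact r.Prime := ⟨hr⟩
  obtain ⟨A₁, h₁⟩ := cpx_final r hr
  obtain ⟨A₂, h₂⟩ := cpp_end r hr
  refine ⟨A₁ + A₂, fun E _ hj0 hj1 => ?_⟩
  obtain ⟨hN, h₃⟩ := h₂ E hj0 hj1
  refine ⟨hN, fun S hS => ?_⟩
  have hD : 1 ≤ (discr (XField E r)).natAbs :=
    Nat.one_le_iff_ne_zero.2 (Int.natAbs_ne_zero.2 (discr_ne_zero _))
  rcases hS with ⟨hS, hc⟩ | ⟨K, hK, hc⟩
  · obtain ⟨hN', h₄⟩ := h₁ E hj0 hj1 hc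
    exact (h₄ S hS).trans (Nat.pow_le_pow_right hD (by omega))
  · rcases S.eq_empty_or_nonempty with rfl | ⟨p₀, hp₀⟩
    · rw [Finset.prod_empty]
      exact Nat.one_le_pow _ _ hD
    have hfin : FiniteDimensional ℚ K := by
      have h5 : Module.finrank ℚ K = 2 := (hK p₀ hp₀).1
      exact Module.finite_of_finrank_pos (by rw [h5]; norm_num)
    have hcond : CondK E r K := by
      rcases hc with hc | hc
      · exact Or.inr (Or.inr hc)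
      · exact Or.inr (Or.inl hc)
    have h5 := h₃ K 1 S (by rw [(hK p₀ hp₀).1, pow_one]) (fun p hp => ⟨K, le_rfl, hK p hp, hcond⟩)
    refine h5.trans (Nat.pow_le_pow_right hD ?_)
    calc A₂ * min 1 (discr (XField E r)).natAbs.primeFactors.card ≤ A₂ * 1 :=
          Nat.mul_le_mul_left _ (min_le_left _ _)
      _ ≤ A₁ + A₂ := by omega

end Pool.Agent.H85.CPX
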