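import Pool.Agent.H85.CP.Stm

/-!
# THEOREM CP++ (MP_cda23d_nt): definition for the final statement
-/

set_option autoImplicit false

namespace Pool.Agent.H85.CPX

open WeierstrassCurve
open scoped Classical

/-- Fewer than half of the elements of the image of the Galois group in the automorphisms of `E[r]` have a scalar square. -/
def FewScalarSquares (E : WeierstrassCurve ℚ) (r : ℕ) : Prop :=
  let T := AddSubgroup.torsionBy (E.baseChange (AlgebraicClosure ℚ)).toAffine.Point (r : ℤ)
  let I : Set (T ≃+ T) := {a | ∃ σ : AlgebraicClosure ℚ ≃ₐ[ℚ] AlgebraicClosure ℚ,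
    ∀ P : T, Affine.Point.map (W' := E) σ.toAlgHom P.val = (a P).val}
  2 * Nat.card {a : T ≃+ T | a ∈ I ∧ ∃ n : ℤ, ∀ P : T, a (a P) = n • P} < Nat.card I

end Pool.Agent.H85.CPX
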