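import Pool.Agent.H85.CPX.Fin
import Pool.Agent.H85.CPX.Few
import Pool.Agent.H85.CPX.Stx
import Pool.Agent.H85.CP.Bri

/-!
# THEOREM CP++ (MP_cda23d_nt): the final statement
-/

set_option autoImplicit false

namespace Pool.Agent.H85.CPX

open WeierstrassCurve NumberField Pool.Agent.H27.SU Pool.Agent.H85.CP Pool.Agent.H80.CPP
  Pool.Agent.H80.CP Pool.Agent.H82.SV
open scoped Classical

/-- additive automorphisms as units -/
private noncomputable def toAu (V : Type) [AddCommGroup V] : (V ≃+ V) ≃ Au V where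
  toFun f := ⟨f.toAddMonoidHom, f.symm.toAddMonoidHom,
    AddMonoidHom.ext fun v => f.apply_symm_apply v, AddMonoidHom.ext fun v => f.symm_apply_apply v⟩
  invFun a :=
    { toFun := fun v => a.1 v
      invFun := fun v => (a⁻¹ : Au V).1 v
      left_inv := fun v => by
        show (a⁻¹ : Au V).1 (a.1 v) = v
        rw [← alb_mul_apply, inv_mul_cancel, alb_one_apply]
      right_inv := fun v => by
        show a.1 ((a⁻¹ : Au V).1 v) = v
        rw [← alb_mul_apply, mul_inv_cancel, alb_one_apply]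
      map_add' := fun u v => map_add a.1 u v }
  left_inv f := AddEquiv.ext fun _ => rfl
  right_inv a := Units.ext (AddMonoidHom.ext fun _ => rfl)

private theorem toAu_apply (V : Type) [AddCommGroup V] (f : V ≃+ V) (v : V) :
    (toAu V f).1 v = f v := rfl

theorem few_of (E : WeierstrassCurve ℚ) (r : ℕ) (h : FewScalarSquares E r) : FewSq E r := by
  have hiff : ∀ a : TT E r ≃+ TT E r, (∃ σ : AlgebraicClosure ℚ ≃ₐ[ℚ] AlgebraicClosure ℚ,
      ∀ P : TT E r, Affine.Point.map (W' := E) σ.toAlgHom P.val = (a P).val) ↔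
      ∃ σ : GQ, rhoQ E r σ = toAu (TT E r) a := by
    intro a
    constructor
    · rintro ⟨σ, hσ⟩
      refine ⟨σ, Units.ext (AddMonoidHom.ext fun v => Subtype.ext ?_)⟩
      have h1 : ((rhoQ E r σ).1 v).1 = (a v).1 := by
        rw [rhoQ_coe]
        exact hσ v
      exact h1
    · rintro ⟨σ, hσ⟩
      refine ⟨σ, fun P => ?_⟩
      have h1 : ((rhoQ E r σ).1 P).1 = (a P).1 := by
        rw [hσ]
        rfl
      rw [rhoQ_coe] at h1
      exact h1
  have h1 : Nat.card {a : TT E r ≃+ TT E r | (∃ σ : AlgebraicClosure ℚ ≃ₐ[ℚ] AlgebraicClosure ℚ,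
      ∀ P : TT E r, Affine.Point.map (W' := E) σ.toAlgHom P.val = (a P).val)} =
      Nat.card {a : Au (TT E r) // ∃ σ : GQ, rhoQ E r σ = a} :=
    Nat.card_congr ((toAu (TT E r)).subtypeEquiv hiff)
  have h2 : Nat.card {a : TT E r ≃+ TT E r | (∃ σ : AlgebraicClosure ℚ ≃ₐ[ℚ] AlgebraicClosure ℚ,
      ∀ P : TT E r, Affine.Point.map (W' := E) σ.toAlgHom P.val = (a P).val) ∧
      ∃ n : ℤ, ∀ P : TT E r, a (a P) = n • P} =
      Nat.card {a : Au (TT E r) // (∃ σ : GQ, rhoQ E r σ = a) ∧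
        ∃ n : ℤ, ∀ v : TT E r, a.1 (a.1 v) = n • v} :=
    Nat.card_congr ((toAu (TT E r)).subtypeEquiv fun a => and_congr (hiff a) Iff.rfl)
  have h3 : 2 * Nat.card {a : TT E r ≃+ TT E r |
      (∃ σ : AlgebraicClosure ℚ ≃ₐ[ℚ] AlgebraicClosure ℚ,
      ∀ P : TT E r, Affine.Point.map (W' := E) σ.toAlgHom P.val = (a P).val) ∧
      ∃ n : ℤ, ∀ P : TT E r, a (a P) = n • P} <
      Nat.card {a : TT E r ≃+ TT E r | (∃ σ : AlgebraicClosure ℚ ≃ₐ[ℚ] AlgebraicClosure ℚ,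
      ∀ P : TT E r, Affine.Point.map (W' := E) σ.toAlgHom P.val = (a P).val)} := h
  rw [h1, h2] at h3
  exact h3

theorem few_surj (E : WeierstrassCurve ℚ) [E.IsElliptic] (r : ℕ) [Fact r.Prime] (hr : 3 ≤ r)
    (hs : ∀ a : Au (TT E r), ∃ σ : GQ, rhoQ E r σ = a) : FewSq E r := by
  have h1 := few_abs (V := TT E r) Fact.out hr (tt_tors E r) (card_TT E r (by omega))
  have h2 : Nat.card {a : Au (TT E r) // (∃ σ : GQ, rhoQ E r σ = a) ∧
      ∃ n : ℤ, ∀ v : TT E r, a.1 (a.1 v) = n • v} =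
      Nat.card {a : Au (TT E r) // ∃ n : ℤ, ∀ v : TT E r, a.1 (a.1 v) = n • v} :=
    Nat.card_congr ((Equiv.refl _).subtypeEquiv fun a => ⟨fun h => h.2, fun h => ⟨hs a, h⟩⟩)
  have h3 : Nat.card {a : Au (TT E r) // ∃ σ : GQ, rhoQ E r σ = a} = Nat.card (Au (TT E r)) :=
    Nat.card_congr (Equiv.subtypeUnivEquiv hs)
  unfold FewSq
  rw [h2, h3]
  exact h1

theorem nonsplitWith_of (E : WeierstrassCurve ℚ) [E.IsElliptic] (p : ℕ) [Fact p.Prime]
    (hE : InNonsplitNormaliser E p) : ∃ y : QB, NonsplitWith E p y := by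
  obtain ⟨e, he⟩ := hE
  have hfin : Fintype (GaloisField p 2) := Fintype.ofFinite _
  have hk : Fintype.card (GaloisField p 2) = p ^ 2 := by
    have := GaloisField.card p 2 (by norm_num)
    rw [Nat.card_eq_fintype_card] at this
    exact this
  have hN : ∀ σ, IsLin e (rhoQ E p σ) ∨ IsSemi e p (rhoQ E p σ) := by
    intro σ
    rcases he σ with ⟨c, hc⟩ | ⟨c, hc⟩
    · exact Or.inl ⟨c, fun v => hc v ((rhoQ E p σ).1 v) (rhoQ_coe E p σ v).symm⟩
    · exact Or.inr ⟨c, fun v => hc v ((rhoQ E p σ).1 v) (rhoQ_coe E p σ v).symm⟩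
  obtain ⟨m, s, -, -, hms⟩ := qf_exists E e hk hN
  have hval : ∀ (σ : GQ) (P Q : TT E p), Affine.Point.map (W' := E) σ.toAlgHom P.val = Q.val →
      Q = (rhoQ E p σ).1 P := by
    intro σ P Q h
    apply Subtype.ext
    rw [rhoQ_coe, ← h]
  refine ⟨s, inferInstance, e, fun σ => ⟨fun h => ?_, fun h => ?_⟩⟩
  · obtain ⟨c, hc⟩ := (hms σ).2 h
    exact ⟨c, fun P Q hPQ => by rw [hval σ P Q hPQ, hc]⟩
  · obtain ⟨c, hc⟩ := (hN σ).resolve_left fun h' => h ((hms σ).1 h')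
    exact ⟨c, fun P Q hPQ => by rw [hval σ P Q hPQ, hc]⟩

theorem cpx_final (r : ℕ) (hr : r.Prime) : ∃ A : ℕ, ∀ (E : WeierstrassCurve ℚ) [E.IsElliptic],
    E.j ≠ 0 → E.j ≠ 1728 →
    ((3 ≤ r ∧ Nfed6cde5.HasFullTorsionAction E r) ∨ FewScalarSquares E r) →
    ∃ _ : NumberField (XField E r), ∀ S : Finset ℕ,
      (∀ p ∈ S, ∃ _ : Fact p.Prime, InNonsplitNormaliser E p) →
      ∏ p ∈ S, p ≤ (discr (XField E r)).natAbs ^ A := by
  have : Fact r.Prime := ⟨hr⟩
  obtain ⟨A, hA⟩ := cpx_main r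
  refine ⟨18 + A, fun E _ hj0 hj1 h => ?_⟩
  obtain ⟨hf, -, -⟩ := LX_galois E r
  have hF : FewSq E r := by
    rcases h with ⟨hr3, hs⟩ | h
    · exact few_surj E r hr3 (full_surj E r hs)
    · exact few_of E r h
  rw [XField_eq]
  have hN : NumberField (LX E r) := ⟨⟩
  refine ⟨hN, fun S hS => ?_⟩
  obtain ⟨σ₀, hσ₀⟩ := few_ne E r hF
  have hD : 3 ≤ (discr (LX E r)).natAbs := LX_gt' E r hσ₀
  have hSp : ∀ p ∈ S, p.Prime := by
    intro p hp
    obtain ⟨h1, -⟩ := hS p hp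
    exact h1.out
  rw [pow_add, ← Finset.prod_filter_mul_prod_filter_not S (fun p => p < 29)]
  refine Nat.mul_le_mul ?_ ?_
  · calc ∏ p ∈ S with p < 29, p ≤ ∏ p ∈ (Finset.range 29).filter Nat.Prime, p := by
          refine Finset.prod_le_prod_of_subset_of_one_le' ?_ ?_
          · intro p hp
            obtain ⟨h1, h2⟩ := Finset.mem_filter.1 hp
            exact Finset.mem_filter.2 ⟨Finset.mem_range.2 h2, hSp p h1⟩
          · intro p hp _
            exact (Finset.mem_filter.1 hp).2.one_lt.le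
      _ ≤ 3 ^ 18 := by decide
      _ ≤ (discr (LX E r)).natAbs ^ 18 := Nat.pow_le_pow_left hD 18
  · have hy : ∀ p : ℕ, ∃ y : QB, p ∈ S → NonsplitWith E p y := by
      intro p
      by_cases hp : p ∈ S
      · obtain ⟨h1, h2⟩ := hS p hp
        obtain ⟨y, hy⟩ := nonsplitWith_of E p h2
        exact ⟨y, fun _ => hy⟩
      · exact ⟨0, fun h => absurd h hp⟩
    choose y hy using hy
    refine hA E hj0 hj1 hF _ y fun p hp => ?_
    obtain ⟨h1, h2⟩ := Finset.mem_filter.1 hp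
    exact ⟨not_lt.1 h2, hy p h1⟩

end Pool.Agent.H85.CPX
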