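import Pool.Agent.H85.CPX.Lan
import Pool.Agent.H85.CPX.Eup

/-!
# THEOREM CP++: every number field has at most its share
-/

set_option autoImplicit false

namespace Pool.Agent.H85.CPX

open NumberField Pool.Agent.H85.CP

theorem upp (n : ℕ) (hn : 0 < n) : ∃ C : ℝ, 0 < C ∧ ∀ (k : Type) [Field k] [NumberField k],
    Module.finrank ℚ k ≤ n → ∀ Q a : ℝ, 2 ≤ Q → |(discr k : ℝ)| ≤ Q → 0 < a → a ≤ 1 / 2 →
    ∀ Y : ℕ, ∑ ℓ ∈ (Finset.range Y).filter Nat.Prime, (aa k ℓ : ℝ) * wt a ℓ ≤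
      Real.log 2 + C * a * Real.log (Q / a) := by
  obtain ⟨C, hC, h⟩ := zk_ratio n hn
  refine ⟨C, hC, fun k _ _ hk Q a hQ hd ha ha2 Y => ?_⟩
  have h1 := (eup k ha Y).trans (h k hk Q a hQ hd ha ha2)
  have h2 : 0 < ‖zk k ((1 + 2 * a : ℝ) : ℂ)‖ :=
    lt_of_lt_of_le one_pos (zk_one_le k (by linarith))
  have h3 := le_of_mul_le_mul_right h1 h2
  have h4 := Real.log_le_log (Real.exp_pos _) h3
  rwa [Real.log_exp, Real.log_mul two_ne_zero (Real.exp_ne_zero _), Real.log_exp] at h4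

end Pool.Agent.H85.CPX
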