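import Mathlib

/-!
# THEOREM CP++ (MP_cda23d_nt): the weights of the primes

`wt a ℓ = log ((1 - ℓ^(-(1+2a))) / (1 - ℓ^(-(1+a))))`
-/

set_option autoImplicit false

namespace Pool.Agent.H85.CPX

noncomputable def wt (a : ℝ) (ℓ : ℕ) : ℝ :=
  Real.log (1 - (ℓ : ℝ) ^ (-(1 + 2 * a))) - Real.log (1 - (ℓ : ℝ) ^ (-(1 + a)))

end Pool.Agent.H85.CPX
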